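import Pool.Agent.H81.XBG.Tay
import Pool.Agent.H81.LU.Unif
import Pool.Agent.H3.XB.Chain

/-!
# Curved leaves over a base: the records

The data of the chain of `Pool.XB.Chn` for two leaves `a`, `b` through the point `y` of the line.
-/

set_option autoImplicit false

namespace Pool.XBG

open Finset Real Pool.XF Pool.LU
open Pool.Agent.H49.Ent Pool.Agent.H32.Dense Pool.STK Pool.KA Pool.KSAT Pool.K2S Pool.PC

variable {Ω : Type} {k : ℕ} {C₁ : ℝ}

/-- The cell of depth `s`. -/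
noncomputable def cel (X : ℕ) (y : Ω → Fin k → ℝ) (s : ℕ) (ω : Ω) (i : Fin k) : ℤ :=
  ⌊(2 : ℝ) ^ (s * X) * y ω i⌋

/-- The corner of a cell. -/
noncomputable def crn (X s : ℕ) (Z : Fin k → ℤ) (i : Fin k) : ℝ := Z i / 2 ^ (s * X)

/-- The position in the cell. -/
noncomputable def xx (X : ℕ) (y : Ω → Fin k → ℝ) (s : ℕ) (ω : Ω) (i : Fin k) : ℝ :=
  2 ^ (s * X) * y ω i - cel X y s ω i

theorem xx_nonneg (X : ℕ) (y : Ω → Fin k → ℝ) (s : ℕ) (ω : Ω) (i : Fin k) :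
    0 ≤ xx X y s ω i := by
  unfold xx cel
  linarith [Int.floor_le ((2 : ℝ) ^ (s * X) * y ω i)]

theorem xx_lt (X : ℕ) (y : Ω → Fin k → ℝ) (s : ℕ) (ω : Ω) (i : Fin k) : xx X y s ω i < 1 := by
  unfold xx cel
  linarith [Int.lt_floor_add_one ((2 : ℝ) ^ (s * X) * y ω i)]

/-- The corner and the point. -/
theorem crn_sub (X : ℕ) (y : Ω → Fin k → ℝ) (s : ℕ) (ω : Ω) (i : Fin k) :
    crn X s (cel X y s ω) i - y ω i = -(xx X y s ω i / 2 ^ (s * X)) := by
  unfold crn xx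
  have h : (2 : ℝ) ^ (s * X) ≠ 0 := by positivity
  field_simp
  ring

theorem crn_near (X : ℕ) (y : Ω → Fin k → ℝ) (s : ℕ) (ω : Ω) (i : Fin k) :
    |crn X s (cel X y s ω) i - y ω i| ≤ 1 / 2 ^ (s * X) := by
  rw [crn_sub, abs_neg, abs_of_nonneg (div_nonneg (xx_nonneg X y s ω i) (by positivity))]
  exact div_le_div_of_nonneg_right (xx_lt X y s ω i).le (by positivity)

/-- The order of the block of depth `s`. -/
def ordr (X j s : ℕ) : ℕ := if 1 ≤ s ∧ (s + 1) * X ≤ j then 2 else if j + X ≤ s * X then 1 else 0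

theorem ordr_le (X j s : ℕ) : ordr X j s ≤ 2 := by
  unfold ordr
  split_ifs <;> omega

/-- The record of depth `s`. -/
noncomputable def rc0 (X j : ℕ) (y : Ω → Fin k → ℝ) (a : Ω → Lf k C₁) (s : ℕ) (ω : Ω) :
    (Fin k → ℤ) × (ℤ × (Fin k → ℤ)) :=
  (cel X y s ω, (⌊(2 : ℝ) ^ (s * X + min (s * X) j) * (a ω).f (crn X s (cel X y s ω))⌋,
    fun i => ⌊(2 : ℝ) ^ (min (s * X) j) * (a ω).g (crn X s (cel X y s ω)) i⌋))

/-- The records up to the depth `s`. -/
noncomputable def rcd (X j : ℕ) (y : Ω → Fin k → ℝ) (a : Ω → Lf k C₁) (s : ℕ) (ω : Ω) :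
    ℕ → Option ((Fin k → ℤ) × (ℤ × (Fin k → ℤ))) := fun i =>
  if i ≤ s then some (rc0 X j y a i ω) else none

theorem rcd_eq {X j : ℕ} {y : Ω → Fin k → ℝ} {a : Ω → Lf k C₁} {s : ℕ} {ω ω' : Ω}
    (h : rcd X j y a s ω = rcd X j y a s ω') {i : ℕ} (hi : i ≤ s) :
    rc0 X j y a i ω = rc0 X j y a i ω' := by
  have h1 := congrFun h i
  unfold rcd at h1
  rw [if_pos hi, if_pos hi, Option.some.injEq] at h1
  exact h1

theorem rcd_mk {X j : ℕ} {y : Ω → Fin k → ℝ} {a : Ω → Lf k C₁} {s : ℕ} {ω ω' : Ω}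
    (h : ∀ i ≤ s, rc0 X j y a i ω = rc0 X j y a i ω') :
    rcd X j y a s ω = rcd X j y a s ω' := by
  funext i
  unfold rcd
  by_cases hi : i ≤ s
  · rw [if_pos hi, if_pos hi, h i hi]
  · rw [if_neg hi, if_neg hi]

/-- Cells are nested. -/
theorem cel_crs {X : ℕ} {y : Ω → Fin k → ℝ} {i s : ℕ} (hi : i ≤ s) {ω ω' : Ω}
    (h : cel X y s ω = cel X y s ω') : cel X y i ω = cel X y i ω' := by
  funext l
  have h1 : fl (s * X) (fun _ : Fin 1 => y ω l) = fl (s * X) (fun _ : Fin 1 => y ω' l) := by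
    funext q
    exact congrFun h l
  exact congrFun (fl_crs (Nat.mul_le_mul_right X hi) h1) 0

/-- The direction at the depth `s`. -/
def dirs (X j : ℕ) (dd : Ω → Fin k × (Fin k → ℤ)) (i1 : Ω → Fin k) (s : ℕ) (ω : Ω) :
    Fin k × (Fin k → ℤ) :=
  if ordr X j s = 1 then (i1 ω, fun l => if l = i1 ω then 1 else 0) else dd ω

/-- The sheared digits of the other coordinates. -/
noncomputable def etas (X : ℕ) (y : Ω → Fin k → ℝ) (d : Ω → Fin k × (Fin k → ℤ)) (s : ℕ) (ω : Ω)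
    (l : Fin k) : ℤ :=
  if l = (d ω).1 then 0 else ⌊(2 : ℝ) ^ X * (xx X y s ω l - (d ω).2 l * xx X y s ω (d ω).1)⌋

/-- The digits in the direction. -/
noncomputable def zets (X : ℕ) (y : Ω → Fin k → ℝ) (d : Ω → Fin k × (Fin k → ℤ)) (s : ℕ)
    (ω : Ω) : ℕ := ⌊(2 : ℝ) ^ X * xx X y s ω (d ω).1⌋.toNat

/-- The point of comparison. -/
noncomputable def pnt (X s : ℕ) (Z n : Fin k → ℤ) (l : Fin k) : ℝ :=
  (Z l + n l / 2 ^ X) / 2 ^ (s * X)

/-- The jets of a leaf. -/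
noncomputable def jet (X j s : ℕ) (L : Lf k C₁) (Y : Fin k → ℝ) (e : Fin k → ℤ) (i : ℕ) : ℤ :=
  if ordr X j s = 2 then
    (if i = 0 then ⌊(2 : ℝ) ^ (X + 2 * (s * X)) * L.f Y⌋
      else ⌊(2 : ℝ) ^ (X + s * X) * dt (fun l => (e l : ℝ)) (L.g Y)⌋)
  else ⌊(2 : ℝ) ^ (X + j + s * X) * L.f Y⌋

theorem zets_cast (X : ℕ) (y : Ω → Fin k → ℝ) (d : Ω → Fin k × (Fin k → ℤ)) (s : ℕ) (ω : Ω) :
    ((zets X y d s ω : ℕ) : ℝ) ≤ 2 ^ X * xx X y s ω (d ω).1 ∧
    2 ^ X * xx X y s ω (d ω).1 < (zets X y d s ω : ℕ) + 1 := by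
  have h0 : (0 : ℝ) ≤ 2 ^ X * xx X y s ω (d ω).1 :=
    mul_nonneg (by positivity) (xx_nonneg X y s ω _)
  have h1 : (0 : ℤ) ≤ ⌊(2 : ℝ) ^ X * xx X y s ω (d ω).1⌋ := Int.floor_nonneg.mpr h0
  have h2 : (((zets X y d s ω : ℕ) : ℤ) : ℝ) = ((⌊(2 : ℝ) ^ X * xx X y s ω (d ω).1⌋ : ℤ) : ℝ) := by
    unfold zets
    rw [Int.toNat_of_nonneg h1]
  rw [Int.cast_natCast] at h2
  rw [h2]
  exact ⟨Int.floor_le _, Int.lt_floor_add_one _⟩

theorem zets_le (X : ℕ) (y : Ω → Fin k → ℝ) (d : Ω → Fin k × (Fin k → ℤ)) (s : ℕ) (ω : Ω) :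
    zets X y d s ω ≤ 2 ^ X := by
  have h := (zets_cast X y d s ω).1
  have h2 : (2 : ℝ) ^ X * xx X y s ω (d ω).1 ≤ 2 ^ X * 1 :=
    mul_le_mul_of_nonneg_left (xx_lt X y s ω _).le (by positivity)
  rw [mul_one] at h2
  exact_mod_cast h.trans h2

/-- The remainder. -/
theorem pnt_sub {X : ℕ} {y : Ω → Fin k → ℝ} {d : Ω → Fin k × (Fin k → ℤ)} {s : ℕ} {ω : Ω}
    (h1 : (d ω).2 (d ω).1 = 1) (h2 : ∀ l, |(((d ω).2 l : ℤ) : ℝ)| ≤ 1) :
    ∃ ρ : Fin k → ℝ, (∀ l, |ρ l| ≤ 2 * (1 / 2 ^ X)) ∧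
      ∀ l, pnt X s (cel X y s ω) (etas X y d s ω) l - y ω l =
        -(1 / 2 ^ (s * X)) * (((zets X y d s ω : ℕ) : ℝ) / 2 ^ X * (d ω).2 l + ρ l) := by
  have hX : (0 : ℝ) < 2 ^ X := by positivity
  have hs : (0 : ℝ) < 2 ^ (s * X) := by positivity
  obtain ⟨z, hz⟩ : ∃ z : ℝ, z = ((zets X y d s ω : ℕ) : ℝ) / 2 ^ X := ⟨_, rfl⟩
  obtain ⟨x0, hx0⟩ : ∃ x, x = xx X y s ω (d ω).1 := ⟨_, rfl⟩
  have hzx : 0 ≤ x0 - z ∧ x0 - z ≤ 1 / 2 ^ X := by
    obtain ⟨g1, g2⟩ := zets_cast X y d s ω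
    rw [← hx0] at g1 g2
    rw [hz]
    constructor
    · rw [sub_nonneg, div_le_iff₀ hX]
      linarith
    · rw [sub_le_iff_le_add, ← add_div, le_div_iff₀ hX]
      linarith
  refine ⟨fun l => xx X y s ω l - (etas X y d s ω l : ℝ) / 2 ^ X - z * (d ω).2 l, ?_, ?_⟩
  · intro l
    show |xx X y s ω l - (etas X y d s ω l : ℝ) / 2 ^ X - z * (d ω).2 l| ≤ _
    by_cases hl : l = (d ω).1
    · rw [hl, h1, ← hx0]
      unfold etas
      rw [if_pos rfl]
      push_cast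
      rw [zero_div, sub_zero, mul_one, abs_of_nonneg hzx.1]
      linarith [hzx.2, (by positivity : (0 : ℝ) ≤ 1 / 2 ^ X)]
    · have e1 : (etas X y d s ω l : ℝ) = ((⌊(2 : ℝ) ^ X * (xx X y s ω l -
          (d ω).2 l * x0)⌋ : ℤ) : ℝ) := by
        unfold etas
        rw [if_neg hl, hx0]
      have f1 := Int.floor_le ((2 : ℝ) ^ X * (xx X y s ω l - (d ω).2 l * x0))
      have f2 := Int.lt_floor_add_one ((2 : ℝ) ^ X * (xx X y s ω l - (d ω).2 l * x0))
      rw [← e1] at f1 f2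
      have g1 : (etas X y d s ω l : ℝ) / 2 ^ X ≤ xx X y s ω l - (d ω).2 l * x0 := by
        rw [div_le_iff₀ hX]
        linarith
      have g2 : xx X y s ω l - (d ω).2 l * x0 - 1 / 2 ^ X ≤ (etas X y d s ω l : ℝ) / 2 ^ X := by
        rw [sub_le_iff_le_add, ← add_div, le_div_iff₀ hX]
        linarith
      have e2 : xx X y s ω l - (etas X y d s ω l : ℝ) / 2 ^ X - z * (d ω).2 l =
          (xx X y s ω l - (d ω).2 l * x0 - (etas X y d s ω l : ℝ) / 2 ^ X) +
            (d ω).2 l * (x0 - z) := by ring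
      rw [e2]
      refine (abs_add_le _ _).trans ?_
      have g3 : |xx X y s ω l - (d ω).2 l * x0 - (etas X y d s ω l : ℝ) / 2 ^ X| ≤ 1 / 2 ^ X := by
        rw [abs_of_nonneg (by linarith)]
        linarith
      have g4 : |(((d ω).2 l : ℤ) : ℝ) * (x0 - z)| ≤ 1 * (1 / 2 ^ X) :=
        abs_mul_le (h2 l) (by rw [abs_of_nonneg hzx.1]; exact hzx.2)
      linarith
  · intro l
    show pnt X s (cel X y s ω) (etas X y d s ω) l - y ω l = -(1 / 2 ^ (s * X)) *
      (((zets X y d s ω : ℕ) : ℝ) / 2 ^ X * (d ω).2 l + (xx X y s ω l -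
        (etas X y d s ω l : ℝ) / 2 ^ X - z * (d ω).2 l))
    rw [← hz]
    unfold pnt xx
    field_simp
    ring

/-- The tail function. -/
noncomputable def xof (X : ℕ) (c : ℝ) : ℕ :=
  open Classical in if h : ∃ n, n ≤ X ∧ 1 / 2 ^ n ≤ |c| then Nat.find h else X

theorem xof_or (X : ℕ) (c : ℝ) : X ≤ xof X c ∨ 1 / 2 ^ (xof X c) ≤ |c| := by
  classical
  unfold xof
  split_ifs with h
  · exact Or.inr (Nat.find_spec h).2
  · exact Or.inl le_rfl

theorem xof_le (X : ℕ) (c : ℝ) : xof X c ≤ X := by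
  classical
  unfold xof
  split_ifs with h
  · exact (Nat.find_spec h).1
  · exact le_rfl

theorem xof_le' {X n : ℕ} {c : ℝ} (hn : n ≤ X) (hc : 1 / 2 ^ n ≤ |c|) : xof X c ≤ n := by
  classical
  unfold xof
  rw [dif_pos ⟨n, hn, hc⟩]
  exact Nat.find_min' _ ⟨hn, hc⟩

/-- A direction in which a symmetric form is large. -/
theorem dir_ex {β : Fin k → Fin k → ℝ} (hs : ∀ i j, β i j = β j i) {t : ℝ} (ht : 0 ≤ t)
    {i j : Fin k} (hij : t ≤ |β i j|) : ∃ d : Fin k × (Fin k → ℤ), d.2 d.1 = 1 ∧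
      (∀ l, |((d.2 l : ℤ) : ℝ)| ≤ 1) ∧ t / 2 ≤ |qf β (fun l => d.2 l) (fun l => d.2 l)| := by
  classical
  have sg : ∀ l : Fin k, qf β (fun q => ((if q = l then (1 : ℤ) else 0 : ℤ) : ℝ))
      (fun q => ((if q = l then (1 : ℤ) else 0 : ℤ) : ℝ)) = β l l := by
    intro l
    unfold qf
    simp
  by_cases h1 : t / 2 ≤ |β i i|
  · refine ⟨(i, fun l => if l = i then 1 else 0), by simp, ?_, ?_⟩
    · intro l
      dsimp only
      split_ifs <;> simp
    · dsimp only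
      rw [sg i]
      exact h1
  · by_cases h2 : t / 2 ≤ |β j j|
    · refine ⟨(j, fun l => if l = j then 1 else 0), by simp, ?_, ?_⟩
      · intro l
        dsimp only
        split_ifs <;> simp
      · dsimp only
        rw [sg j]
        exact h2
    · have hne : i ≠ j := by
        intro h
        rw [← h] at hij
        linarith
      refine ⟨(i, fun l => if l = i then 1 else if l = j then 1 else 0), by simp, ?_, ?_⟩
      · intro l
        dsimp only
        split_ifs <;> simp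
      · have e1 : qf β (fun l => (((if l = i then 1 else if l = j then 1 else 0 : ℤ)) : ℝ))
            (fun l => (((if l = i then 1 else if l = j then 1 else 0 : ℤ)) : ℝ)) =
            β i i + β j j + 2 * β i j := by
          have e2 : (fun l : Fin k => (((if l = i then 1 else if l = j then 1 else 0 : ℤ)) : ℝ)) =
              fun l => (if l = i then (1 : ℝ) else 0) + (if l = j then (1 : ℝ) else 0) := by
            funext l
            by_cases hl : l = i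
            · rw [if_pos hl, if_pos hl, if_neg (by rw [hl]; exact hne)]
              simp
            · rw [if_neg hl, if_neg hl]
              by_cases hl2 : l = j <;> simp [hl2]
          rw [e2]
          unfold qf
          simp only [mul_add, mul_ite, mul_one, mul_zero, ite_mul, zero_mul,
            Finset.sum_add_distrib, Finset.sum_ite_eq', Finset.mem_univ, if_true]
          rw [hs j i]
          ring
        dsimp only
        rw [e1]
        push Not at h1 h2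
        have h3 : 2 * |β i j| ≤ |β i i + β j j + 2 * β i j| + |β i i| + |β j j| := by
          obtain ⟨q, hq⟩ : ∃ q, q = β i i + β j j + 2 * β i j := ⟨_, rfl⟩
          have e4 : 2 * |β i j| = |q - β i i - β j j| := by
            rw [hq, show β i i + β j j + 2 * β i j - β i i - β j j = 2 * β i j by ring, abs_mul,
              abs_of_pos (by norm_num : (0 : ℝ) < 2)]
          rw [← hq, e4]
          have g1 := abs_sub (q - β i i) (β j j)
          have g2 := abs_sub q (β i i)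
          linarith
        linarith

end Pool.XBG
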