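import Pool.Agent.H81.XBG.Fld

/-!
# Curved leaves over a base: the structure of the chain
-/

set_option autoImplicit false

namespace Pool.XBG

open Finset Real Pool.XF Pool.LU
open Pool.Agent.H49.Ent Pool.Agent.H32.Dense Pool.STK Pool.KA Pool.KSAT Pool.K2S Pool.PC

variable {Ω α β τ : Type} [Fintype Ω] {p : Ω → ℝ} {k : ℕ} {C₁ : ℝ} {X S j D : ℕ}
  {A : Ω → α} {B : Ω → β} {W : Ω → τ} {y : Ω → Fin k → ℝ} {a b : Ω → Lf k C₁}

/-- The records, given the second leaf. -/
theorem Dat.recB (h : Dat p X S j D A B W y a b) (hp : IsLaw p) {dd : Ω → Fin k × (Fin k → ℤ)}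
    {i1 : Ω → Fin k} {s : ℕ} (hs : s ≤ S) :
    CH p (rcd X j y a s) (fun ω => (cel X y s ω, (B ω, (W ω, gam X j y a b dd i1 ω)))) ≤
      (s + 1) * ((k + 1) * Real.log (2 * (2 * Kc k C₁ + 1) + 1)) := by
  have hp0 := hp.nonneg
  have hKc := (Kc_ge (k := k) h.C1).1
  obtain ⟨V, hV⟩ : ∃ V, V = (fun ω => (cel X y s ω, (B ω, (W ω, gam X j y a b dd i1 ω)))) :=
    ⟨_, rfl⟩
  rw [← hV]
  have k1 : CH p (rcd X j y a s) V ≤ CH p (fun ω (i : Fin (s + 1)) => rc0 X j y a i ω) V := by
    refine CH_mono_left hp0 fun ω ω' _ _ hh => ?_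
    have h1 := (Prod.ext_iff.mp hh).1
    refine rcd_mk fun i hi => ?_
    exact congrFun h1 (⟨i, Nat.lt_succ_of_le hi⟩ : Fin (s + 1))
  refine (k1.trans (CH_pi hp0 _ V)).trans ?_
  have k2 : ∀ i : Fin (s + 1), CH p (fun ω => rc0 X j y a i ω) V ≤
      (k + 1) * Real.log (2 * (2 * Kc k C₁ + 1) + 1) := by
    intro i
    have hi : (i : ℕ) ≤ s := Nat.lt_succ_iff.mp i.2
    obtain ⟨m, hm⟩ : ∃ m : ℕ, m = (i : ℕ) := ⟨_, rfl⟩
    rw [← hm] at hi ⊢
    -- two samples with the same data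
    have two : ∀ ω ω', 0 < p ω → 0 < p ω' → V ω = V ω' → cel X y m ω = cel X y m ω' ∧
        |(a ω).f (crn X m (cel X y m ω)) - (a ω').f (crn X m (cel X y m ω))| ≤
          2 * Kc k C₁ / 2 ^ (m * X + min (m * X) j) ∧
        ∀ l, |(a ω).g (crn X m (cel X y m ω)) l - (a ω').g (crn X m (cel X y m ω)) l| ≤
          2 * Kc k C₁ / 2 ^ (min (m * X) j) := by
      intro ω ω' hω hω' hh
      rw [hV] at hh
      simp only [Prod.mk.injEq] at hh
      obtain ⟨h1, h2, h3, -⟩ := hh
      have hc : cel X y m ω = cel X y m ω' := cel_crs hi h1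
      have hb : b ω = b ω' := h.db ω ω' hω hω' (Prod.ext h2 h3)
      obtain ⟨n1, n2⟩ := h.near hω (i := m) (hi.trans hs)
      obtain ⟨m1, m2⟩ := h.near hω' (i := m) (hi.trans hs)
      rw [← hc, ← hb] at m1 m2
      refine ⟨hc, ?_, fun l => ?_⟩
      · have e : (a ω).f (crn X m (cel X y m ω)) - (a ω').f (crn X m (cel X y m ω)) =
            ((a ω).f (crn X m (cel X y m ω)) - (b ω).f (crn X m (cel X y m ω))) -
            ((a ω').f (crn X m (cel X y m ω)) - (b ω).f (crn X m (cel X y m ω))) := by ring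
        rw [e]
        refine (abs_sub _ _).trans ?_
        have e2 : 2 * Kc k C₁ / (2 : ℝ) ^ (m * X + min (m * X) j) =
          Kc k C₁ / 2 ^ (m * X + min (m * X) j) + Kc k C₁ / 2 ^ (m * X + min (m * X) j) := by ring
        rw [e2]
        exact add_le_add n1 m1
      · have e : (a ω).g (crn X m (cel X y m ω)) l - (a ω').g (crn X m (cel X y m ω)) l =
            ((a ω).g (crn X m (cel X y m ω)) l - (b ω).g (crn X m (cel X y m ω)) l) -
            ((a ω').g (crn X m (cel X y m ω)) l - (b ω).g (crn X m (cel X y m ω)) l) := by ring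
        rw [e]
        refine (abs_sub _ _).trans ?_
        have e2 : 2 * Kc k C₁ / (2 : ℝ) ^ (min (m * X) j) =
          Kc k C₁ / 2 ^ (min (m * X) j) + Kc k C₁ / 2 ^ (min (m * X) j) := by ring
        rw [e2]
        exact add_le_add (n2 l) (m2 l)
    have c1 : CH p (cel X y m) V = 0 :=
      CH_eq_zero hp0 fun ω ω' hω hω' hh => (two ω ω' hω hω' hh).1
    have c2 : CH p (fun ω => ⌊(2 : ℝ) ^ (m * X + min (m * X) j) *
        (a ω).f (crn X m (cel X y m ω))⌋) V ≤ Real.log (2 * (2 * Kc k C₁ + 1) + 1) := by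
      refine CH_bd1 hp _ V (2 * Kc k C₁ + 1) fun ω ω' hω hω' hh => ?_
      obtain ⟨t1, t2, t3⟩ := two ω ω' hω hω' hh
      refine floor_close ?_
      rw [← t1]
      exact t2
    have c3 : CH p (fun ω l => ⌊(2 : ℝ) ^ (min (m * X) j) *
        (a ω).g (crn X m (cel X y m ω)) l⌋) V ≤ k * Real.log (2 * (2 * Kc k C₁ + 1) + 1) := by
      have := CH_bI hp (fun ω l => ⌊(2 : ℝ) ^ (min (m * X) j) *
        (a ω).g (crn X m (cel X y m ω)) l⌋) V (2 * Kc k C₁ + 1) (by linarith)
        fun ω ω' hω hω' hh l => by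
          obtain ⟨t1, t2, t3⟩ := two ω ω' hω hω' hh
          refine floor_close ?_
          rw [← t1]
          exact t3 l
      rw [Fintype.card_fin] at this
      exact this
    have s1 := CH_subadd hp0 (cel X y m) (fun ω => (⌊(2 : ℝ) ^ (m * X + min (m * X) j) *
      (a ω).f (crn X m (cel X y m ω))⌋, fun l => ⌊(2 : ℝ) ^ (min (m * X) j) *
        (a ω).g (crn X m (cel X y m ω)) l⌋)) V
    have s2 := CH_subadd hp0 (fun ω => ⌊(2 : ℝ) ^ (m * X + min (m * X) j) *
      (a ω).f (crn X m (cel X y m ω))⌋) (fun ω l => ⌊(2 : ℝ) ^ (min (m * X) j) *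
        (a ω).g (crn X m (cel X y m ω)) l⌋) V
    have s3 : CH p (fun ω => rc0 X j y a m ω) V = CH p (fun ω => (cel X y m ω,
      (⌊(2 : ℝ) ^ (m * X + min (m * X) j) * (a ω).f (crn X m (cel X y m ω))⌋,
        fun l => ⌊(2 : ℝ) ^ (min (m * X) j) * (a ω).g (crn X m (cel X y m ω)) l⌋))) V := rfl
    rw [s3]
    linarith
  refine (Finset.sum_le_sum fun i _ => k2 i).trans (le_of_eq ?_)
  rw [Finset.sum_const, Finset.card_univ, Fintype.card_fin, nsmul_eq_mul]
  push_cast
  ring

/-- The digits in the other directions. -/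
theorem hη_le (hp : IsLaw p) {T : Type} (d : Ω → Fin k × (Fin k → ℤ)) (s : ℕ) (V : Ω → T)
    (hd : Det p V d) (h2 : ∀ ω l, |(((d ω).2 l : ℤ) : ℝ)| ≤ 1) :
    CH p (etas X y d s) V ≤ ((k : ℝ) - 1) * (X * Real.log 2) + k * Real.log 9 := by
  classical
  have hp0 := hp.nonneg
  have l9 : 0 ≤ Real.log 9 := Real.log_nonneg (by norm_num)
  have hX : (1 : ℝ) ≤ 2 ^ X := one_le_pow₀ (by norm_num)
  have rng : ∀ ω l, -(2 ^ X : ℝ) - 1 ≤ (etas X y d s ω l : ℝ) ∧
      (etas X y d s ω l : ℝ) ≤ 2 * 2 ^ X := by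
    intro ω l
    by_cases hl : l = (d ω).1
    · unfold etas
      rw [if_pos hl]
      push_cast
      constructor <;> linarith
    · have a0 := xx_nonneg X y s ω l
      have a1 := xx_lt X y s ω l
      have b0 := xx_nonneg X y s ω (d ω).1
      have b1 := xx_lt X y s ω (d ω).1
      have c0 := abs_le.mp (h2 ω l)
      have e1 : -1 ≤ xx X y s ω l - (d ω).2 l * xx X y s ω (d ω).1 := by nlinarith [c0.1, c0.2]
      have e2 : xx X y s ω l - (d ω).2 l * xx X y s ω (d ω).1 ≤ 2 := by nlinarith [c0.1, c0.2]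
      have f1 := Int.floor_le ((2 : ℝ) ^ X * (xx X y s ω l - (d ω).2 l * xx X y s ω (d ω).1))
      have f2 := Int.lt_floor_add_one
        ((2 : ℝ) ^ X * (xx X y s ω l - (d ω).2 l * xx X y s ω (d ω).1))
      have g1 := mul_le_mul_of_nonneg_left e1 (show (0 : ℝ) ≤ 2 ^ X by positivity)
      have g2 := mul_le_mul_of_nonneg_left e2 (show (0 : ℝ) ≤ 2 ^ X by positivity)
      unfold etas
      rw [if_neg hl]
      constructor <;> linarith
  have one : ∀ l, CH p (fun ω => etas X y d s ω l) V ≤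
      Ex p (fun ω => if l = (d ω).1 then 0 else X * Real.log 2 + Real.log 9) := by
    intro l
    refine (CH_le_int hp0 hp.sum_one (fun ω => etas X y d s ω l) V
      (fun ω => if l = (d ω).1 then 0 else 3 * 2 ^ X + 1) ?_).trans ?_
    · intro ω ω' hω hω' hh
      have hdd := hd ω ω' hω hω' hh
      by_cases hl : l = (d ω).1
      · rw [if_pos hl]
        unfold etas
        rw [if_pos hl, if_pos (by rw [← hdd]; exact hl)]
        simp
      · rw [if_neg hl]
        obtain ⟨r1, r2⟩ := rng ω l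
        obtain ⟨r3, r4⟩ := rng ω' l
        push_cast
        rw [abs_le]
        constructor <;> linarith
    · refine Ex_mono hp0 fun ω _ => ?_
      by_cases hl : l = (d ω).1
      · rw [if_pos hl, if_pos hl]
        simp
      · rw [if_neg hl, if_neg hl]
        have h1 : 2 * (3 * (2 : ℝ) ^ X + 1) + 1 ≤ 2 ^ X * 9 := by linarith
        refine (Real.log_le_log (by positivity) h1).trans ?_
        rw [Real.log_mul (by positivity) (by positivity), Real.log_pow]
  refine (CH_pi hp0 _ V).trans ((Finset.sum_le_sum fun l _ => one l).trans ?_)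
  have e1 : ∑ l : Fin k, Ex p (fun ω => if l = (d ω).1 then 0 else X * Real.log 2 + Real.log 9) =
      Ex p (fun ω => ∑ l : Fin k, if l = (d ω).1 then 0 else X * Real.log 2 + Real.log 9) := by
    unfold Ex
    rw [Finset.sum_comm]
    refine Finset.sum_congr rfl fun ω _ => ?_
    rw [Finset.mul_sum]
  have e2 : ∀ ω, ∑ l : Fin k, (if l = (d ω).1 then 0 else X * Real.log 2 + Real.log 9) =
      ((k : ℝ) - 1) * (X * Real.log 2 + Real.log 9) := by
    intro ω
    have e3 : ∀ l : Fin k, (if l = (d ω).1 then 0 else X * Real.log 2 + Real.log 9) =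
        (X * Real.log 2 + Real.log 9) - (if l = (d ω).1 then X * Real.log 2 + Real.log 9 else 0) := by
      intro l
      split_ifs <;> ring
    rw [Finset.sum_congr rfl fun l _ => e3 l, Finset.sum_sub_distrib, Finset.sum_const,
      Finset.card_univ, Fintype.card_fin, nsmul_eq_mul, Finset.sum_ite_eq', if_pos (Finset.mem_univ _)]
    ring
  rw [e1]
  have e4 : Ex p (fun ω => ∑ l : Fin k, if l = (d ω).1 then 0 else X * Real.log 2 + Real.log 9) =
      ((k : ℝ) - 1) * (X * Real.log 2 + Real.log 9) := by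
    rw [show (fun ω => ∑ l : Fin k, if l = (d ω).1 then 0 else X * Real.log 2 + Real.log 9) =
      fun _ => ((k : ℝ) - 1) * (X * Real.log 2 + Real.log 9) from funext e2, Ex_const hp.sum_one]
  rw [e4]
  linarith

/-- The cell of the next depth, given the digits. -/
theorem next_le (hp : IsLaw p) {T : Type} (d : Ω → Fin k × (Fin k → ℤ)) (s : ℕ) (V : Ω → T)
    (hd : Det p V d) (hc : Det p V (cel X y s)) (h2 : ∀ ω l, |(((d ω).2 l : ℤ) : ℝ)| ≤ 1) :
    CH p (cel X y (s + 1)) (fun ω => ((etas X y d s ω, zets X y d s ω), V ω)) ≤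
      k * Real.log 9 := by
  have := CH_bI hp (cel X y (s + 1)) (fun ω => ((etas X y d s ω, zets X y d s ω), V ω)) (2 + 1)
    (by norm_num) fun ω ω' hω hω' hh l => by
      simp only [Prod.mk.injEq] at hh
      obtain ⟨⟨h3, h4⟩, h5⟩ := hh
      exact cel_next (hc ω ω' hω hω' h5) l
        (eta_same (h2 ω) (hd ω ω' hω hω' h5) h3 h4 l)
  rw [Fintype.card_fin] at this
  refine this.trans ?_
  refine mul_le_mul_of_nonneg_left (Real.log_le_log (by norm_num) (by norm_num))
    (Nat.cast_nonneg k)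

end Pool.XBG
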