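import Pool.Agent.H81.XBG.Chn

/-!
# Curved leaves over a base: the next record and the digits
-/

set_option autoImplicit false

namespace Pool.XBG

open Finset Real Pool.XF Pool.LU
open Pool.Agent.H49.Ent Pool.Agent.H32.Dense Pool.STK Pool.KA Pool.KSAT Pool.K2S Pool.PC

variable {Ω α β τ : Type} [Fintype Ω] {p : Ω → ℝ} {k : ℕ} {C₁ : ℝ} {X S j D : ℕ}
  {A : Ω → α} {B : Ω → β} {W : Ω → τ} {y : Ω → Fin k → ℝ} {a b : Ω → Lf k C₁}

theorem dirs_one {dd : Ω → Fin k × (Fin k → ℤ)} {i1 : Ω → Fin k} {s : ℕ} {ω : Ω}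
    (h1 : (dd ω).2 (dd ω).1 = 1) : (dirs X j dd i1 s ω).2 (dirs X j dd i1 s ω).1 = 1 := by
  unfold dirs
  split_ifs
  · simp
  · exact h1

theorem dirs_bd {dd : Ω → Fin k × (Fin k → ℤ)} {i1 : Ω → Fin k} {s : ℕ} {ω : Ω}
    (h2 : ∀ l, |(((dd ω).2 l : ℤ) : ℝ)| ≤ 1) (l : Fin k) :
    |(((dirs X j dd i1 s ω).2 l : ℤ) : ℝ)| ≤ 1 := by
  unfold dirs
  split_ifs
  · dsimp only
    split_ifs <;> simp
  · exact h2 l

theorem dirs_same {dd : Ω → Fin k × (Fin k → ℤ)} {i1 : Ω → Fin k} {s : ℕ} {ω ω' : Ω}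
    (h1 : dd ω = dd ω') (h2 : i1 ω = i1 ω') : dirs X j dd i1 s ω = dirs X j dd i1 s ω' := by
  unfold dirs
  rw [h1, h2]

/-- The slope of the second leaf at the point, given the record of the next depth. -/
theorem Dat.slope (h : Dat p X S j D A B W y a b) {s : ℕ} (hs : s < S) (h0 : ordr X j s = 1)
    {ω ω' : Ω} (hω : 0 < p ω) (hω' : 0 < p ω')
    (hr : rc0 X j y a (s + 1) ω = rc0 X j y a (s + 1) ω') (i : Fin k) :
    |(b ω).g (y ω) i - (b ω').g (y ω') i| ≤ K5 k C₁ / 2 ^ j := by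
  have g1 := ordr_one h0
  obtain ⟨c1, c2, c3⟩ := h.corner hs hω hω' hr
  have hsX' : (s + 1) * X = s * X + X := by ring
  have hmin : min ((s + 1) * X) j = j := min_eq_right (by omega)
  rw [hmin] at c3
  obtain ⟨Yc, hYc⟩ : ∃ Yc, Yc = crn X (s + 1) (cel X y (s + 1) ω) := ⟨_, rfl⟩
  have hYcb : ∀ i, |Yc i| ≤ 3 := fun i => by rw [hYc]; exact h.cbox (s + 1) ω i
  have n1 : ∀ i, |Yc i - y ω i| ≤ 1 / 2 ^ ((s + 1) * X) := fun i => by
    rw [hYc]
    exact crn_near X y (s + 1) ω i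
  have n2 : ∀ i, |Yc i - y ω' i| ≤ 1 / 2 ^ ((s + 1) * X) := fun i => by
    rw [hYc, c1]
    exact crn_near X y (s + 1) ω' i
  rw [← hYc] at c3
  have D1 : (1 : ℝ) / 2 ^ ((s + 1) * X) ≤ 1 := by
    have := pow_le_of (Nat.zero_le ((s + 1) * X))
    simpa using this
  have m1 := grad_move h.C1 (b ω) (h.ybox ω) hYcb (by positivity) D1 n1 i
  have m2 := grad_move h.C1 (b ω') (h.ybox ω') hYcb (by positivity) D1 n2 i
  have m3 := c3 i
  have m4 : (1 : ℝ) / 2 ^ ((s + 1) * X) ≤ 1 / 2 ^ j := pow_le_of (by omega)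
  have hC0 : (0 : ℝ) ≤ (k + 1) * C₁ := mul_nonneg (by positivity) (by linarith [h.C1])
  have m5 := mul_le_mul_of_nonneg_left m4 hC0
  have e : (b ω).g (y ω) i - (b ω').g (y ω') i = ((b ω).g Yc i - (b ω').g Yc i) -
      ((b ω).g Yc i - (b ω).g (y ω) i) + ((b ω').g Yc i - (b ω').g (y ω') i) := by ring
  rw [e]
  refine (abs_add_le _ _).trans ?_
  have g2 := abs_sub ((b ω).g Yc i - (b ω').g Yc i) ((b ω).g Yc i - (b ω).g (y ω) i)
  have e2 : K5 k C₁ / (2 : ℝ) ^ j = (2 * Kc k C₁ + 1) / 2 ^ j + (k + 1) * C₁ * (1 / 2 ^ j) +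
      (k + 1) * C₁ * (1 / 2 ^ j) := by
    unfold K5
    ring
  rw [e2]
  linarith

/-- The jets of the second leaf, order two. -/
theorem Dat.jet2 (h : Dat p X S j D A B W y a b) {dd : Ω → Fin k × (Fin k → ℤ)} {i1 : Ω → Fin k}
    (h1 : ∀ ω, (dd ω).2 (dd ω).1 = 1) (h2 : ∀ ω l, |(((dd ω).2 l : ℤ) : ℝ)| ≤ 1) {s : ℕ}
    (hs : s < S) (h0 : ordr X j s = 2) {ω ω' : Ω} (hω : 0 < p ω) (hω' : 0 < p ω')
    (hr : rc0 X j y a (s + 1) ω = rc0 X j y a (s + 1) ω')
    (hG : gam X j y a b dd i1 ω = gam X j y a b dd i1 ω')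
    (he : etas X y (dirs X j dd i1 s) s ω = etas X y (dirs X j dd i1 s) s ω') (i : ℕ) :
    |((jet X j s (b ω) (pnt X s (cel X y s ω) (etas X y (dirs X j dd i1 s) s ω))
        (dirs X j dd i1 s ω).2 i -
      jet X j s (b ω') (pnt X s (cel X y s ω') (etas X y (dirs X j dd i1 s) s ω'))
        (dirs X j dd i1 s ω').2 i : ℤ) : ℝ)| ≤ (k + 1) * Ko k C₁ + 1 := by
  obtain ⟨q1, q2, q3, q4, q5, q6⟩ := gam_ext hG
  have hcs : cel X y s ω = cel X y s ω' := by
    unfold rc0 at hr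
    simp only [Prod.mk.injEq] at hr
    exact cel_crs (Nat.le_succ s) hr.1
  have hds := dirs_same (X := X) (j := j) (s := s) q5 q6
  have hKo := Ko_nonneg (k := k) h.C1
  have hk : (0 : ℝ) ≤ k := Nat.cast_nonneg k
  obtain ⟨o1, o2⟩ := h.out2 (d := dirs X j dd i1 s) hs h0 hω hω' hr (dirs_one (h1 ω))
    (dirs_bd (h2 ω)) q1
  rw [← hcs, ← he, ← hds]
  obtain ⟨Y, hY⟩ : ∃ Y, Y = pnt X s (cel X y s ω) (etas X y (dirs X j dd i1 s) s ω) := ⟨_, rfl⟩
  rw [← hY] at o1 o2 ⊢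
  unfold jet
  rw [if_pos h0, if_pos h0]
  split_ifs with hi
  · refine (floor_close o1).trans ?_
    nlinarith
  · refine (floor_close (c := k * Ko k C₁) ?_).trans ?_
    · have e : dt (fun l => (((dirs X j dd i1 s ω).2 l : ℤ) : ℝ)) ((b ω).g Y) -
          dt (fun l => (((dirs X j dd i1 s ω).2 l : ℤ) : ℝ)) ((b ω').g Y) =
          dt (fun l => (((dirs X j dd i1 s ω).2 l : ℤ) : ℝ))
            (fun l => (b ω).g Y l - (b ω').g Y l) := by
        rw [dt_sub]
      rw [e]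
      refine (dt_le (dirs_bd (h2 ω)) o2).trans (le_of_eq ?_)
      ring
    · linarith

/-- The jets of the second leaf, order one. -/
theorem Dat.jet1 (h : Dat p X S j D A B W y a b) {dd : Ω → Fin k × (Fin k → ℤ)} {i1 : Ω → Fin k}
    (h1 : ∀ ω, (dd ω).2 (dd ω).1 = 1) (h2 : ∀ ω l, |(((dd ω).2 l : ℤ) : ℝ)| ≤ 1) {s : ℕ}
    (hs : s < S) (h0 : ordr X j s = 1) {ω ω' : Ω} (hω : 0 < p ω) (hω' : 0 < p ω')
    (hr : rc0 X j y a (s + 1) ω = rc0 X j y a (s + 1) ω')
    (hG : gam X j y a b dd i1 ω = gam X j y a b dd i1 ω')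
    (he : etas X y (dirs X j dd i1 s) s ω = etas X y (dirs X j dd i1 s) s ω')
    (hg : ∀ i, ⌊(2 : ℝ) ^ (j + X) * (b ω).g (y ω) i⌋ / 2 ^ X =
      ⌊(2 : ℝ) ^ (j + X) * (b ω').g (y ω') i⌋ / 2 ^ X) (i : ℕ) :
    |((jet X j s (b ω) (pnt X s (cel X y s ω) (etas X y (dirs X j dd i1 s) s ω))
        (dirs X j dd i1 s ω).2 i -
      jet X j s (b ω') (pnt X s (cel X y s ω') (etas X y (dirs X j dd i1 s) s ω'))
        (dirs X j dd i1 s ω').2 i : ℤ) : ℝ)| ≤ (k + 1) * Ko k C₁ + 1 := by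
  obtain ⟨q1, q2, q3, q4, q5, q6⟩ := gam_ext hG
  have hcs : cel X y s ω = cel X y s ω' := by
    unfold rc0 at hr
    simp only [Prod.mk.injEq] at hr
    exact cel_crs (Nat.le_succ s) hr.1
  have hds := dirs_same (X := X) (j := j) (s := s) q5 q6
  have hKo := Ko_nonneg (k := k) h.C1
  have hk : (0 : ℝ) ≤ k := Nat.cast_nonneg k
  have hg2 : ∀ i, ⌊(2 : ℝ) ^ (j + X) * (b ω).g (y ω) i⌋ =
      ⌊(2 : ℝ) ^ (j + X) * (b ω').g (y ω') i⌋ := by
    intro i
    have e1 := Int.mul_ediv_add_emod ⌊(2 : ℝ) ^ (j + X) * (b ω).g (y ω) i⌋ (2 ^ X)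
    have e2 := Int.mul_ediv_add_emod ⌊(2 : ℝ) ^ (j + X) * (b ω').g (y ω') i⌋ (2 ^ X)
    rw [← e1, ← e2, hg i, q2 i]
  have o1 := h.out1 (d := dirs X j dd i1 s) hs h0 hω hω' hr (dirs_one (h1 ω))
    (dirs_bd (h2 ω)) hg2
  rw [← hcs, ← he, ← hds]
  obtain ⟨Y, hY⟩ : ∃ Y, Y = pnt X s (cel X y s ω) (etas X y (dirs X j dd i1 s) s ω) := ⟨_, rfl⟩
  rw [← hY] at o1 ⊢
  unfold jet
  rw [if_neg (by omega), if_neg (by omega)]
  refine (floor_close o1).trans ?_
  nlinarith

/-- **The next record and the digits.** -/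
theorem Dat.out (h : Dat p X S j D A B W y a b) (hp : IsLaw p)
    {dd : Ω → Fin k × (Fin k → ℤ)} {i1 : Ω → Fin k}
    (h1 : ∀ ω, (dd ω).2 (dd ω).1 = 1) (h2 : ∀ ω l, |(((dd ω).2 l : ℤ) : ℝ)| ≤ 1) {s : ℕ}
    (hs : s < S) :
    CH p (fun ω => (etas X y (dirs X j dd i1 s) s ω, zets X y (dirs X j dd i1 s) s ω,
        fun i : Fin (ordr X j s) => jet X j s (b ω)
          (pnt X s (cel X y s ω) (etas X y (dirs X j dd i1 s) s ω)) (dirs X j dd i1 s ω).2 i))
      (fun ω => (rcd X j y a (s + 1) ω, (rcd X j y a s ω, (W ω, gam X j y a b dd i1 ω)))) ≤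
      Cb k C₁ := by
  have hp0 := hp.nonneg
  obtain ⟨b0, b1, b2, b3⟩ := Cb_nonneg (k := k) h.C1
  have hk : (0 : ℝ) ≤ k := Nat.cast_nonneg k
  obtain ⟨U, hU⟩ : ∃ U, U = (fun ω => (rcd X j y a (s + 1) ω,
    (rcd X j y a s ω, (W ω, gam X j y a b dd i1 ω)))) := ⟨_, rfl⟩
  rw [← hU]
  obtain ⟨e, he⟩ : ∃ e, e = etas X y (dirs X j dd i1 s) s := ⟨_, rfl⟩
  obtain ⟨z, hz⟩ : ∃ z, z = zets X y (dirs X j dd i1 s) s := ⟨_, rfl⟩
  obtain ⟨M, hM⟩ : ∃ M : Ω → Fin (ordr X j s) → ℤ, M = fun ω (i : Fin (ordr X j s)) =>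
    jet X j s (b ω) (pnt X s (cel X y s ω) (etas X y (dirs X j dd i1 s) s ω))
      (dirs X j dd i1 s ω).2 i := ⟨_, rfl⟩
  have dU : ∀ ω ω', U ω = U ω' → rc0 X j y a (s + 1) ω = rc0 X j y a (s + 1) ω' ∧
      gam X j y a b dd i1 ω = gam X j y a b dd i1 ω' := by
    intro ω ω' hh
    rw [hU] at hh
    simp only [Prod.mk.injEq] at hh
    exact ⟨rcd_eq hh.1 le_rfl, hh.2.2.2⟩
  have dC : ∀ ω ω', U ω = U ω' → cel X y (s + 1) ω = cel X y (s + 1) ω' := by
    intro ω ω' hh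
    have := (dU ω ω' hh).1
    unfold rc0 at this
    simp only [Prod.mk.injEq] at this
    exact this.1
  have dD : ∀ ω ω', U ω = U ω' → dirs X j dd i1 s ω = dirs X j dd i1 s ω' := by
    intro ω ω' hh
    obtain ⟨q1, q2, q3, q4, q5, q6⟩ := gam_ext (dU ω ω' hh).2
    exact dirs_same q5 q6
  -- the digits of the other coordinates
  have c1 : CH p e U ≤ k * Real.log 9 := by
    have := CH_bI hp e U (2 + 1) (by norm_num) fun ω ω' hω hω' hh l => by
      have hd := dD ω ω' hh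
      have hc := dC ω ω' hh
      rw [he]
      unfold etas
      rw [← hd]
      by_cases hl : l = (dirs X j dd i1 s ω).1
      · rw [if_pos hl, if_pos hl]
        norm_num
      · rw [if_neg hl, if_neg hl]
        refine floor_close ?_
        have g1 := cel_xx (X := X) (y := y) hc l
        have g2 := cel_xx (X := X) (y := y) hc (dirs X j dd i1 s ω).1
        have e1 : (xx X y s ω l - (dirs X j dd i1 s ω).2 l * xx X y s ω (dirs X j dd i1 s ω).1) -
            (xx X y s ω' l - (dirs X j dd i1 s ω).2 l * xx X y s ω' (dirs X j dd i1 s ω).1) =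
            (xx X y s ω l - xx X y s ω' l) - (dirs X j dd i1 s ω).2 l *
              (xx X y s ω (dirs X j dd i1 s ω).1 - xx X y s ω' (dirs X j dd i1 s ω).1) := by ring
        rw [e1]
        refine (abs_sub _ _).trans ?_
        have g3 := abs_mul_le (dirs_bd (X := X) (j := j) (i1 := i1) (s := s) (h2 ω) l) g2
        have e2 : (2 : ℝ) / 2 ^ X = 1 / 2 ^ X + 1 * (1 / 2 ^ X) := by ring
        rw [e2]
        linarith
    rw [Fintype.card_fin] at this
    refine this.trans ?_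
    exact mul_le_mul_of_nonneg_left (Real.log_le_log (by norm_num) (by norm_num)) hk
  -- the digit in the direction
  have c2 : CH p z (fun ω => (e ω, U ω)) ≤ Real.log 5 := by
    have g0 : CH p z (fun ω => (e ω, U ω)) ≤ CH p (fun ω => ((z ω : ℕ) : ℤ))
        (fun ω => (e ω, U ω)) :=
      CH_mono_left hp0 fun ω ω' _ _ hh => Nat.cast_injective (R := ℤ) (Prod.ext_iff.mp hh).1
    refine g0.trans ?_
    have := CH_bd1 hp (fun ω => ((z ω : ℕ) : ℤ)) (fun ω => (e ω, U ω)) 2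
      fun ω ω' hω hω' hh => by
        have hh2 := (Prod.ext_iff.mp hh).2
        have hd := dD ω ω' hh2
        have hc := dC ω ω' hh2
        have g2 := cel_xx (X := X) (y := y) hc (dirs X j dd i1 s ω).1
        obtain ⟨f1, f2⟩ := zets_cast X y (dirs X j dd i1 s) s ω
        obtain ⟨f3, f4⟩ := zets_cast X y (dirs X j dd i1 s) s ω'
        rw [← hd] at f3 f4
        rw [← hz] at f1 f2 f3 f4
        have hX : (0 : ℝ) < 2 ^ X := by positivity
        have g3 : |2 ^ X * xx X y s ω (dirs X j dd i1 s ω).1 -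
            2 ^ X * xx X y s ω' (dirs X j dd i1 s ω).1| ≤ 1 := by
          rw [← mul_sub, abs_mul, abs_of_pos hX]
          have := mul_le_mul_of_nonneg_left g2 hX.le
          refine this.trans (le_of_eq ?_)
          field_simp
        rw [abs_le] at g3
        push_cast
        rw [abs_le]
        constructor <;> linarith [g3.1, g3.2]
    refine this.trans (le_of_eq ?_)
    norm_num
  -- the jets
  have c3 : CH p M (fun ω => ((e ω, z ω), U ω)) ≤ k * Real.log (2 * (K5 k C₁ + 2) + 1) +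
      2 * Real.log (2 * ((k + 1) * Ko k C₁ + 1) + 1) := by
    have hKo := Ko_nonneg (k := k) h.C1
    rcases (show ordr X j s = 0 ∨ ordr X j s = 1 ∨ ordr X j s = 2 by
      have := ordr_le X j s; omega) with h0 | h0 | h0
    · have : CH p M (fun ω => ((e ω, z ω), U ω)) = 0 :=
        CH_eq_zero hp0 fun ω ω' _ _ _ => by
          funext i
          have := i.2
          omega
      rw [this]
      positivity
    · obtain ⟨κ, hκ⟩ : ∃ κ : Ω → Fin k → ℤ, κ = fun ω i =>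
        ⌊(2 : ℝ) ^ (j + X) * (b ω).g (y ω) i⌋ / 2 ^ X := ⟨_, rfl⟩
      have s1 := CH_le_add hp0 M κ (fun ω => ((e ω, z ω), U ω))
      have s2 : CH p κ (fun ω => ((e ω, z ω), U ω)) ≤ k * Real.log (2 * (K5 k C₁ + 2) + 1) := by
        have := CH_bI hp κ (fun ω => ((e ω, z ω), U ω)) (K5 k C₁ + 2) (by
          have : 0 ≤ ((k : ℝ) + 1) * C₁ := mul_nonneg (by positivity) (by linarith [h.C1])
          have h3 := (Kc_ge (k := k) h.C1).1
          unfold K5
          linarith) fun ω ω' hω hω' hh i => by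
            have hh2 := (Prod.ext_iff.mp hh).2
            obtain ⟨hr, hG⟩ := dU ω ω' hh2
            obtain ⟨q1, q2, q3, q4, q5, q6⟩ := gam_ext hG
            have g1 := h.slope hs h0 hω hω' hr i
            obtain ⟨n, hn⟩ : ∃ n, n = ⌊(2 : ℝ) ^ (j + X) * (b ω).g (y ω) i⌋ := ⟨_, rfl⟩
            obtain ⟨n', hn'⟩ : ∃ n, n = ⌊(2 : ℝ) ^ (j + X) * (b ω').g (y ω') i⌋ := ⟨_, rfl⟩
            have hX : (0 : ℝ) < 2 ^ X := by positivity
            have hX1 : (1 : ℝ) ≤ 2 ^ X := one_le_pow₀ (by norm_num)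
            have g2 : |(2 : ℝ) ^ (j + X) * (b ω).g (y ω) i -
                (2 : ℝ) ^ (j + X) * (b ω').g (y ω') i| ≤ K5 k C₁ * 2 ^ X := by
              rw [← mul_sub, abs_mul, abs_of_pos (by positivity)]
              have := mul_le_mul_of_nonneg_left g1 (show (0 : ℝ) ≤ 2 ^ (j + X) by positivity)
              refine this.trans (le_of_eq ?_)
              rw [pow_add]
              field_simp
            have g3 : |((n - n' : ℤ) : ℝ)| ≤ K5 k C₁ * 2 ^ X + 1 := by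
              have g4 := floor_sub_near ((2 : ℝ) ^ (j + X) * (b ω).g (y ω) i)
                ((2 : ℝ) ^ (j + X) * (b ω').g (y ω') i)
              rw [← hn, ← hn'] at g4
              rw [abs_le] at g2 g4 ⊢
              constructor <;> linarith [g2.1, g2.2, g4.1, g4.2]
            have e1 := Int.mul_ediv_add_emod n (2 ^ X)
            have e2 := Int.mul_ediv_add_emod n' (2 ^ X)
            have e3 : n % 2 ^ X = n' % 2 ^ X := by rw [hn, hn']; exact q2 i
            have e4 : n - n' = 2 ^ X * (n / 2 ^ X - n' / 2 ^ X) := by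
              rw [mul_sub]
              omega
            rw [hκ]
            dsimp only
            rw [← hn, ← hn']
            rw [e4] at g3
            push_cast at g3 ⊢
            rw [abs_mul, abs_of_pos hX] at g3
            obtain ⟨q, hq⟩ : ∃ q : ℝ, q = |(((n / 2 ^ X : ℤ) : ℝ)) - ((n' / 2 ^ X : ℤ) : ℝ)| :=
              ⟨_, rfl⟩
            rw [← hq] at g3 ⊢
            by_contra hlt
            push Not at hlt
            nlinarith
        rw [Fintype.card_fin] at this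
        exact this
      have s3 : CH p M (fun ω => (κ ω, ((e ω, z ω), U ω))) ≤
          2 * Real.log (2 * ((k + 1) * Ko k C₁ + 1) + 1) := by
        have := CH_bI hp M (fun ω => (κ ω, ((e ω, z ω), U ω))) ((k + 1) * Ko k C₁ + 1)
          (by positivity) fun ω ω' hω hω' hh i => by
            simp only [Prod.mk.injEq] at hh
            obtain ⟨hk1, ⟨he1, hz1⟩, hU1⟩ := hh
            obtain ⟨hr, hG⟩ := dU ω ω' hU1
            rw [he] at he1
            rw [hκ] at hk1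
            rw [hM]
            exact h.jet1 h1 h2 hs h0 hω hω' hr hG he1 (fun i => congrFun hk1 i) i
        rw [Fintype.card_fin, show ((ordr X j s : ℕ) : ℝ) = 1 by rw [h0]; norm_num] at this
        linarith
      linarith
    · have := CH_bI hp M (fun ω => ((e ω, z ω), U ω)) ((k + 1) * Ko k C₁ + 1)
          (by positivity) fun ω ω' hω hω' hh i => by
            simp only [Prod.mk.injEq] at hh
            obtain ⟨⟨he1, hz1⟩, hU1⟩ := hh
            obtain ⟨hr, hG⟩ := dU ω ω' hU1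
            rw [he] at he1
            rw [hM]
            exact h.jet2 h1 h2 hs h0 hω hω' hr hG he1 i
      rw [Fintype.card_fin, show ((ordr X j s : ℕ) : ℝ) = 2 by rw [h0]; norm_num] at this
      have : 0 ≤ k * Real.log (2 * (K5 k C₁ + 2) + 1) := by positivity
      linarith
  -- together
  have t1 : CH p (fun ω => (e ω, z ω, M ω)) U ≤ CH p (fun ω => (M ω, (e ω, z ω))) U := by
    refine CH_mono_left hp0 fun ω ω' _ _ hh => ?_
    simp only [Prod.mk.injEq] at hh ⊢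
    exact ⟨hh.1.2.1, hh.1.2.2, hh.1.1⟩
  have t2 := CH_chain hp0 M (fun ω => (e ω, z ω)) U
  have t3 : CH p (fun ω => (e ω, z ω)) U ≤ CH p (fun ω => (z ω, e ω)) U := by
    refine CH_mono_left hp0 fun ω ω' _ _ hh => ?_
    simp only [Prod.mk.injEq] at hh ⊢
    exact ⟨hh.1.2, hh.1.1⟩
  have t4 := CH_chain hp0 z e U
  have goal : CH p (fun ω => (e ω, z ω, M ω)) U ≤ Cb k C₁ := by
    have : 0 ≤ ((k : ℝ) + 1) * Real.log (2 * (2 * Kc k C₁ + 1) + 1) := by positivity
    unfold Cb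
    linarith
  rw [he, hz, hM] at goal
  exact goal

end Pool.XBG
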