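import Pool.Agent.H81.XBG.Def

/-!
# Curved leaves over a base: the pointwise estimates
-/

set_option autoImplicit false

namespace Pool.XBG

open Finset Real Pool.XF Pool.LU
open Pool.Agent.H49.Ent Pool.Agent.H32.Dense Pool.STK Pool.KA Pool.KSAT Pool.K2S Pool.PC

/-- Two leaves through the point of the line, with the precisions `D` of the height and `j` of the
slope. -/
structure Dat {Ω α β τ : Type} [Fintype Ω] (p : Ω → ℝ) {k : ℕ} {C₁ : ℝ} (X S j D : ℕ)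
    (A : Ω → α) (B : Ω → β) (W : Ω → τ) (y : Ω → Fin k → ℝ) (a b : Ω → Lf k C₁) : Prop where
  C1 : 1 ≤ C₁
  y0 : ∀ ω i, 0 ≤ y ω i
  y2 : ∀ ω i, y ω i < 2
  da : Det p (fun ω => (A ω, W ω)) a
  db : Det p (fun ω => (B ω, W ω)) b
  d0 : ∀ ω, 0 < p ω → |(a ω).f (y ω) - (b ω).f (y ω)| ≤ 1 / 2 ^ D
  d1 : ∀ ω, 0 < p ω → ∀ i, |(a ω).g (y ω) i - (b ω).g (y ω) i| ≤ 1 / 2 ^ j
  hS : S * X + min (S * X) j ≤ D
  hX : 2 ≤ X

variable {Ω α β τ : Type} [Fintype Ω] {p : Ω → ℝ} {k : ℕ} {C₁ : ℝ} {X S j D : ℕ}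
  {A : Ω → α} {B : Ω → β} {W : Ω → τ} {y : Ω → Fin k → ℝ} {a b : Ω → Lf k C₁}

theorem Kc_ge {k : ℕ} {C₁ : ℝ} (hC : 1 ≤ C₁) : 1 ≤ Kc k C₁ ∧ (k : ℝ) ≤ Kc k C₁ := by
  have hk : (0 : ℝ) ≤ k := Nat.cast_nonneg k
  unfold Kc
  constructor <;> nlinarith [mul_nonneg hk hk, mul_nonneg hk (by linarith : (0 : ℝ) ≤ C₁)]

theorem pow_le_of {m n : ℕ} (h : m ≤ n) : (1 : ℝ) / 2 ^ n ≤ 1 / 2 ^ m :=
  one_div_le_one_div_of_le (by positivity) (pow_le_pow_right₀ (by norm_num) h)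

theorem hp_mul (m n : ℕ) : (1 : ℝ) / 2 ^ m * (1 / 2 ^ n) = 1 / 2 ^ (m + n) := by
  rw [pow_add]
  field_simp

theorem floor_sub_near (u v : ℝ) : |(((⌊u⌋ - ⌊v⌋ : ℤ) : ℝ)) - (u - v)| ≤ 1 := by
  have h1 := Int.floor_le u
  have h2 := Int.lt_floor_add_one u
  have h3 := Int.floor_le v
  have h4 := Int.lt_floor_add_one v
  push_cast
  rw [abs_le]
  constructor <;> linarith

theorem Dat.ybox (h : Dat p X S j D A B W y a b) (ω : Ω) (i : Fin k) : |y ω i| ≤ 3 := by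
  rw [abs_of_nonneg (h.y0 ω i)]
  linarith [h.y2 ω i]

theorem Dat.cbox (h : Dat p X S j D A B W y a b) (s : ℕ) (ω : Ω) (i : Fin k) :
    |crn X s (cel X y s ω) i| ≤ 3 := by
  have h1 := crn_near X y s ω i
  have h2 : (1 : ℝ) / 2 ^ (s * X) ≤ 1 := by
    have := pow_le_of (Nat.zero_le (s * X))
    simpa using this
  have e : crn X s (cel X y s ω) i = (crn X s (cel X y s ω) i - y ω i) + y ω i := by ring
  rw [e]
  refine (abs_add_le _ _).trans ?_
  have h3 : |y ω i| ≤ 2 := by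
    rw [abs_of_nonneg (h.y0 ω i)]
    exact (h.y2 ω i).le
  linarith

/-- The two leaves at a corner. -/
theorem Dat.near (h : Dat p X S j D A B W y a b) {ω : Ω} (hω : 0 < p ω) {i : ℕ} (hi : i ≤ S) :
    |(a ω).f (crn X i (cel X y i ω)) - (b ω).f (crn X i (cel X y i ω))| ≤
      Kc k C₁ / 2 ^ (i * X + min (i * X) j) ∧
    ∀ l, |(a ω).g (crn X i (cel X y i ω)) l - (b ω).g (crn X i (cel X y i ω)) l| ≤
      Kc k C₁ / 2 ^ (min (i * X) j) := by
  have hiX : i * X ≤ S * X := Nat.mul_le_mul_right X hi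
  have h1 : (1 : ℝ) / 2 ^ (i * X) ≤ 1 := by
    have := pow_le_of (Nat.zero_le (i * X))
    simpa using this
  obtain ⟨g1, g2⟩ := near_f h.C1 (a ω) (b ω) (h.ybox ω) (h.cbox i ω) (h := 1 / 2 ^ (i * X))
    (κ := 1 / 2 ^ j) (m := 1 / 2 ^ (min (i * X) j)) h1 (crn_near X y i ω) (by positivity)
    (by positivity) (pow_le_of (min_le_left _ _)) (pow_le_of (min_le_right _ _))
    ((h.d0 ω hω).trans (by
      rw [hp_mul]
      refine pow_le_of ?_
      have := h.hS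
      omega)) (h.d1 ω hω)
  rw [hp_mul] at g1
  refine ⟨g1.trans (le_of_eq (by ring)), fun l => (g2 l).trans (le_of_eq (by ring))⟩

/-- The point of comparison is near the point. -/
theorem pnt_near {d : Ω → Fin k × (Fin k → ℤ)} {s : ℕ} {ω : Ω}
    (h1 : (d ω).2 (d ω).1 = 1) (h2 : ∀ l, |(((d ω).2 l : ℤ) : ℝ)| ≤ 1) (l : Fin k) :
    |pnt X s (cel X y s ω) (etas X y d s ω) l - y ω l| ≤ 3 * (1 / 2 ^ (s * X)) := by
  obtain ⟨ρ, hρ, he⟩ := pnt_sub (X := X) (y := y) (s := s) h1 h2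
  have hX1 : (1 : ℝ) / 2 ^ X ≤ 1 := by
    have := pow_le_of (Nat.zero_le X)
    simpa using this
  have hz0 : (0 : ℝ) ≤ ((zets X y d s ω : ℕ) : ℝ) / 2 ^ X := by positivity
  have hz1 : ((zets X y d s ω : ℕ) : ℝ) / 2 ^ X ≤ 1 := by
    rw [div_le_one (by positivity)]
    exact_mod_cast zets_le X y d s ω
  exact blk_pt (e := fun l => ((d ω).2 l : ℝ)) (by positivity) hz0 hz1 hX1 h2 hρ he l

theorem Dat.pbox (h : Dat p X S j D A B W y a b) {d : Ω → Fin k × (Fin k → ℤ)} {s : ℕ} {ω : Ω}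
    (hs : 1 ≤ s) (h1 : (d ω).2 (d ω).1 = 1) (h2 : ∀ l, |(((d ω).2 l : ℤ) : ℝ)| ≤ 1) (l : Fin k) :
    |pnt X s (cel X y s ω) (etas X y d s ω) l| ≤ 3 := by
  have g1 := pnt_near (X := X) (y := y) (s := s) h1 h2 l
  have g2 : (1 : ℝ) / 2 ^ (s * X) ≤ 1 / 2 ^ 2 := by
    refine pow_le_of ?_
    have := Nat.mul_le_mul hs h.hX
    omega
  have e : pnt X s (cel X y s ω) (etas X y d s ω) l =
    (pnt X s (cel X y s ω) (etas X y d s ω) l - y ω l) + y ω l := by ring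
  rw [e]
  refine (abs_add_le _ _).trans ?_
  have h3 : |y ω l| ≤ 2 := by
    rw [abs_of_nonneg (h.y0 ω l)]
    exact (h.y2 ω l).le
  have g3 : (1 : ℝ) / 2 ^ 2 = 1 / 4 := by norm_num
  rw [g3] at g2
  linarith

/-- The curvature in the direction. -/
noncomputable def c2f (y : Ω → Fin k → ℝ) (a b : Ω → Lf k C₁) (dd : Ω → Fin k × (Fin k → ℤ))
    (ω : Ω) : ℝ := qf (fun i l => (a ω).h (y ω) i l - (b ω).h (y ω) i l)
      (fun l => ((dd ω).2 l : ℝ)) (fun l => ((dd ω).2 l : ℝ)) / 2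

/-- The difference of the slopes in the direction. -/
noncomputable def c1f (j : ℕ) (y : Ω → Fin k → ℝ) (a b : Ω → Lf k C₁) (i1 : Ω → Fin k) (ω : Ω) :
    ℝ := 2 ^ j * ((a ω).g (y ω) (i1 ω) - (b ω).g (y ω) (i1 ω))

/-- The coefficient at the depth `s`. -/
noncomputable def cfs (X j : ℕ) (y : Ω → Fin k → ℝ) (a b : Ω → Lf k C₁)
    (dd : Ω → Fin k × (Fin k → ℤ)) (i1 : Ω → Fin k) (s : ℕ) (ω : Ω) : ℝ :=
  if ordr X j s = 2 then (⌊(2 : ℝ) ^ X * c2f y a b dd ω⌋ : ℝ) / 2 ^ X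
  else if ordr X j s = 1 then (⌊(2 : ℝ) ^ X * c1f j y a b i1 ω⌋ : ℝ) / 2 ^ X else 1

theorem ordr_two {X j s : ℕ} (h : ordr X j s = 2) : 1 ≤ s ∧ (s + 1) * X ≤ j := by
  by_contra h1
  unfold ordr at h
  rw [if_neg h1] at h
  split_ifs at h <;> omega

theorem ordr_one {X j s : ℕ} (h : ordr X j s = 1) : j + X ≤ s * X := by
  by_contra h1
  unfold ordr at h
  rw [if_neg h1] at h
  split_ifs at h
  omega

theorem fl_round (X : ℕ) (c : ℝ) : |(2 : ℝ) ^ X * ((⌊(2 : ℝ) ^ X * c⌋ : ℝ) / 2 ^ X) - 2 ^ X * c| ≤ 1 := by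
  have h : (2 : ℝ) ^ X ≠ 0 := by positivity
  have e : (2 : ℝ) ^ X * ((⌊(2 : ℝ) ^ X * c⌋ : ℝ) / 2 ^ X) = ⌊(2 : ℝ) ^ X * c⌋ := by field_simp
  rw [e, abs_le]
  constructor <;> linarith [Int.floor_le ((2 : ℝ) ^ X * c), Int.lt_floor_add_one ((2 : ℝ) ^ X * c)]

/-- **The relation of the jets.** -/
theorem Dat.rel (h : Dat p X S j D A B W y a b) {dd : Ω → Fin k × (Fin k → ℤ)} {i1 : Ω → Fin k}
    {s : ℕ} (hs : s < S) {ω : Ω} (hω : 0 < p ω)
    (h1 : (dd ω).2 (dd ω).1 = 1) (h2 : ∀ l, |(((dd ω).2 l : ℤ) : ℝ)| ≤ 1)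
    (i : Fin (ordr X j s)) :
    |((jet X j s (a ω) (pnt X s (cel X y s ω) (etas X y (dirs X j dd i1 s) s ω))
        (dirs X j dd i1 s ω).2 i : ℤ) : ℝ) -
      (jet X j s (b ω) (pnt X s (cel X y s ω) (etas X y (dirs X j dd i1 s) s ω))
        (dirs X j dd i1 s ω).2 i : ℤ) -
      2 ^ X * (cfs X j y a b dd i1 s ω * Pool.XB.vv (ordr X j s)
        ((zets X y (dirs X j dd i1 s) s ω : ℝ) / 2 ^ X) i)| ≤ Kc k C₁ + 3 := by
  have hX1 : (1 : ℝ) / 2 ^ X ≤ 1 := by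
    have := pow_le_of (Nat.zero_le X)
    simpa using this
  obtain ⟨n, hn⟩ : ∃ n : ℕ, n = (i : ℕ) := ⟨_, rfl⟩
  have hn2 : n < ordr X j s := by rw [hn]; exact i.2
  have hD := h.hS
  have hsX : (s + 1) * X ≤ S * X := Nat.mul_le_mul_right X hs
  have hsX' : (s + 1) * X = s * X + X := by ring
  have d1 : (dirs X j dd i1 s ω).2 (dirs X j dd i1 s ω).1 = 1 := by
    unfold dirs
    split_ifs
    · simp
    · exact h1
  have d2 : ∀ l, |(((dirs X j dd i1 s ω).2 l : ℤ) : ℝ)| ≤ 1 := by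
    intro l
    unfold dirs
    split_ifs
    · dsimp only
      split_ifs <;> simp
    · exact h2 l
  obtain ⟨ρ, hρ, he⟩ := pnt_sub (X := X) (y := y) (s := s) d1 d2
  obtain ⟨z, hz⟩ : ∃ z : ℝ, z = ((zets X y (dirs X j dd i1 s) s ω : ℕ) : ℝ) / 2 ^ X := ⟨_, rfl⟩
  have hz0 : 0 ≤ z := by rw [hz]; positivity
  have hz1 : z ≤ 1 := by
    rw [hz, div_le_one (by positivity)]
    exact_mod_cast zets_le X y _ s ω
  rw [← hz] at he ⊢
  obtain ⟨Y, hY⟩ : ∃ Y, Y = pnt X s (cel X y s ω) (etas X y (dirs X j dd i1 s) s ω) := ⟨_, rfl⟩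
  rw [← hY] at he ⊢
  unfold Pool.XB.vv
  rw [← hn]
  have fs := floor_sub_near
  have hKc := (Kc_ge (k := k) h.C1).1
  rcases (show ordr X j s = 0 ∨ ordr X j s = 1 ∨ ordr X j s = 2 by
    have := ordr_le X j s; omega) with h0 | h0 | h0
  · omega
  · -- order one
    have g1 := ordr_one h0
    have hs1 : 1 ≤ s := by
      rcases Nat.eq_zero_or_pos s with h3 | h3
      · rw [h3] at g1
        have := h.hX
        omega
      · exact h3
    have hYb : ∀ l, |Y l| ≤ 3 := fun l => by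
      rw [hY]
      exact h.pbox hs1 d1 d2 l
    have hn0 : n = 0 := by omega
    have key := rel1_f h.C1 (a ω) (b ω) (e := fun l => ((dirs X j dd i1 s ω).2 l : ℝ)) (h.ybox ω)
      hYb (h := 1 / 2 ^ (s * X)) (ε := 1 / 2 ^ X) (κ := 1 / 2 ^ j) (by positivity) hz0 hz1
      (by positivity) hX1 d2 hρ he (by positivity) (by
        have := pow_le_of (Nat.zero_le j)
        simpa using this) (by
        rw [hp_mul]
        exact pow_le_of g1) ((h.d0 ω hω).trans (by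
        rw [hp_mul, hp_mul]
        exact pow_le_of (by omega))) (h.d1 ω hω)
    have e1 : dt (fun i => (a ω).g (y ω) i - (b ω).g (y ω) i)
        (fun l => ((dirs X j dd i1 s ω).2 l : ℝ)) =
        (a ω).g (y ω) (i1 ω) - (b ω).g (y ω) (i1 ω) := by
      unfold dt dirs
      rw [if_pos h0]
      dsimp only
      rw [Finset.sum_eq_single (i1 ω)]
      · simp
      · intro l _ hl
        simp [hl]
      · intro hl
        exact absurd (Finset.mem_univ _) hl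
    rw [e1] at key
    obtain ⟨P, hP⟩ : ∃ P : ℝ, P = 2 ^ (X + j + s * X) := ⟨_, rfl⟩
    have hP0 : 0 < P := by rw [hP]; positivity
    have e2 : (1 : ℝ) / 2 ^ j * (1 / 2 ^ (s * X)) * (1 / 2 ^ X) = 1 / P := by
      rw [hP, hp_mul, hp_mul]
      congr 2
      omega
    rw [e2] at key
    have e3 : P * (1 / 2 ^ (s * X)) = 2 ^ X * 2 ^ j := by
      rw [hP, pow_add, pow_add]
      field_simp
    unfold jet cfs
    rw [if_neg (by omega), if_neg (by omega), if_neg (by omega), if_pos h0, ← hP, hn0]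
    have e4 : (((ordr X j s).choose 0 : ℕ) : ℝ) * (-z) ^ (ordr X j s - 0) = -z := by
      rw [h0]
      simp
    rw [e4]
    have k1 := fs (P * (a ω).f Y) (P * (b ω).f Y)
    have k2 : |P * (a ω).f Y - P * (b ω).f Y + 2 ^ X * (c1f j y a b i1 ω * z)| ≤ Kc k C₁ := by
      have e5 : P * (a ω).f Y - P * (b ω).f Y + 2 ^ X * (c1f j y a b i1 ω * z) =
          P * (((a ω).f Y - (b ω).f Y) + 1 / 2 ^ (s * X) *
            (((a ω).g (y ω) (i1 ω) - (b ω).g (y ω) (i1 ω)) * z)) := by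
        unfold c1f
        linear_combination (-(((a ω).g (y ω) (i1 ω) - (b ω).g (y ω) (i1 ω)) * z)) * e3
      rw [e5, abs_mul, abs_of_pos hP0]
      have := mul_le_mul_of_nonneg_left key hP0.le
      refine this.trans (le_of_eq ?_)
      field_simp
    have k3 := fl_round X (c1f j y a b i1 ω)
    obtain ⟨c, hc⟩ : ∃ c : ℝ, c = (⌊(2 : ℝ) ^ X * c1f j y a b i1 ω⌋ : ℝ) / 2 ^ X := ⟨_, rfl⟩
    rw [← hc] at k3 ⊢
    have k4 : |(2 ^ X * c - 2 ^ X * c1f j y a b i1 ω) * z| ≤ 1 * 1 :=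
      abs_mul_le k3 (by rw [abs_of_nonneg hz0]; exact hz1)
    push_cast at k1
    have e6 : (⌊P * (a ω).f Y⌋ : ℝ) - (⌊P * (b ω).f Y⌋ : ℝ) - 2 ^ X * (c * -z) =
        ((⌊P * (a ω).f Y⌋ : ℝ) - (⌊P * (b ω).f Y⌋ : ℝ) - (P * (a ω).f Y - P * (b ω).f Y)) +
        (P * (a ω).f Y - P * (b ω).f Y + 2 ^ X * (c1f j y a b i1 ω * z)) +
        (2 ^ X * c - 2 ^ X * c1f j y a b i1 ω) * z := by ring
    rw [e6]
    refine (abs_add_le _ _).trans ?_
    have k5 := abs_add_le ((⌊P * (a ω).f Y⌋ : ℝ) - (⌊P * (b ω).f Y⌋ : ℝ) -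
      (P * (a ω).f Y - P * (b ω).f Y))
      (P * (a ω).f Y - P * (b ω).f Y + 2 ^ X * (c1f j y a b i1 ω * z))
    linarith
  · -- order two
    obtain ⟨hs1, g1⟩ := ordr_two h0
    have hYb : ∀ l, |Y l| ≤ 3 := fun l => by
      rw [hY]
      exact h.pbox hs1 d1 d2 l
    have key := rel2_f h.C1 (a ω) (b ω) (e := fun l => ((dirs X j dd i1 s ω).2 l : ℝ)) (h.ybox ω)
      hYb (h := 1 / 2 ^ (s * X)) (ε := 1 / 2 ^ X) (κ := 1 / 2 ^ j) (by positivity) hz0 hz1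
      (by positivity) hX1 d2 hρ he (pow_le_of (by nlinarith)) (by positivity) (by
        rw [hp_mul]
        exact pow_le_of (by omega)) ((h.d0 ω hω).trans (by
        rw [hp_mul, hp_mul]
        exact pow_le_of (by omega))) (h.d1 ω hω)
    have e1 : (dirs X j dd i1 s ω) = dd ω := by
      unfold dirs
      rw [if_neg (by omega)]
    rw [e1] at key ⊢
    have e2 : qf (fun i j => (a ω).h (y ω) i j - (b ω).h (y ω) i j) (fun l => ((dd ω).2 l : ℝ))
        (fun l => ((dd ω).2 l : ℝ)) / 2 = c2f y a b dd ω := rfl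
    rw [e2] at key
    obtain ⟨key1, key2⟩ := key
    have k3 := fl_round X (c2f y a b dd ω)
    obtain ⟨c, hc⟩ : ∃ c : ℝ, c = (⌊(2 : ℝ) ^ X * c2f y a b dd ω⌋ : ℝ) / 2 ^ X := ⟨_, rfl⟩
    rw [← hc] at k3
    have hcf : cfs X j y a b dd i1 s ω = c := by
      unfold cfs
      rw [if_pos h0, hc]
    rw [hcf]
    unfold jet
    rw [if_pos h0, if_pos h0]
    rcases (show n = 0 ∨ n = 1 by omega) with hn0 | hn0
    · rw [hn0, if_pos rfl, if_pos rfl]
      have e4 : (((ordr X j s).choose 0 : ℕ) : ℝ) * (-z) ^ (ordr X j s - 0) = z ^ 2 := by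
        rw [h0]
        simp
      rw [e4]
      obtain ⟨P, hP⟩ : ∃ P : ℝ, P = 2 ^ (X + 2 * (s * X)) := ⟨_, rfl⟩
      have hP0 : 0 < P := by rw [hP]; positivity
      have e5 : (1 : ℝ) / 2 ^ (s * X) * (1 / 2 ^ (s * X)) * (1 / 2 ^ X) = 1 / P := by
        rw [hP, hp_mul, hp_mul]
        congr 2
        omega
      rw [e5] at key1
      have e3 : P * (1 / 2 ^ (s * X) * (1 / 2 ^ (s * X))) = 2 ^ X := by
        rw [hP, hp_mul, pow_add]
        have e6 : s * X + s * X = 2 * (s * X) := by ring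
        rw [e6]
        field_simp
      rw [← hP]
      have k1 := fs (P * (a ω).f Y) (P * (b ω).f Y)
      have k2 : |P * (a ω).f Y - P * (b ω).f Y - 2 ^ X * (c2f y a b dd ω * z ^ 2)| ≤ Kc k C₁ := by
        have e7 : P * (a ω).f Y - P * (b ω).f Y - 2 ^ X * (c2f y a b dd ω * z ^ 2) =
            P * (((a ω).f Y - (b ω).f Y) - 1 / 2 ^ (s * X) * (1 / 2 ^ (s * X)) *
              (c2f y a b dd ω * z ^ 2)) := by
          linear_combination (c2f y a b dd ω * z ^ 2) * e3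
        rw [e7, abs_mul, abs_of_pos hP0]
        have := mul_le_mul_of_nonneg_left key1 hP0.le
        refine this.trans (le_of_eq ?_)
        field_simp
      have k4 : |(2 ^ X * c - 2 ^ X * c2f y a b dd ω) * z ^ 2| ≤ 1 * 1 :=
        abs_mul_le k3 (by rw [abs_of_nonneg (by positivity)]; nlinarith)
      push_cast at k1
      have e6 : (⌊P * (a ω).f Y⌋ : ℝ) - (⌊P * (b ω).f Y⌋ : ℝ) - 2 ^ X * (c * z ^ 2) =
          ((⌊P * (a ω).f Y⌋ : ℝ) - (⌊P * (b ω).f Y⌋ : ℝ) - (P * (a ω).f Y - P * (b ω).f Y)) +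
          (P * (a ω).f Y - P * (b ω).f Y - 2 ^ X * (c2f y a b dd ω * z ^ 2)) -
          (2 ^ X * c - 2 ^ X * c2f y a b dd ω) * z ^ 2 := by ring
      rw [e6]
      refine (abs_sub _ _).trans ?_
      have k5 := abs_add_le ((⌊P * (a ω).f Y⌋ : ℝ) - (⌊P * (b ω).f Y⌋ : ℝ) -
        (P * (a ω).f Y - P * (b ω).f Y))
        (P * (a ω).f Y - P * (b ω).f Y - 2 ^ X * (c2f y a b dd ω * z ^ 2))
      linarith
    · rw [hn0, if_neg (by norm_num), if_neg (by norm_num)]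
      have e4 : (((ordr X j s).choose 1 : ℕ) : ℝ) * (-z) ^ (ordr X j s - 1) = -(2 * z) := by
        rw [h0]
        norm_num
      rw [e4]
      obtain ⟨P, hP⟩ : ∃ P : ℝ, P = 2 ^ (X + s * X) := ⟨_, rfl⟩
      have hP0 : 0 < P := by rw [hP]; positivity
      have e5 : (1 : ℝ) / 2 ^ (s * X) * (1 / 2 ^ X) = 1 / P := by
        rw [hP, hp_mul]
        congr 2
        omega
      rw [e5] at key2
      have e3 : P * (1 / 2 ^ (s * X)) = 2 ^ X := by
        rw [hP, pow_add]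
        field_simp
      rw [← hP]
      obtain ⟨u, hu⟩ : ∃ u, u = dt (fun l => ((dd ω).2 l : ℝ)) ((a ω).g Y) := ⟨_, rfl⟩
      obtain ⟨v, hv⟩ : ∃ v, v = dt (fun l => ((dd ω).2 l : ℝ)) ((b ω).g Y) := ⟨_, rfl⟩
      have e8 : dt (fun l => ((dd ω).2 l : ℝ)) (fun i => (a ω).g Y i - (b ω).g Y i) = u - v := by
        rw [hu, hv, dt_sub]
      rw [e8] at key2
      rw [← hu, ← hv]
      have k1 := fs (P * u) (P * v)
      have k2 : |P * u - P * v + 2 ^ X * (2 * c2f y a b dd ω * z)| ≤ Kc k C₁ := by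
        have e7 : P * u - P * v + 2 ^ X * (2 * c2f y a b dd ω * z) =
            P * ((u - v) + 1 / 2 ^ (s * X) * (2 * c2f y a b dd ω * z)) := by
          linear_combination (-(2 * c2f y a b dd ω * z)) * e3
        rw [e7, abs_mul, abs_of_pos hP0]
        have := mul_le_mul_of_nonneg_left key2 hP0.le
        refine this.trans (le_of_eq ?_)
        field_simp
      have k4 : |(2 ^ X * c - 2 ^ X * c2f y a b dd ω) * (2 * z)| ≤ 1 * 2 :=
        abs_mul_le k3 (by rw [abs_of_nonneg (by positivity)]; linarith)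
      push_cast at k1
      have e6 : (⌊P * u⌋ : ℝ) - (⌊P * v⌋ : ℝ) - 2 ^ X * (c * -(2 * z)) =
          ((⌊P * u⌋ : ℝ) - (⌊P * v⌋ : ℝ) - (P * u - P * v)) +
          (P * u - P * v + 2 ^ X * (2 * c2f y a b dd ω * z)) +
          (2 ^ X * c - 2 ^ X * c2f y a b dd ω) * (2 * z) := by ring
      rw [e6]
      refine (abs_add_le _ _).trans ?_
      have k5 := abs_add_le ((⌊P * u⌋ : ℝ) - (⌊P * v⌋ : ℝ) - (P * u - P * v))
        (P * u - P * v + 2 ^ X * (2 * c2f y a b dd ω * z))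
      linarith

end Pool.XBG
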