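import Pool.Agent.H81.XBG.Out

/-!
# Curved leaves over a base: the chain
-/

set_option autoImplicit false

namespace Pool.XBG

open Finset Real Pool.XF Pool.LU
open Pool.Agent.H49.Ent Pool.Agent.H32.Dense Pool.STK Pool.KA Pool.KSAT Pool.K2S Pool.PC

/-- The additional part of the world. -/
noncomputable def gam {Ω : Type} {k : ℕ} {C₁ : ℝ} (X j : ℕ) (y : Ω → Fin k → ℝ)
    (a b : Ω → Lf k C₁) (dd : Ω → Fin k × (Fin k → ℤ)) (i1 : Ω → Fin k) (ω : Ω) :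
    ((Fin k × Fin k → ℤ) × (Fin k → ℤ)) × ((ℤ × ℤ) × ((Fin k × (Fin k → ℤ)) × Fin k)) :=
  (((fun q => ⌊(2 : ℝ) ^ X * (b ω).h (y ω) q.1 q.2⌋),
    (fun i => ⌊(2 : ℝ) ^ (j + X) * (b ω).g (y ω) i⌋ % 2 ^ X)),
    ((⌊(2 : ℝ) ^ X * c2f y a b dd ω⌋, ⌊(2 : ℝ) ^ X * c1f j y a b i1 ω⌋), (dd ω, i1 ω)))

theorem gam_ext {Ω : Type} {k : ℕ} {C₁ : ℝ} {X j : ℕ} {y : Ω → Fin k → ℝ}
    {a b : Ω → Lf k C₁} {dd : Ω → Fin k × (Fin k → ℤ)} {i1 : Ω → Fin k} {ω ω' : Ω}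
    (h : gam X j y a b dd i1 ω = gam X j y a b dd i1 ω') :
    (∀ i l, ⌊(2 : ℝ) ^ X * (b ω).h (y ω) i l⌋ = ⌊(2 : ℝ) ^ X * (b ω').h (y ω') i l⌋) ∧
    (∀ i, ⌊(2 : ℝ) ^ (j + X) * (b ω).g (y ω) i⌋ % 2 ^ X =
      ⌊(2 : ℝ) ^ (j + X) * (b ω').g (y ω') i⌋ % 2 ^ X) ∧
    ⌊(2 : ℝ) ^ X * c2f y a b dd ω⌋ = ⌊(2 : ℝ) ^ X * c2f y a b dd ω'⌋ ∧
    ⌊(2 : ℝ) ^ X * c1f j y a b i1 ω⌋ = ⌊(2 : ℝ) ^ X * c1f j y a b i1 ω'⌋ ∧
    dd ω = dd ω' ∧ i1 ω = i1 ω' := by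
  unfold gam at h
  simp only [Prod.mk.injEq] at h
  obtain ⟨⟨h1, h2⟩, ⟨h3, h4⟩, h5, h6⟩ := h
  exact ⟨fun i l => congrFun h1 (i, l), fun i => congrFun h2 i, h3, h4, h5, h6⟩

variable {Ω α β τ : Type} [Fintype Ω] {p : Ω → ℝ} {k : ℕ} {C₁ : ℝ} {X S j D : ℕ}
  {A : Ω → α} {B : Ω → β} {W : Ω → τ} {y : Ω → Fin k → ℝ} {a b : Ω → Lf k C₁}

/-- The constants. -/
noncomputable def K5 (k : ℕ) (C₁ : ℝ) : ℝ := 2 * Kc k C₁ + 1 + 2 * ((k + 1) * C₁)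

/-- The constant of one record. -/
noncomputable def Cb (k : ℕ) (C₁ : ℝ) : ℝ :=
  (k + 1) * Real.log (2 * (2 * Kc k C₁ + 1) + 1) + k * Real.log 9 + Real.log 5 +
    k * Real.log (2 * (K5 k C₁ + 2) + 1) + 2 * Real.log (2 * ((k + 1) * Ko k C₁ + 1) + 1)

theorem Ko_nonneg {k : ℕ} {C₁ : ℝ} (hC : 1 ≤ C₁) : 0 ≤ Ko k C₁ := by
  have h1 := (Kc_ge (k := k) hC).1
  unfold Ko
  positivity

theorem Cb_nonneg {k : ℕ} {C₁ : ℝ} (hC : 1 ≤ C₁) : 0 ≤ Cb k C₁ ∧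
    0 ≤ Real.log (2 * (2 * Kc k C₁ + 1) + 1) ∧ 0 ≤ Real.log (2 * (K5 k C₁ + 2) + 1) ∧
    0 ≤ Real.log (2 * ((k + 1) * Ko k C₁ + 1) + 1) := by
  have h1 := (Kc_ge (k := k) hC).1
  have h2 := Ko_nonneg (k := k) hC
  have hk : (0 : ℝ) ≤ k := Nat.cast_nonneg k
  have a1 : 0 ≤ Real.log (2 * (2 * Kc k C₁ + 1) + 1) := Real.log_nonneg (by linarith)
  have a2 : 0 ≤ Real.log (2 * (K5 k C₁ + 2) + 1) := by
    refine Real.log_nonneg ?_
    have : 0 ≤ ((k : ℝ) + 1) * C₁ := by positivity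
    unfold K5
    linarith
  have a3 : 0 ≤ Real.log (2 * ((k + 1) * Ko k C₁ + 1) + 1) := by
    refine Real.log_nonneg ?_
    have : 0 ≤ ((k : ℝ) + 1) * Ko k C₁ := by positivity
    linarith
  have a4 : 0 ≤ Real.log 9 := Real.log_nonneg (by norm_num)
  have a5 : 0 ≤ Real.log 5 := Real.log_nonneg (by norm_num)
  refine ⟨?_, a1, a2, a3⟩
  unfold Cb
  positivity

/-- Equal digits. -/
theorem eta_same {d : Ω → Fin k × (Fin k → ℤ)} {s : ℕ} {ω ω' : Ω}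
    (h2 : ∀ l, |(((d ω).2 l : ℤ) : ℝ)| ≤ 1)
    (hd : d ω = d ω') (he : etas X y d s ω = etas X y d s ω')
    (hz : zets X y d s ω = zets X y d s ω') (l : Fin k) :
    |xx X y s ω l - xx X y s ω' l| ≤ 2 / 2 ^ X := by
  have hX : (0 : ℝ) < 2 ^ X := by positivity
  -- the direction
  have h0 : |xx X y s ω (d ω).1 - xx X y s ω' (d ω).1| ≤ 1 / 2 ^ X := by
    obtain ⟨g1, g2⟩ := zets_cast X y d s ω
    obtain ⟨g3, g4⟩ := zets_cast X y d s ω'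
    rw [← hz, ← hd] at g3 g4
    have e : |xx X y s ω (d ω).1 - xx X y s ω' (d ω).1| * 2 ^ X ≤ 1 := by
      rw [← abs_of_pos hX, ← abs_mul, abs_le]
      constructor <;> linarith
    rw [le_div_iff₀ hX]
    exact e
  by_cases hl : l = (d ω).1
  · rw [hl]
    refine h0.trans ?_
    exact div_le_div_of_nonneg_right (by norm_num) hX.le
  · have h3 := congrFun he l
    unfold etas at h3
    rw [if_neg hl, if_neg (by rw [← hd]; exact hl), ← hd] at h3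
    have h4 := floor_same h3
    have e : xx X y s ω l - xx X y s ω' l =
        ((xx X y s ω l - (d ω).2 l * xx X y s ω (d ω).1) -
          (xx X y s ω' l - (d ω).2 l * xx X y s ω' (d ω).1)) +
        (d ω).2 l * (xx X y s ω (d ω).1 - xx X y s ω' (d ω).1) := by ring
    rw [e]
    refine (abs_add_le _ _).trans ?_
    have h5 := abs_mul_le (h2 l) h0
    have e2 : (2 : ℝ) / 2 ^ X = 1 / 2 ^ X + 1 * (1 / 2 ^ X) := by ring
    rw [e2]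
    linarith

/-- The cell of the next depth. -/
theorem cel_next {s : ℕ} {ω ω' : Ω} (hc : cel X y s ω = cel X y s ω') {r : ℝ} (l : Fin k)
    (h : |xx X y s ω l - xx X y s ω' l| ≤ r / 2 ^ X) :
    |((cel X y (s + 1) ω l - cel X y (s + 1) ω' l : ℤ) : ℝ)| ≤ r + 1 := by
  have hs : (0 : ℝ) < 2 ^ (s * X) := by positivity
  unfold cel
  refine floor_close ?_
  have e : y ω l - y ω' l = (xx X y s ω l - xx X y s ω' l) / 2 ^ (s * X) := by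
    unfold xx
    rw [hc]
    field_simp
    ring
  rw [e, abs_div, abs_of_pos hs, div_le_iff₀ hs]
  refine h.trans (le_of_eq ?_)
  have e2 : (2 : ℝ) ^ ((s + 1) * X) = 2 ^ (s * X) * 2 ^ X := by
    rw [← pow_add]
    congr 1
    ring
  rw [e2]
  field_simp

/-- Equal cells of the next depth. -/
theorem cel_xx {s : ℕ} {ω ω' : Ω} (hc : cel X y (s + 1) ω = cel X y (s + 1) ω') (l : Fin k) :
    |xx X y s ω l - xx X y s ω' l| ≤ 1 / 2 ^ X := by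
  have hcs : cel X y s ω = cel X y s ω' := cel_crs (Nat.le_succ s) hc
  have h1 := floor_same (congrFun hc l)
  have hs : (0 : ℝ) < 2 ^ (s * X) := by positivity
  have e : xx X y s ω l - xx X y s ω' l = 2 ^ (s * X) * (y ω l - y ω' l) := by
    unfold xx
    rw [hcs]
    ring
  rw [e, abs_mul, abs_of_pos hs]
  have e2 : (2 : ℝ) ^ ((s + 1) * X) = 2 ^ (s * X) * 2 ^ X := by
    rw [← pow_add]
    congr 1
    ring
  rw [e2] at h1
  have := mul_le_mul_of_nonneg_left h1 hs.le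
  refine this.trans (le_of_eq ?_)
  field_simp

end Pool.XBG
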