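import Pool.Agent.H81.XBG.Chn2

/-!
# Curved leaves over a base: the data of the chain
-/

set_option autoImplicit false

namespace Pool.XBG

open Finset Real Pool.XF Pool.LU
open Pool.Agent.H49.Ent Pool.Agent.H32.Dense Pool.STK Pool.KA Pool.KSAT Pool.K2S Pool.PC

variable {Ω α β τ : Type} [Fintype Ω] {p : Ω → ℝ} {k : ℕ} {C₁ : ℝ} {X S j D : ℕ}
  {A : Ω → α} {B : Ω → β} {W : Ω → τ} {y : Ω → Fin k → ℝ} {a b : Ω → Lf k C₁}

/-- The tail of the block. -/
noncomputable def tls (X j : ℕ) (y : Ω → Fin k → ℝ) (a b : Ω → Lf k C₁)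
    (dd : Ω → Fin k × (Fin k → ℤ)) (i1 : Ω → Fin k) (s : ℕ) (ω : Ω) : ℕ :=
  if ordr X j s = 0 then 0 else xof X (cfs X j y a b dd i1 s ω)

theorem cfs_same {dd : Ω → Fin k × (Fin k → ℤ)} {i1 : Ω → Fin k} {ω ω' : Ω}
    (hG : gam X j y a b dd i1 ω = gam X j y a b dd i1 ω') (s : ℕ) :
    cfs X j y a b dd i1 s ω = cfs X j y a b dd i1 s ω' := by
  obtain ⟨q1, q2, q3, q4, q5, q6⟩ := gam_ext hG
  unfold cfs
  rw [q3, q4]

/-- **The data of the chain.** -/
theorem Dat.chn (h : Dat p X S j D A B W y a b) (hp : IsLaw p)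
    {dd : Ω → Fin k × (Fin k → ℤ)} {i1 : Ω → Fin k}
    (h1 : ∀ ω, (dd ω).2 (dd ω).1 = 1) (h2 : ∀ ω l, |(((dd ω).2 l : ℤ) : ℝ)| ≤ 1) :
    Pool.XB.Chn p X k 2 (⌈Kc k C₁ + 3⌉₊) S (Cb k C₁ * (S + 2)) A B
      (fun ω => (W ω, gam X j y a b dd i1 ω)) (fun s => cel X y s) (fun s => rcd X j y a s)
      (ordr X j) (fun s => etas X y (dirs X j dd i1 s) s)
      (fun s => zets X y (dirs X j dd i1 s) s) (fun s => tls X j y a b dd i1 s)
      (fun s => cfs X j y a b dd i1 s)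
      (fun s ω i => jet X j s (a ω) (pnt X s (cel X y s ω) (etas X y (dirs X j dd i1 s) s ω))
        (dirs X j dd i1 s ω).2 i)
      (fun s ω i => jet X j s (b ω) (pnt X s (cel X y s ω) (etas X y (dirs X j dd i1 s) s ω))
        (dirs X j dd i1 s ω).2 i) := by
  have hp0 := hp.nonneg
  obtain ⟨b0, b1, b2, b3⟩ := Cb_nonneg (k := k) h.C1
  have hk : (0 : ℝ) ≤ k := Nat.cast_nonneg k
  have hS0 : (0 : ℝ) ≤ S := Nat.cast_nonneg S
  have l9 : 0 ≤ Real.log 9 := Real.log_nonneg (by norm_num)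
  have l5 : 0 ≤ Real.log 5 := Real.log_nonneg (by norm_num)
  have hCb : Cb k C₁ ≤ Cb k C₁ * (S + 2) := by
    have := mul_nonneg b0 hS0
    linarith
  have hC9 : k * Real.log 9 ≤ Cb k C₁ := by
    have t1 : 0 ≤ ((k : ℝ) + 1) * Real.log (2 * (2 * Kc k C₁ + 1) + 1) := by positivity
    have t2 : 0 ≤ k * Real.log (2 * (K5 k C₁ + 2) + 1) := by positivity
    unfold Cb
    linarith
  have hCr : ((k : ℝ) + 1) * Real.log (2 * (2 * Kc k C₁ + 1) + 1) ≤ Cb k C₁ := by
    have t1 : 0 ≤ (k : ℝ) * Real.log 9 := by positivity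
    have t2 : 0 ≤ k * Real.log (2 * (K5 k C₁ + 2) + 1) := by positivity
    unfold Cb
    linarith
  -- the record determines the cell
  have dcel : ∀ (s : ℕ) (ω ω' : Ω), rcd X j y a s ω = rcd X j y a s ω' →
      cel X y s ω = cel X y s ω' := by
    intro s ω ω' hh
    have := rcd_eq hh le_rfl
    unfold rc0 at this
    exact (Prod.ext_iff.mp this).1
  have ddir : ∀ (s : ℕ) (ω ω' : Ω), gam X j y a b dd i1 ω = gam X j y a b dd i1 ω' →
      dirs X j dd i1 s ω = dirs X j dd i1 s ω' := by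
    intro s ω ω' hh
    obtain ⟨q1, q2, q3, q4, q5, q6⟩ := gam_ext hh
    exact dirs_same q5 q6
  constructor
  · exact ordr_le X j
  · intro s ω
    exact zets_le X y _ s ω
  · intro s _ ω ω' _ _ hh
    refine rcd_mk fun i hi => ?_
    exact rcd_eq (Prod.ext_iff.mp hh).1 (hi.trans (Nat.le_succ s))
  · intro s _ ω ω' _ _ hh
    exact dcel s ω ω' (Prod.ext_iff.mp hh).1
  · intro s _
    have : CH p (rcd X j y a s) (fun ω => (cel X y s ω, (A ω, (W ω, gam X j y a b dd i1 ω)))) = 0 :=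
      CH_eq_zero hp0 fun ω ω' hω hω' hh => by
        simp only [Prod.mk.injEq] at hh
        obtain ⟨g1, g2, g3, -⟩ := hh
        have ha : a ω = a ω' := h.da ω ω' hω hω' (Prod.ext g2 g3)
        refine rcd_mk fun i hi => ?_
        have hc := cel_crs hi g1
        unfold rc0
        rw [hc, ha]
    rw [this]
    exact b0.trans hCb
  · intro s hs
    refine (h.recB hp hs).trans ?_
    have hs' : (s : ℝ) ≤ S := by exact_mod_cast hs
    have t1 : ((s : ℝ) + 1) * ((k + 1) * Real.log (2 * (2 * Kc k C₁ + 1) + 1)) ≤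
        ((s : ℝ) + 1) * Cb k C₁ := mul_le_mul_of_nonneg_left hCr (by positivity)
    have t2 : ((s : ℝ) + 1) * Cb k C₁ ≤ ((S : ℝ) + 2) * Cb k C₁ :=
      mul_le_mul_of_nonneg_right (by linarith) b0
    linarith
  · intro s _ ω ω' _ _ hh
    simp only [Prod.mk.injEq] at hh
    show tls X j y a b dd i1 s ω = tls X j y a b dd i1 s ω'
    unfold tls
    rw [cfs_same hh.2.2.2 s]
  · intro s _ ω ω' _ _ hh
    simp only [Prod.mk.injEq] at hh
    exact cfs_same hh.2.2.2 s
  · intro s _ ω ω' hω hω' hh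
    simp only [Prod.mk.injEq] at hh
    obtain ⟨g1, g2, g3, g4, g5⟩ := hh
    have ha : a ω = a ω' := h.da ω ω' hω hω' (Prod.ext g1 g4)
    funext i
    show jet X j s (a ω) (pnt X s (cel X y s ω) (etas X y (dirs X j dd i1 s) s ω))
        (dirs X j dd i1 s ω).2 i = jet X j s (a ω') (pnt X s (cel X y s ω')
          (etas X y (dirs X j dd i1 s) s ω')) (dirs X j dd i1 s ω').2 i
    rw [ha, dcel s ω ω' g3, g2, ddir s ω ω' g5]
  · intro s _ ω ω' hω hω' hh
    simp only [Prod.mk.injEq] at hh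
    obtain ⟨g1, g2, g3, g4, g5⟩ := hh
    have hb : b ω = b ω' := h.db ω ω' hω hω' (Prod.ext g1 g4)
    funext i
    show jet X j s (b ω) (pnt X s (cel X y s ω) (etas X y (dirs X j dd i1 s) s ω))
        (dirs X j dd i1 s ω).2 i = jet X j s (b ω') (pnt X s (cel X y s ω')
          (etas X y (dirs X j dd i1 s) s ω')) (dirs X j dd i1 s ω').2 i
    rw [hb, dcel s ω ω' g3, g2, ddir s ω ω' g5]
  · intro s hs ω hω i
    refine (h.rel hs hω (h1 ω) (h2 ω) i).trans (Nat.le_ceil _)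
  · intro s _ ω _
    show X ≤ tls X j y a b dd i1 s ω ∨ 1 / 2 ^ tls X j y a b dd i1 s ω ≤
      |cfs X j y a b dd i1 s ω|
    unfold tls
    by_cases h0 : ordr X j s = 0
    · rw [if_pos h0]
      right
      unfold cfs
      rw [if_neg (by omega), if_neg (by omega)]
      norm_num
    · rw [if_neg h0]
      exact xof_or X _
  · intro s hs
    have := hη_le (X := X) (y := y) hp (dirs X j dd i1 s) s
      (fun ω => (rcd X j y a s ω, (W ω, gam X j y a b dd i1 ω))) (fun ω ω' _ _ hh =>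
        ddir s ω ω' (Prod.ext_iff.mp (Prod.ext_iff.mp hh).2).2)
      (fun ω l => dirs_bd (h2 ω) l)
    refine this.trans ?_
    linarith
  · intro s hs
    have := next_le (X := X) (y := y) hp (dirs X j dd i1 s) s
      (fun ω => (rcd X j y a s ω, (W ω, gam X j y a b dd i1 ω))) (fun ω ω' _ _ hh =>
        ddir s ω ω' (Prod.ext_iff.mp (Prod.ext_iff.mp hh).2).2)
      (fun ω ω' _ _ hh => dcel s ω ω' (Prod.ext_iff.mp hh).1)
      (fun ω l => dirs_bd (h2 ω) l)
    refine this.trans ?_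
    linarith
  · intro s hs
    exact (h.out hp h1 h2 hs).trans hCb

end Pool.XBG
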