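import Pool.Agent.H81.XBG.Ins

/-!
# Curved leaves over a base

Two leaves through the point of the line, with slopes at distance `2^-j` and curvatures at
distance at least `2^-x0`: if the point of the base is full given each leaf, then the own leaf has
`S X + min (S X) j` digits given the world.
-/

set_option autoImplicit false

namespace Pool.XBG

open Finset Real Pool.XF Pool.LU
open Pool.Agent.H49.Ent Pool.Agent.H32.Dense Pool.STK Pool.KA Pool.KSAT Pool.K2S Pool.PC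

theorem ord_sum' (X j S : ℕ) : S * X + min (S * X) j ≤ X * ∑ s ∈ range S, ordr X j s +
    (if S = 0 then 0 else if S * X ≤ j then 2 * X else if S * X ≤ j + X then 4 * X
      else 5 * X) := by
  induction S with
  | zero => simp
  | succ s ih =>
    rw [Finset.sum_range_succ, mul_add]
    have e : (s + 1) * X = s * X + X := by ring
    obtain ⟨u, hu⟩ : ∃ u, u = s * X := ⟨_, rfl⟩
    have ho : ordr X j s = if 1 ≤ s ∧ u + X ≤ j then 2 else if j + X ≤ u then 1 else 0 := by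
      unfold ordr
      rw [e, hu]
    rw [e, ← hu, ho, if_neg (Nat.succ_ne_zero s)]
    rw [← hu] at ih
    obtain ⟨T, hT⟩ : ∃ T, T = X * ∑ s ∈ range s, ordr X j s := ⟨_, rfl⟩
    rw [← hT] at ih ⊢
    rcases Nat.eq_zero_or_pos s with h0 | h0
    · subst h0
      rw [Nat.zero_mul] at hu
      subst hu
      split_ifs <;> omega
    · rw [if_neg (by omega)] at ih
      split_ifs at ih ⊢ <;> omega

/-- The sum of the orders. -/
theorem ord_sum (X j S : ℕ) :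
    S * X + min (S * X) j ≤ X * ∑ s ∈ range S, ordr X j s + 5 * X := by
  have := ord_sum' X j S
  split_ifs at this <;> omega

/-- The constant of the world. -/
noncomputable def Lg (k : ℕ) (C₁ : ℝ) : ℝ := 4 * (k * k + 1) * C₁ + k + 2

/-- The constant of the world. -/
noncomputable def Cg (k : ℕ) (C₁ : ℝ) : ℝ :=
  (k * k + 2 * k + 4) * (Real.log (2 * (Lg k C₁ + 1) + 1) + Real.log 2)

theorem lgX (X : ℕ) {L : ℝ} (hL : 0 ≤ L) : Real.log (2 * (L * 2 ^ X + 1) + 1) ≤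
    (Real.log (2 * (L + 1) + 1) + Real.log 2) * (X + 1) := by
  have hX : (1 : ℝ) ≤ 2 ^ X := one_le_pow₀ (by norm_num)
  have h1 : 2 * (L * 2 ^ X + 1) + 1 ≤ (2 * (L + 1) + 1) * 2 ^ X := by nlinarith
  have h2 : 0 ≤ Real.log 2 := Real.log_nonneg (by norm_num)
  have h3 : 0 ≤ Real.log (2 * (L + 1) + 1) := Real.log_nonneg (by linarith)
  refine (Real.log_le_log (by positivity) h1).trans ?_
  rw [Real.log_mul (by positivity) (by positivity), Real.log_pow]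
  have hX0 : (0 : ℝ) ≤ X := Nat.cast_nonneg X
  nlinarith [mul_nonneg h3 hX0]

theorem Cg_nonneg {k : ℕ} {C₁ : ℝ} (hC : 1 ≤ C₁) : 0 ≤ Lg k C₁ ∧ 0 ≤ Cg k C₁ := by
  have h1 : 0 ≤ Lg k C₁ := by
    have : 0 ≤ C₁ := by linarith
    unfold Lg
    positivity
  have h2 : 0 ≤ Real.log 2 := Real.log_nonneg (by norm_num)
  have h3 : 0 ≤ Real.log (2 * (Lg k C₁ + 1) + 1) := Real.log_nonneg (by linarith)
  refine ⟨h1, ?_⟩
  unfold Cg
  positivity

variable {Ω α β τ : Type} [Fintype Ω] {p : Ω → ℝ} {k : ℕ} {C₁ : ℝ} {X S j D : ℕ}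
  {A : Ω → α} {B : Ω → β} {W : Ω → τ} {y : Ω → Fin k → ℝ} {a b : Ω → Lf k C₁}

theorem floor_bd {X : ℕ} {u v L : ℝ} (hu : |u| ≤ L) (hv : |v| ≤ L) :
    |((⌊(2 : ℝ) ^ X * u⌋ - ⌊(2 : ℝ) ^ X * v⌋ : ℤ) : ℝ)| ≤ 2 * L * 2 ^ X + 1 := by
  refine floor_close (c := 2 * L * 2 ^ X) ?_
  have h : (2 : ℝ) ^ X ≠ 0 := by positivity
  have e : 2 * L * 2 ^ X / (2 : ℝ) ^ X = L + L := by field_simp; ring
  rw [e]
  exact (abs_sub _ _).trans (add_le_add hu hv)

/-- The additional part of the world is cheap. -/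
theorem Dat.gam_le (h : Dat p X S j D A B W y a b) (hp : IsLaw p)
    {dd : Ω → Fin k × (Fin k → ℤ)} {i1 : Ω → Fin k}
    (h2 : ∀ ω l, |(((dd ω).2 l : ℤ) : ℝ)| ≤ 1) {T : Type} (V : Ω → T) :
    CH p (gam X j y a b dd i1) V ≤ Cg k C₁ * (X + 1) := by
  have hp0 := hp.nonneg
  have hC0 : 0 ≤ C₁ := by linarith [h.C1]
  have hk : (0 : ℝ) ≤ k := Nat.cast_nonneg k
  have hX1 : (1 : ℝ) ≤ 2 ^ X := one_le_pow₀ (by norm_num)
  have hL0 : 0 ≤ Lg k C₁ := (Cg_nonneg (k := k) h.C1).1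
  have hkC : 0 ≤ (k : ℝ) * k * C₁ := by positivity
  obtain ⟨R, hR⟩ : ∃ R, R = (Real.log (2 * (Lg k C₁ + 1) + 1) + Real.log 2) * (X + 1) := ⟨_, rfl⟩
  have hlg := lgX X hL0
  rw [← hR] at hlg
  have hLX : 0 ≤ Lg k C₁ * 2 ^ X + 1 := by positivity
  have hLg : Lg k C₁ = 4 * (k * k + 1) * C₁ + k + 2 := rfl
  have mono : ∀ L, L ≤ Lg k C₁ → L * 2 ^ X + 1 ≤ Lg k C₁ * 2 ^ X + 1 := fun L hL => by
    have := mul_le_mul_of_nonneg_right hL (show (0 : ℝ) ≤ 2 ^ X by positivity)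
    linarith
  -- the curvature of the second leaf
  have c1 : CH p (fun ω (q : Fin k × Fin k) => ⌊(2 : ℝ) ^ X * (b ω).h (y ω) q.1 q.2⌋) V ≤
      (k * k) * R := by
    have := CH_bI hp (fun ω (q : Fin k × Fin k) => ⌊(2 : ℝ) ^ X * (b ω).h (y ω) q.1 q.2⌋) V
      (Lg k C₁ * 2 ^ X + 1) hLX fun ω ω' _ _ _ q => by
        refine (floor_bd ((b ω).hb _ (h.ybox ω) q.1 q.2) ((b ω').hb _ (h.ybox ω') q.1 q.2)).trans
          (mono _ ?_)
        rw [hLg]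
        nlinarith [h.C1]
    rw [Fintype.card_prod, Fintype.card_fin] at this
    push_cast at this
    exact this.trans (mul_le_mul_of_nonneg_left hlg (by positivity))
  -- the digits of the slope
  have c2 : CH p (fun ω (i : Fin k) => ⌊(2 : ℝ) ^ (j + X) * (b ω).g (y ω) i⌋ % 2 ^ X) V ≤
      k * R := by
    have := CH_bI hp (fun ω (i : Fin k) => ⌊(2 : ℝ) ^ (j + X) * (b ω).g (y ω) i⌋ % 2 ^ X) V
      (Lg k C₁ * 2 ^ X + 1) hLX fun ω ω' _ _ _ i => by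
        obtain ⟨n, hn⟩ : ∃ n, n = ⌊(2 : ℝ) ^ (j + X) * (b ω).g (y ω) i⌋ := ⟨_, rfl⟩
        obtain ⟨n', hn'⟩ : ∃ n, n = ⌊(2 : ℝ) ^ (j + X) * (b ω').g (y ω') i⌋ := ⟨_, rfl⟩
        rw [← hn, ← hn']
        have f1 : (0 : ℤ) ≤ n % 2 ^ X := Int.emod_nonneg _ (by positivity)
        have f2 : n % (2 : ℤ) ^ X < 2 ^ X := Int.emod_lt_of_pos _ (by positivity)
        have f3 : (0 : ℤ) ≤ n' % 2 ^ X := Int.emod_nonneg _ (by positivity)
        have f4 : n' % (2 : ℤ) ^ X < 2 ^ X := Int.emod_lt_of_pos _ (by positivity)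
        have g1 : (0 : ℝ) ≤ ((n % 2 ^ X : ℤ) : ℝ) := by exact_mod_cast f1
        have g2 : ((n % 2 ^ X : ℤ) : ℝ) ≤ 2 ^ X := by exact_mod_cast f2.le
        have g3 : (0 : ℝ) ≤ ((n' % 2 ^ X : ℤ) : ℝ) := by exact_mod_cast f3
        have g4 : ((n' % 2 ^ X : ℤ) : ℝ) ≤ 2 ^ X := by exact_mod_cast f4.le
        refine le_trans ?_ (mono 1 (by rw [hLg]; nlinarith [h.C1]))
        rw [Int.cast_sub, abs_le]
        constructor <;> linarith
    rw [Fintype.card_fin] at this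
    exact this.trans (mul_le_mul_of_nonneg_left hlg hk)
  -- the coefficients
  have c3 : CH p (fun ω => ⌊(2 : ℝ) ^ X * c2f y a b dd ω⌋) V ≤ R := by
    refine (CH_bd1 hp _ V (Lg k C₁ * 2 ^ X + 1) fun ω ω' _ _ _ => ?_).trans hlg
    have bd : ∀ ω, |c2f y a b dd ω| ≤ k * k * C₁ := by
      intro ω
      have := qf_le (β := fun i l => (a ω).h (y ω) i l - (b ω).h (y ω) i l)
        (u := fun l => ((dd ω).2 l : ℝ)) (v := fun l => ((dd ω).2 l : ℝ)) (B := 2 * C₁) (U := 1)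
        (V := 1) (fun i l => by
          refine (abs_sub _ _).trans ?_
          linarith [(a ω).hb _ (h.ybox ω) i l, (b ω).hb _ (h.ybox ω) i l]) (h2 ω) (h2 ω)
      unfold c2f
      rw [abs_div, abs_of_pos (by norm_num : (0 : ℝ) < 2), div_le_iff₀ (by norm_num)]
      refine this.trans (le_of_eq ?_)
      ring
    refine (floor_bd (bd ω) (bd ω')).trans (mono _ ?_)
    rw [hLg]
    nlinarith [h.C1]
  have c4 : CH p (fun ω => ⌊(2 : ℝ) ^ X * c1f j y a b i1 ω⌋) V ≤ R := by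
    refine (CH_bd1 hp _ V (Lg k C₁ * 2 ^ X + 1) fun ω ω' hω hω' _ => ?_).trans hlg
    have bd : ∀ ω, 0 < p ω → |c1f j y a b i1 ω| ≤ 1 := by
      intro ω hω
      unfold c1f
      rw [abs_mul, abs_of_pos (by positivity)]
      have := mul_le_mul_of_nonneg_left (h.d1 ω hω (i1 ω)) (show (0 : ℝ) ≤ 2 ^ j by positivity)
      refine this.trans (le_of_eq ?_)
      field_simp
    refine (floor_bd (bd ω hω) (bd ω' hω')).trans (mono _ ?_)
    rw [hLg]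
    nlinarith [h.C1]
  -- the directions
  have hki : ∀ i i' : Fin k, |((((i : ℕ) : ℤ) - ((i' : ℕ) : ℤ) : ℤ) : ℝ)| ≤
      Lg k C₁ * 2 ^ X + 1 := by
    intro i i'
    have e1 : ((i : ℕ) : ℝ) ≤ k := by exact_mod_cast i.2.le
    have e2 : ((i' : ℕ) : ℝ) ≤ k := by exact_mod_cast i'.2.le
    have e3 : (0 : ℝ) ≤ ((i : ℕ) : ℝ) := Nat.cast_nonneg _
    have e4 : (0 : ℝ) ≤ ((i' : ℕ) : ℝ) := Nat.cast_nonneg _
    have e5 : (k : ℝ) ≤ Lg k C₁ := by
      rw [hLg]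
      nlinarith [h.C1]
    have e6 : Lg k C₁ * 1 ≤ Lg k C₁ * 2 ^ X := mul_le_mul_of_nonneg_left hX1 hL0
    push_cast
    rw [abs_le]
    constructor <;> linarith
  have idx : ∀ i : Ω → Fin k, CH p i V ≤ R := by
    intro i
    have g0 : CH p i V ≤ CH p (fun ω => (((i ω : Fin k) : ℕ) : ℤ)) V :=
      CH_mono_left hp0 fun ω ω' _ _ hh => by
        have := (Prod.ext_iff.mp hh).1
        exact Fin.ext (Nat.cast_injective (R := ℤ) this)
    exact g0.trans ((CH_bd1 hp _ V (Lg k C₁ * 2 ^ X + 1) fun ω ω' _ _ _ => hki _ _).trans hlg)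
  have c5 : CH p (fun ω => (dd ω).2) V ≤ k * R := by
    have := CH_bI hp (fun ω => (dd ω).2) V (Lg k C₁ * 2 ^ X + 1) hLX fun ω ω' _ _ _ l => by
      have f1 := abs_le.mp (h2 ω l)
      have f2 := abs_le.mp (h2 ω' l)
      have e5 : (2 : ℝ) ≤ Lg k C₁ := by
        rw [hLg]
        nlinarith [h.C1]
      have e6 : Lg k C₁ * 1 ≤ Lg k C₁ * 2 ^ X := mul_le_mul_of_nonneg_left hX1 hL0
      push_cast
      rw [abs_le]
      constructor <;> linarith [f1.1, f1.2, f2.1, f2.2]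
    rw [Fintype.card_fin] at this
    exact this.trans (mul_le_mul_of_nonneg_left hlg hk)
  have c6 := idx (fun ω => (dd ω).1)
  have c7 := idx i1
  -- together
  have s1 := CH_subadd hp0 (fun ω => ((fun q : Fin k × Fin k =>
    ⌊(2 : ℝ) ^ X * (b ω).h (y ω) q.1 q.2⌋), (fun i => ⌊(2 : ℝ) ^ (j + X) * (b ω).g (y ω) i⌋ %
      2 ^ X))) (fun ω => ((⌊(2 : ℝ) ^ X * c2f y a b dd ω⌋, ⌊(2 : ℝ) ^ X * c1f j y a b i1 ω⌋),
        (dd ω, i1 ω))) V
  have s2 := CH_subadd hp0 (fun ω => (fun q : Fin k × Fin k =>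
    ⌊(2 : ℝ) ^ X * (b ω).h (y ω) q.1 q.2⌋)) (fun ω => (fun i =>
      ⌊(2 : ℝ) ^ (j + X) * (b ω).g (y ω) i⌋ % 2 ^ X)) V
  have s3 := CH_subadd hp0 (fun ω => (⌊(2 : ℝ) ^ X * c2f y a b dd ω⌋,
    ⌊(2 : ℝ) ^ X * c1f j y a b i1 ω⌋)) (fun ω => (dd ω, i1 ω)) V
  have s4 := CH_subadd hp0 (fun ω => ⌊(2 : ℝ) ^ X * c2f y a b dd ω⌋)
    (fun ω => ⌊(2 : ℝ) ^ X * c1f j y a b i1 ω⌋) V
  have s5 := CH_subadd hp0 dd i1 V
  have s6 := CH_subadd hp0 (fun ω => (dd ω).1) (fun ω => (dd ω).2) V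
  have e0 : CH p (gam X j y a b dd i1) V = CH p (fun ω => ((((fun q : Fin k × Fin k =>
    ⌊(2 : ℝ) ^ X * (b ω).h (y ω) q.1 q.2⌋), (fun i => ⌊(2 : ℝ) ^ (j + X) * (b ω).g (y ω) i⌋ %
      2 ^ X))), (((⌊(2 : ℝ) ^ X * c2f y a b dd ω⌋, ⌊(2 : ℝ) ^ X * c1f j y a b i1 ω⌋),
        (dd ω, i1 ω))))) V := rfl
  have e1 : CH p dd V = CH p (fun ω => ((dd ω).1, (dd ω).2)) V := rfl
  have e2 : Cg k C₁ * (X + 1) = (k * k + 2 * k + 4) * R := by
    rw [hR]
    unfold Cg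
    ring
  rw [e0, e2]
  rw [e1] at s5
  linarith

/-- A direction of large curvature. -/
theorem exists_dd (hk : 1 ≤ k) (y : Ω → Fin k → ℝ) (a b : Ω → Lf k C₁) :
    ∃ dd : Ω → Fin k × (Fin k → ℤ), (∀ ω, (dd ω).2 (dd ω).1 = 1) ∧
      (∀ ω l, |(((dd ω).2 l : ℤ) : ℝ)| ≤ 1) ∧ ∀ ω i l,
        |(a ω).h (y ω) i l - (b ω).h (y ω) i l| / 4 ≤ |c2f y a b dd ω| := by
  haveI : Nonempty (Fin k) := ⟨⟨0, hk⟩⟩
  have key : ∀ ω, ∃ d : Fin k × (Fin k → ℤ), d.2 d.1 = 1 ∧ (∀ l, |((d.2 l : ℤ) : ℝ)| ≤ 1) ∧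
      ∀ i l, |(a ω).h (y ω) i l - (b ω).h (y ω) i l| / 2 ≤
        |qf (fun i l => (a ω).h (y ω) i l - (b ω).h (y ω) i l) (fun l => d.2 l)
          (fun l => d.2 l)| := by
    intro ω
    obtain ⟨q, hq⟩ := Finite.exists_max (fun q : Fin k × Fin k =>
      |(a ω).h (y ω) q.1 q.2 - (b ω).h (y ω) q.1 q.2|)
    obtain ⟨d, d1, d2, d3⟩ := dir_ex (β := fun i l => (a ω).h (y ω) i l - (b ω).h (y ω) i l)
      (fun i l => by rw [(a ω).sym (y ω) i l, (b ω).sym (y ω) i l])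
      (t := |(a ω).h (y ω) q.1 q.2 - (b ω).h (y ω) q.1 q.2|) (abs_nonneg _) (i := q.1) (j := q.2)
      le_rfl
    refine ⟨d, d1, d2, fun i l => ?_⟩
    refine le_trans ?_ d3
    exact div_le_div_of_nonneg_right (hq (i, l)) (by norm_num)
  choose dd h1 h2 h3 using key
  refine ⟨dd, h1, h2, fun ω i l => ?_⟩
  have := h3 ω i l
  unfold c2f
  rw [abs_div, abs_of_pos (by norm_num : (0 : ℝ) < 2)]
  linarith

/-- An index of large slope. -/
theorem exists_i1 (hk : 1 ≤ k) (y : Ω → Fin k → ℝ) (a b : Ω → Lf k C₁) :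
    ∃ i1 : Ω → Fin k, ∀ ω i, |(a ω).g (y ω) i - (b ω).g (y ω) i| ≤
      |(a ω).g (y ω) (i1 ω) - (b ω).g (y ω) (i1 ω)| := by
  haveI : Nonempty (Fin k) := ⟨⟨0, hk⟩⟩
  have key : ∀ ω, ∃ i1 : Fin k, ∀ i, |(a ω).g (y ω) i - (b ω).g (y ω) i| ≤
      |(a ω).g (y ω) i1 - (b ω).g (y ω) i1| := fun ω =>
    Finite.exists_max (fun i : Fin k => |(a ω).g (y ω) i - (b ω).g (y ω) i|)
  choose i1 h1 using key
  exact ⟨i1, h1⟩

/-- The tail of a rounded coefficient. -/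
theorem xof_fl {X n : ℕ} {c : ℝ} (hc : 1 / 2 ^ n ≤ |c|) :
    xof X ((⌊(2 : ℝ) ^ X * c⌋ : ℝ) / 2 ^ X) ≤ n + 1 := by
  by_cases hn : n + 1 ≤ X
  · refine xof_le' hn ?_
    have h1 := fl_round X c
    have hX : (0 : ℝ) < 2 ^ X := by positivity
    obtain ⟨v, hv⟩ : ∃ v : ℝ, v = (⌊(2 : ℝ) ^ X * c⌋ : ℝ) / 2 ^ X := ⟨_, rfl⟩
    rw [← hv] at h1 ⊢
    rw [← mul_sub, abs_mul, abs_of_pos hX] at h1
    have h2 : |v - c| ≤ 1 / 2 ^ X := by
      rw [le_div_iff₀ hX]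
      linarith
    have h3 : (1 : ℝ) / 2 ^ X ≤ 1 / 2 ^ (n + 1) := pow_le_of hn
    have h4 : |c| ≤ |v| + |v - c| := by
      have := abs_sub v (v - c)
      rwa [sub_sub_cancel] at this
    have h5 : (1 : ℝ) / 2 ^ n = 1 / 2 ^ (n + 1) + 1 / 2 ^ (n + 1) := by
      rw [pow_succ]
      field_simp
      norm_num
    linarith
  · exact (xof_le X _).trans (by omega)

/-- The tails. -/
theorem tls_le (hp : IsLaw p) {dd : Ω → Fin k × (Fin k → ℤ)} {i1 : Ω → Fin k}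
    (h3 : ∀ ω i l, |(a ω).h (y ω) i l - (b ω).h (y ω) i l| / 4 ≤ |c2f y a b dd ω|)
    (h4 : ∀ ω i, |(a ω).g (y ω) i - (b ω).g (y ω) i| ≤
      |(a ω).g (y ω) (i1 ω) - (b ω).g (y ω) (i1 ω)|) {x0 : ℕ} {p0 : ℝ} (hp0 : 0 ≤ p0)
    (hβ : 2 * X ≤ j → Pe p (fun ω => ∀ i l,
      |(a ω).h (y ω) i l - (b ω).h (y ω) i l| < 1 / 2 ^ x0) ≤ p0)
    (hα : j + X < S * X → Pe p (fun ω => ∀ i,
      |(a ω).g (y ω) i - (b ω).g (y ω) i| < 1 / 2 ^ (j + x0)) ≤ p0) {s : ℕ} (hs : s < S)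
    (hX : 1 ≤ X) :
    Ex p (fun ω => ((tls X j y a b dd i1 s ω : ℕ) : ℝ)) ≤ x0 + 3 + p0 * X := by
  classical
  have hn := hp.nonneg
  -- a general bound
  have gen : ∀ E : Ω → Prop, Pe p E ≤ p0 → (∀ ω, ¬ E ω → tls X j y a b dd i1 s ω ≤ x0 + 3) →
      (∀ ω, tls X j y a b dd i1 s ω ≤ X) →
      Ex p (fun ω => ((tls X j y a b dd i1 s ω : ℕ) : ℝ)) ≤ x0 + 3 + p0 * X := by
    intro E hE hE1 hE2
    have f1 : Ex p (fun ω => ((tls X j y a b dd i1 s ω : ℕ) : ℝ)) ≤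
        Ex p (fun ω => (x0 + 3 : ℝ) + (if E ω then (X : ℝ) else 0)) := by
      refine Ex_mono hn fun ω _ => ?_
      by_cases hω : E ω
      · rw [if_pos hω]
        have : ((tls X j y a b dd i1 s ω : ℕ) : ℝ) ≤ X := by exact_mod_cast hE2 ω
        have h5 : (0 : ℝ) ≤ x0 := Nat.cast_nonneg x0
        linarith
      · rw [if_neg hω]
        have : ((tls X j y a b dd i1 s ω : ℕ) : ℝ) ≤ ((x0 + 3 : ℕ) : ℝ) := by
          exact_mod_cast hE1 ω hω
        push_cast at this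
        linarith
    have f2 : Ex p (fun ω => (x0 + 3 : ℝ) + (if E ω then (X : ℝ) else 0)) =
        (x0 + 3) + X * Pe p E := by
      unfold Ex Pe
      have e1 : ∀ ω, p ω * ((x0 + 3 : ℝ) + (if E ω then (X : ℝ) else 0)) =
          p ω * (x0 + 3) + X * (if E ω then p ω else 0) := by
        intro ω
        split_ifs <;> ring
      rw [Finset.sum_congr rfl fun ω _ => e1 ω, Finset.sum_add_distrib, ← Finset.sum_mul,
        ← Finset.mul_sum, hp.sum_one, one_mul]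
      congr 2
      refine Finset.sum_congr rfl fun ω _ => ?_
      by_cases hω : E ω <;> simp [hω]
    have f3 : (X : ℝ) * Pe p E ≤ X * p0 := mul_le_mul_of_nonneg_left hE (Nat.cast_nonneg X)
    linarith
  have hX2 : ∀ ω, tls X j y a b dd i1 s ω ≤ X := by
    intro ω
    unfold tls
    split_ifs
    · exact Nat.zero_le X
    · exact xof_le X _
  have hP0 : Pe p (fun _ => False) ≤ p0 := by
    refine le_trans (le_of_eq ?_) hp0
    unfold Pe
    exact Finset.sum_eq_zero fun ω _ => if_neg (by simp)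
  rcases (show ordr X j s = 0 ∨ ordr X j s = 1 ∨ ordr X j s = 2 by
    have := ordr_le X j s; omega) with h0 | h0 | h0
  · refine gen (fun _ => False) hP0 (fun ω _ => ?_) hX2
    unfold tls
    rw [if_pos h0]
    exact Nat.zero_le _
  · have g1 := ordr_one h0
    have g2 : s * X + X ≤ S * X := by
      have := Nat.mul_le_mul_right X (Nat.succ_le_of_lt hs)
      rw [Nat.succ_mul] at this
      exact this
    refine gen _ (hα (by omega)) (fun ω hω => ?_) hX2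
    push Not at hω
    obtain ⟨i, hi⟩ := hω
    unfold tls
    rw [if_neg (by omega)]
    unfold cfs
    rw [if_neg (by omega), if_pos h0]
    refine (xof_fl (n := x0) ?_).trans (by omega)
    unfold c1f
    rw [abs_mul, abs_of_pos (by positivity)]
    have g3 := hi.trans (h4 ω i)
    have g4 := mul_le_mul_of_nonneg_left g3 (show (0 : ℝ) ≤ 2 ^ j by positivity)
    refine le_trans (le_of_eq ?_) g4
    rw [pow_add]
    field_simp
  · obtain ⟨g1, g2⟩ := ordr_two h0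
    refine gen _ (hβ (by nlinarith)) (fun ω hω => ?_) hX2
    push Not at hω
    obtain ⟨i, l, hi⟩ := hω
    unfold tls
    rw [if_neg (by omega)]
    unfold cfs
    rw [if_pos h0]
    refine (xof_fl (n := x0 + 2) ?_).trans (by omega)
    refine le_trans ?_ (h3 ω i l)
    rw [pow_add]
    have : (1 : ℝ) / (2 ^ x0 * 2 ^ 2) = 1 / 2 ^ x0 / 4 := by
      field_simp
      norm_num
    rw [this]
    exact div_le_div_of_nonneg_right hi (by norm_num)

end Pool.XBG
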