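import Pool.Agent.H81.XBG.Est

/-!
# Curved leaves over a base: the next record determines the jets of the second leaf
-/

set_option autoImplicit false

namespace Pool.XBG

open Finset Real Pool.XF Pool.LU
open Pool.Agent.H49.Ent Pool.Agent.H32.Dense Pool.STK Pool.KA Pool.KSAT Pool.K2S Pool.PC

variable {Ω α β τ : Type} [Fintype Ω] {p : Ω → ℝ} {k : ℕ} {C₁ : ℝ} {X S j D : ℕ}
  {A : Ω → α} {B : Ω → β} {W : Ω → τ} {y : Ω → Fin k → ℝ} {a b : Ω → Lf k C₁}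

/-- The constant. -/
noncomputable def Ko (k : ℕ) (C₁ : ℝ) : ℝ := (2 * Kc k C₁ + 1) * (1 + 4 * k) +
  32 * (k * k) * (1 + C₁) + 128 * C₁ + 4 * k * (1 + 2 * (k + 1) * C₁) + 4 * k * (1 + 2 * C₁)

/-- The leaves at the corner of the next depth. -/
theorem Dat.corner (h : Dat p X S j D A B W y a b) {s : ℕ} (hs : s < S) {ω ω' : Ω} (hω : 0 < p ω)
    (hω' : 0 < p ω') (hr : rc0 X j y a (s + 1) ω = rc0 X j y a (s + 1) ω') :
    cel X y (s + 1) ω = cel X y (s + 1) ω' ∧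
    |(b ω).f (crn X (s + 1) (cel X y (s + 1) ω)) - (b ω').f (crn X (s + 1) (cel X y (s + 1) ω))| ≤
      (2 * Kc k C₁ + 1) / 2 ^ ((s + 1) * X + min ((s + 1) * X) j) ∧
    ∀ l, |(b ω).g (crn X (s + 1) (cel X y (s + 1) ω)) l -
      (b ω').g (crn X (s + 1) (cel X y (s + 1) ω)) l| ≤
      (2 * Kc k C₁ + 1) / 2 ^ (min ((s + 1) * X) j) := by
  unfold rc0 at hr
  simp only [Prod.mk.injEq] at hr
  obtain ⟨r1, r2, r3⟩ := hr
  obtain ⟨n1, n2⟩ := h.near hω (i := s + 1) hs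
  obtain ⟨m1, m2⟩ := h.near hω' (i := s + 1) hs
  rw [← r1] at r2 r3 m1 m2
  obtain ⟨Yc, hYc⟩ : ∃ Yc, Yc = crn X (s + 1) (cel X y (s + 1) ω) := ⟨_, rfl⟩
  rw [← hYc] at r2 r3 m1 m2 n1 n2 ⊢
  refine ⟨r1, ?_, fun l => ?_⟩
  · have g1 := floor_same r2
    have e : (b ω).f Yc - (b ω').f Yc = ((a ω).f Yc - (a ω').f Yc) -
        ((a ω).f Yc - (b ω).f Yc) + ((a ω').f Yc - (b ω').f Yc) := by ring
    rw [e]
    refine (abs_add_le _ _).trans ?_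
    have g2 := abs_sub ((a ω).f Yc - (a ω').f Yc) ((a ω).f Yc - (b ω).f Yc)
    have e2 : (2 * Kc k C₁ + 1) / (2 : ℝ) ^ ((s + 1) * X + min ((s + 1) * X) j) =
        1 / 2 ^ ((s + 1) * X + min ((s + 1) * X) j) +
        Kc k C₁ / 2 ^ ((s + 1) * X + min ((s + 1) * X) j) +
        Kc k C₁ / 2 ^ ((s + 1) * X + min ((s + 1) * X) j) := by ring
    rw [e2]
    linarith
  · have g1 := floor_same (congrFun r3 l)
    have e : (b ω).g Yc l - (b ω').g Yc l = ((a ω).g Yc l - (a ω').g Yc l) -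
        ((a ω).g Yc l - (b ω).g Yc l) + ((a ω').g Yc l - (b ω').g Yc l) := by ring
    rw [e]
    refine (abs_add_le _ _).trans ?_
    have g2 := abs_sub ((a ω).g Yc l - (a ω').g Yc l) ((a ω).g Yc l - (b ω).g Yc l)
    have e2 : (2 * Kc k C₁ + 1) / (2 : ℝ) ^ (min ((s + 1) * X) j) =
        1 / 2 ^ (min ((s + 1) * X) j) + Kc k C₁ / 2 ^ (min ((s + 1) * X) j) +
        Kc k C₁ / 2 ^ (min ((s + 1) * X) j) := by ring
    rw [e2]
    have g3 := n2 l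
    have g4 := m2 l
    linarith

/-- The gradient moves little. -/
theorem grad_move (hC : 1 ≤ C₁) (L : Lf k C₁) {y Y : Fin k → ℝ} (hy : ∀ i, |y i| ≤ 3)
    (hY : ∀ i, |Y i| ≤ 3) {r : ℝ} (h0 : 0 ≤ r) (h1 : r ≤ 1) (hr : ∀ i, |Y i - y i| ≤ r)
    (i : Fin k) : |L.g Y i - L.g y i| ≤ (k + 1) * C₁ * r := by
  have g1 := L.tg y Y hy hY r hr i
  have g2 := dt_le (L.hb y hy i) hr
  have e : L.g Y i - L.g y i = (L.g Y i - L.g y i - dt (L.h y i) (fun j => Y j - y j)) +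
      dt (L.h y i) (fun j => Y j - y j) := by ring
  rw [e]
  refine (abs_add_le _ _).trans ?_
  have e1 : dt (L.h y i) (fun j => Y j - y j) = ∑ j, L.h y i j * (Y j - y j) := rfl
  rw [← e1] at g1
  have g3 : C₁ * r ^ 2 ≤ C₁ * r := by
    have : r ^ 2 ≤ r := by nlinarith
    exact mul_le_mul_of_nonneg_left this (by linarith)
  have e2 : (k + 1) * C₁ * r = k * (C₁ * r) + C₁ * r := by ring
  rw [e2]
  linarith

theorem Dat.out2 (h : Dat p X S j D A B W y a b) {d : Ω → Fin k × (Fin k → ℤ)} {s : ℕ}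
    (hs : s < S) (h0 : ordr X j s = 2) {ω ω' : Ω} (hω : 0 < p ω) (hω' : 0 < p ω')
    (hr : rc0 X j y a (s + 1) ω = rc0 X j y a (s + 1) ω')
    (h1 : (d ω).2 (d ω).1 = 1) (h2 : ∀ l, |(((d ω).2 l : ℤ) : ℝ)| ≤ 1)
    (hh : ∀ i l, ⌊(2 : ℝ) ^ X * (b ω).h (y ω) i l⌋ = ⌊(2 : ℝ) ^ X * (b ω').h (y ω') i l⌋) :
    |(b ω).f (pnt X s (cel X y s ω) (etas X y d s ω)) -
      (b ω').f (pnt X s (cel X y s ω) (etas X y d s ω))| ≤ Ko k C₁ / 2 ^ (X + 2 * (s * X)) ∧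
    ∀ l, |(b ω).g (pnt X s (cel X y s ω) (etas X y d s ω)) l -
      (b ω').g (pnt X s (cel X y s ω) (etas X y d s ω)) l| ≤ Ko k C₁ / 2 ^ (X + s * X) := by
  obtain ⟨hs1, g1⟩ := ordr_two h0
  obtain ⟨c1, c2, c3⟩ := h.corner hs hω hω' hr
  have hC0 : 0 ≤ C₁ := by linarith [h.C1]
  have hk : (0 : ℝ) ≤ k := Nat.cast_nonneg k
  have hmin : min ((s + 1) * X) j = (s + 1) * X := min_eq_left g1
  rw [hmin] at c2 c3
  obtain ⟨Yc, hYc⟩ : ∃ Yc, Yc = crn X (s + 1) (cel X y (s + 1) ω) := ⟨_, rfl⟩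
  have hYcb : ∀ i, |Yc i| ≤ 3 := fun i => by rw [hYc]; exact h.cbox (s + 1) ω i
  have n1 : ∀ i, |Yc i - y ω i| ≤ 1 / 2 ^ ((s + 1) * X) := fun i => by
    rw [hYc]
    exact crn_near X y (s + 1) ω i
  have n2 : ∀ i, |Yc i - y ω' i| ≤ 1 / 2 ^ ((s + 1) * X) := fun i => by
    rw [hYc, c1]
    exact crn_near X y (s + 1) ω' i
  rw [← hYc] at c2 c3
  obtain ⟨Y, hY⟩ : ∃ Y, Y = pnt X s (cel X y s ω) (etas X y d s ω) := ⟨_, rfl⟩
  have hYb : ∀ l, |Y l| ≤ 3 := fun l => by rw [hY]; exact h.pbox hs1 h1 h2 l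
  have hsX' : (s + 1) * X = s * X + X := by ring
  have hYn : ∀ l, |Y l - Yc l| ≤ 4 * (1 / 2 ^ (s * X)) := fun l => by
    have g2 := pnt_near (X := X) (y := y) (s := s) h1 h2 l
    rw [← hY] at g2
    have g3 := n1 l
    have g4 : (1 : ℝ) / 2 ^ ((s + 1) * X) ≤ 1 / 2 ^ (s * X) := pow_le_of (by omega)
    have e : Y l - Yc l = (Y l - y ω l) - (Yc l - y ω l) := by ring
    rw [e]
    refine (abs_sub _ _).trans ?_
    linarith
  have key := same_f h.C1 (b ω) (b ω') (h.ybox ω) (h.ybox ω') hYcb hYb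
    (h := 1 / 2 ^ (s * X)) (D := 1 / 2 ^ ((s + 1) * X)) (by positivity) (by
      have := pow_le_of (Nat.zero_le (s * X))
      simpa using this) (by positivity) n1 n2 hYn c2 c3 (h0' := 1 / 2 ^ X)
    (fun i l => floor_same (hh i l))
  rw [← hY]
  obtain ⟨hh', hhh⟩ : ∃ h : ℝ, h = 1 / 2 ^ (s * X) := ⟨_, rfl⟩
  obtain ⟨ε, hε⟩ : ∃ h : ℝ, h = 1 / 2 ^ X := ⟨_, rfl⟩
  have e1 : (1 : ℝ) / 2 ^ ((s + 1) * X) = hh' * ε := by rw [hhh, hε, hp_mul, hsX']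
  have e2 : (2 * Kc k C₁ + 1) / (2 : ℝ) ^ ((s + 1) * X + (s + 1) * X) =
      (2 * Kc k C₁ + 1) * (hh' * ε * (hh' * ε)) := by
    rw [← e1, hp_mul]
    ring
  have e3 : (2 * Kc k C₁ + 1) / (2 : ℝ) ^ ((s + 1) * X) = (2 * Kc k C₁ + 1) * (hh' * ε) := by
    rw [← e1]
    ring
  rw [e1, e2, e3, ← hhh, ← hε] at key
  have hh0 : 0 ≤ hh' := by rw [hhh]; positivity
  have hε0 : 0 ≤ ε := by rw [hε]; positivity
  have hε1 : ε ≤ 1 := by
    rw [hε]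
    have := pow_le_of (Nat.zero_le X)
    simpa using this
  have hhε : hh' ≤ ε := by
    rw [hhh, hε]
    refine pow_le_of ?_
    nlinarith
  have e4 : Ko k C₁ / 2 ^ (X + 2 * (s * X)) = Ko k C₁ * (hh' * hh' * ε) := by
    rw [hhh, hε, hp_mul, hp_mul]
    have : s * X + s * X + X = X + 2 * (s * X) := by ring
    rw [this]
    ring
  have e5 : Ko k C₁ / 2 ^ (X + s * X) = Ko k C₁ * (hh' * ε) := by
    rw [hhh, hε, hp_mul]
    have : s * X + X = X + s * X := by ring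
    rw [this]
    ring
  rw [e4, e5]
  have hKc0 : 0 ≤ Kc k C₁ := by linarith [(Kc_ge (k := k) h.C1).1]
  obtain ⟨Q, hQ⟩ : ∃ Q : ℝ, Q = 2 * Kc k C₁ + 1 := ⟨_, rfl⟩
  rw [← hQ] at key
  have hQ0 : 0 ≤ Q := by rw [hQ]; linarith
  have hKo : Ko k C₁ = Q * (1 + 4 * k) + 32 * (k * k) * (1 + C₁) + 128 * C₁ +
      4 * k * (1 + 2 * (k + 1) * C₁) + 4 * k * (1 + 2 * C₁) := by
    rw [hQ]
    rfl
  have hh1 : hh' ≤ 1 := hhε.trans hε1
  obtain ⟨T, hT⟩ : ∃ T, T = hh' * hh' * ε := ⟨_, rfl⟩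
  have hT0 : 0 ≤ T := by rw [hT]; positivity
  obtain ⟨U, hU⟩ : ∃ U, U = hh' * ε := ⟨_, rfl⟩
  have hU0 : 0 ≤ U := by rw [hU]; positivity
  constructor
  · refine key.1.trans ?_
    have t1 : Q * (hh' * ε * (hh' * ε)) ≤ Q * T := by
      refine mul_le_mul_of_nonneg_left ?_ hQ0
      have : hh' * ε * (hh' * ε) = T * ε := by rw [hT]; ring
      rw [this]
      exact mul_le_of_le_one_right hT0 hε1
    have t2 : 4 * k * (Q * (hh' * ε) * hh') = 4 * k * Q * T := by rw [hT]; ring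
    have t3 : 8 * (k * k) * (ε + 2 * (C₁ * (hh' * ε))) * (hh' * hh') ≤
        8 * (k * k) * (1 + 2 * C₁) * T := by
      have e6 : 8 * (k * k : ℝ) * (ε + 2 * (C₁ * (hh' * ε))) * (hh' * hh') =
          8 * (k * k) * (T + 2 * (C₁ * (T * hh'))) := by rw [hT]; ring
      have e7 : 8 * (k * k : ℝ) * (1 + 2 * C₁) * T = 8 * (k * k) * (T + 2 * (C₁ * T)) := by ring
      rw [e6, e7]
      refine mul_le_mul_of_nonneg_left ?_ (by positivity)
      have := mul_le_mul_of_nonneg_left (mul_le_of_le_one_right hT0 hh1) hC0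
      linarith
    have t4 : 128 * C₁ * (hh' * hh' * hh') ≤ 128 * C₁ * T := by
      refine mul_le_mul_of_nonneg_left ?_ (by positivity)
      rw [hT]
      exact mul_le_mul_of_nonneg_left hhε (mul_nonneg hh0 hh0)
    have t5 : (Ko k C₁) * T = Q * T + 4 * k * Q * T + 8 * (k * k) * (1 + 2 * C₁) * T + 128 * C₁ * T +
        (8 * (k * k) * (3 + 2 * C₁) + 4 * k * (1 + 2 * (k + 1) * C₁) + 4 * k * (1 + 2 * C₁)) *
          T := by
      rw [hKo]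
      ring
    have t6 : 0 ≤ (8 * (k * k) * (3 + 2 * C₁) + 4 * k * (1 + 2 * (k + 1) * C₁) +
        4 * k * (1 + 2 * C₁)) * T := by positivity
    rw [show Ko k C₁ * (hh' * hh' * ε) = Ko k C₁ * T by rw [hT], t5]
    linarith
  · intro l
    refine (key.2 l).trans ?_
    have t1 : 4 * k * (ε + 2 * (C₁ * (hh' * ε))) * hh' ≤ 4 * k * (1 + 2 * C₁) * U := by
      have e6 : 4 * (k : ℝ) * (ε + 2 * (C₁ * (hh' * ε))) * hh' =
          4 * k * (U + 2 * (C₁ * (U * hh'))) := by rw [hU]; ring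
      have e7 : 4 * (k : ℝ) * (1 + 2 * C₁) * U = 4 * k * (U + 2 * (C₁ * U)) := by ring
      rw [e6, e7]
      refine mul_le_mul_of_nonneg_left ?_ (by positivity)
      have := mul_le_mul_of_nonneg_left (mul_le_of_le_one_right hU0 hh1) hC0
      linarith
    have t2 : 32 * C₁ * (hh' * hh') ≤ 32 * C₁ * U := by
      refine mul_le_mul_of_nonneg_left ?_ (by positivity)
      rw [hU]
      exact mul_le_mul_of_nonneg_left hhε hh0
    have t5 : (Ko k C₁) * U = Q * U + 4 * k * (1 + 2 * C₁) * U + 32 * C₁ * U +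
        (4 * k * Q + 32 * (k * k) * (1 + C₁) + 96 * C₁ + 4 * k * (1 + 2 * (k + 1) * C₁)) * U := by
      rw [hKo]
      ring
    have t6 : 0 ≤ (4 * k * Q + 32 * (k * k) * (1 + C₁) + 96 * C₁ +
        4 * k * (1 + 2 * (k + 1) * C₁)) * U := by positivity
    have t0 : Q * (hh' * ε) = Q * U := by rw [hU]
    rw [show Ko k C₁ * (hh' * ε) = Ko k C₁ * U by rw [hU], t5]
    linarith

theorem Dat.out1 (h : Dat p X S j D A B W y a b) {d : Ω → Fin k × (Fin k → ℤ)} {s : ℕ}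
    (hs : s < S) (h0 : ordr X j s = 1) {ω ω' : Ω} (hω : 0 < p ω) (hω' : 0 < p ω')
    (hr : rc0 X j y a (s + 1) ω = rc0 X j y a (s + 1) ω')
    (h1 : (d ω).2 (d ω).1 = 1) (h2 : ∀ l, |(((d ω).2 l : ℤ) : ℝ)| ≤ 1)
    (hg : ∀ i, ⌊(2 : ℝ) ^ (j + X) * (b ω).g (y ω) i⌋ = ⌊(2 : ℝ) ^ (j + X) * (b ω').g (y ω') i⌋) :
    |(b ω).f (pnt X s (cel X y s ω) (etas X y d s ω)) -
      (b ω').f (pnt X s (cel X y s ω) (etas X y d s ω))| ≤ Ko k C₁ / 2 ^ (X + j + s * X) := by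
  have g1 := ordr_one h0
  have hX := h.hX
  have hs1 : 1 ≤ s := by
    rcases Nat.eq_zero_or_pos s with h3 | h3
    · rw [h3] at g1
      omega
    · exact h3
  obtain ⟨c1, c2, c3⟩ := h.corner hs hω hω' hr
  have hC0 : 0 ≤ C₁ := by linarith [h.C1]
  have hk : (0 : ℝ) ≤ k := Nat.cast_nonneg k
  have hsX' : (s + 1) * X = s * X + X := by ring
  have hmin : min ((s + 1) * X) j = j := min_eq_right (by omega)
  rw [hmin] at c2
  obtain ⟨Yc, hYc⟩ : ∃ Yc, Yc = crn X (s + 1) (cel X y (s + 1) ω) := ⟨_, rfl⟩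
  have hYcb : ∀ i, |Yc i| ≤ 3 := fun i => by rw [hYc]; exact h.cbox (s + 1) ω i
  have n1 : ∀ i, |Yc i - y ω i| ≤ 1 / 2 ^ ((s + 1) * X) := fun i => by
    rw [hYc]
    exact crn_near X y (s + 1) ω i
  have n2 : ∀ i, |Yc i - y ω' i| ≤ 1 / 2 ^ ((s + 1) * X) := fun i => by
    rw [hYc, c1]
    exact crn_near X y (s + 1) ω' i
  rw [← hYc] at c2
  obtain ⟨Y, hY⟩ : ∃ Y, Y = pnt X s (cel X y s ω) (etas X y d s ω) := ⟨_, rfl⟩
  have hYb : ∀ l, |Y l| ≤ 3 := fun l => by rw [hY]; exact h.pbox hs1 h1 h2 l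
  have hYn : ∀ l, |Y l - Yc l| ≤ 4 * (1 / 2 ^ (s * X)) := fun l => by
    have g2 := pnt_near (X := X) (y := y) (s := s) h1 h2 l
    rw [← hY] at g2
    have g3 := n1 l
    have g4 : (1 : ℝ) / 2 ^ ((s + 1) * X) ≤ 1 / 2 ^ (s * X) := pow_le_of (by omega)
    have e : Y l - Yc l = (Y l - y ω l) - (Yc l - y ω l) := by ring
    rw [e]
    refine (abs_sub _ _).trans ?_
    linarith
  have D1 : (1 : ℝ) / 2 ^ ((s + 1) * X) ≤ 1 := by
    have := pow_le_of (Nat.zero_le ((s + 1) * X))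
    simpa using this
  -- the gradients at the corner
  have c4 : ∀ i, |(b ω).g Yc i - (b ω').g Yc i| ≤
      1 / 2 ^ (j + X) + 2 * ((k + 1) * C₁ * (1 / 2 ^ ((s + 1) * X))) := by
    intro i
    have m1 := grad_move h.C1 (b ω) (h.ybox ω) hYcb (by positivity) D1 n1 i
    have m2 := grad_move h.C1 (b ω') (h.ybox ω') hYcb (by positivity) D1 n2 i
    have m3 := floor_same (hg i)
    have e : (b ω).g Yc i - (b ω').g Yc i = ((b ω).g Yc i - (b ω).g (y ω) i) +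
        ((b ω).g (y ω) i - (b ω').g (y ω') i) - ((b ω').g Yc i - (b ω').g (y ω') i) := by ring
    rw [e]
    refine (abs_sub _ _).trans ?_
    have g2 := abs_add_le ((b ω).g Yc i - (b ω).g (y ω) i) ((b ω).g (y ω) i - (b ω').g (y ω') i)
    linarith
  have key := (same_f h.C1 (b ω) (b ω') (h.ybox ω) (h.ybox ω') hYcb hYb
    (h := 1 / 2 ^ (s * X)) (D := 1 / 2 ^ ((s + 1) * X)) (by positivity) (by
      have := pow_le_of (Nat.zero_le (s * X))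
      simpa using this) (by positivity) n1 n2 hYn c2 c4 (h0' := 2 * C₁)
    (fun i l => by
      refine (abs_sub _ _).trans ?_
      linarith [(b ω).hb _ (h.ybox ω) i l, (b ω').hb _ (h.ybox ω') i l])).1
  rw [← hY]
  obtain ⟨hh', hhh⟩ : ∃ h : ℝ, h = 1 / 2 ^ (s * X) := ⟨_, rfl⟩
  obtain ⟨ε, hε⟩ : ∃ h : ℝ, h = 1 / 2 ^ X := ⟨_, rfl⟩
  obtain ⟨κ, hκ⟩ : ∃ h : ℝ, h = 1 / 2 ^ j := ⟨_, rfl⟩
  have e1 : (1 : ℝ) / 2 ^ ((s + 1) * X) = hh' * ε := by rw [hhh, hε, hp_mul, hsX']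
  have e2 : (2 * Kc k C₁ + 1) / (2 : ℝ) ^ ((s + 1) * X + j) =
      (2 * Kc k C₁ + 1) * (κ * hh' * ε) := by
    rw [hhh, hε, hκ, hp_mul, hp_mul]
    have : (s + 1) * X + j = j + s * X + X := by rw [hsX']; ring
    rw [this]
    ring
  have e3 : (1 : ℝ) / 2 ^ (j + X) = κ * ε := by rw [hκ, hε, hp_mul]
  rw [e1, e2, e3, ← hhh] at key
  have hh0 : 0 ≤ hh' := by rw [hhh]; positivity
  have hε0 : 0 ≤ ε := by rw [hε]; positivity
  have hκ0 : 0 ≤ κ := by rw [hκ]; positivity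
  have hε1 : ε ≤ 1 := by
    rw [hε]
    have := pow_le_of (Nat.zero_le X)
    simpa using this
  have hκ1 : κ ≤ 1 := by
    rw [hκ]
    have := pow_le_of (Nat.zero_le j)
    simpa using this
  have hhε : hh' ≤ κ * ε := by
    rw [hhh, hε, hκ, hp_mul]
    exact pow_le_of g1
  have e4 : Ko k C₁ / 2 ^ (X + j + s * X) = Ko k C₁ * (κ * hh' * ε) := by
    rw [hhh, hε, hκ, hp_mul, hp_mul]
    have : j + s * X + X = X + j + s * X := by ring
    rw [this]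
    ring
  rw [e4]
  have hKc0 : 0 ≤ Kc k C₁ := by linarith [(Kc_ge (k := k) h.C1).1]
  obtain ⟨Q, hQ⟩ : ∃ Q : ℝ, Q = 2 * Kc k C₁ + 1 := ⟨_, rfl⟩
  rw [← hQ] at key
  have hQ0 : 0 ≤ Q := by rw [hQ]; linarith
  have hKo : Ko k C₁ = Q * (1 + 4 * k) + 32 * (k * k) * (1 + C₁) + 128 * C₁ +
      4 * k * (1 + 2 * (k + 1) * C₁) + 4 * k * (1 + 2 * C₁) := by
    rw [hQ]
    rfl
  have hh1 : hh' ≤ 1 := hhε.trans (by nlinarith)
  obtain ⟨T, hT⟩ : ∃ T, T = κ * hh' * ε := ⟨_, rfl⟩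
  have hT0 : 0 ≤ T := by rw [hT]; positivity
  have hhT : hh' * hh' ≤ T := by
    have := mul_le_mul_of_nonneg_left hhε hh0
    rw [hT]
    linarith
  refine key.trans ?_
  have t2 : 4 * k * ((κ * ε + 2 * ((k + 1) * C₁ * (hh' * ε))) * hh') ≤
      4 * k * (1 + 2 * (k + 1) * C₁) * T := by
    have e6 : 4 * (k : ℝ) * ((κ * ε + 2 * ((k + 1) * C₁ * (hh' * ε))) * hh') =
        4 * k * (T + 2 * (k + 1) * C₁ * (hh' * hh' * ε)) := by rw [hT]; ring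
    have e7 : 4 * (k : ℝ) * (1 + 2 * (k + 1) * C₁) * T =
        4 * k * (T + 2 * (k + 1) * C₁ * T) := by ring
    rw [e6, e7]
    refine mul_le_mul_of_nonneg_left ?_ (by positivity)
    have g2 : hh' * hh' * ε ≤ T := (mul_le_of_le_one_right (mul_nonneg hh0 hh0) hε1).trans hhT
    have := mul_le_mul_of_nonneg_left g2 (show 0 ≤ 2 * ((k : ℝ) + 1) * C₁ by positivity)
    linarith
  have t3 : 8 * (k * k) * (2 * C₁ + 2 * (C₁ * (hh' * ε))) * (hh' * hh') ≤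
      8 * (k * k) * (4 * C₁) * T := by
    have g2 : 2 * C₁ + 2 * (C₁ * (hh' * ε)) ≤ 4 * C₁ := by
      have : C₁ * (hh' * ε) ≤ C₁ * 1 :=
        mul_le_mul_of_nonneg_left (by nlinarith) hC0
      linarith
    have g3 : (2 * C₁ + 2 * (C₁ * (hh' * ε))) * (hh' * hh') ≤ 4 * C₁ * T :=
      mul_le_mul g2 hhT (mul_nonneg hh0 hh0) (by positivity)
    have := mul_le_mul_of_nonneg_left g3 (show 0 ≤ 8 * ((k : ℝ) * k) by positivity)
    linarith
  have t4 : 128 * C₁ * (hh' * hh' * hh') ≤ 128 * C₁ * T := by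
    refine mul_le_mul_of_nonneg_left ?_ (by positivity)
    exact (mul_le_of_le_one_right (mul_nonneg hh0 hh0) hh1).trans hhT
  have t5 : (Ko k C₁) * T = Q * T + 4 * k * (1 + 2 * (k + 1) * C₁) * T +
      8 * (k * k) * (4 * C₁) * T + 128 * C₁ * T +
      (4 * k * Q + 32 * (k * k) + 4 * k * (1 + 2 * C₁)) * T := by
    rw [hKo]
    ring
  have t6 : 0 ≤ (4 * k * Q + 32 * (k * k) + 4 * k * (1 + 2 * C₁)) * T := by positivity
  have t0 : Q * (κ * hh' * ε) = Q * T := by rw [hT]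
  rw [show Ko k C₁ * (κ * hh' * ε) = Ko k C₁ * T by rw [hT], t5]
  linarith

end Pool.XBG
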