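import Pool.Agent.H81.XF.Geo

/-!
# Curved leaves over a base: Taylor expansions

`Lf k C₁` is a leaf over `k` coordinates: a function with gradient and Hessian and the Taylor
inequalities on the box `|Y i| ≤ 3`. `h`, `ε`, `κ` are the size of the block, the precision in the
block, the precision of the slope.
-/

set_option autoImplicit false

namespace Pool.XBG

open Finset Real Pool.XF

/-- A leaf over `k` coordinates. -/
structure Lf (k : ℕ) (C₁ : ℝ) where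
  /-- the height -/
  f : (Fin k → ℝ) → ℝ
  /-- the gradient -/
  g : (Fin k → ℝ) → Fin k → ℝ
  /-- the Hessian -/
  h : (Fin k → ℝ) → Fin k → Fin k → ℝ
  hb : ∀ Y : Fin k → ℝ, (∀ i, |Y i| ≤ 3) → ∀ i j, |h Y i j| ≤ C₁
  sym : ∀ (Y : Fin k → ℝ) (i j), h Y i j = h Y j i
  tf : ∀ Y Y' : Fin k → ℝ, (∀ i, |Y i| ≤ 3) → (∀ i, |Y' i| ≤ 3) → ∀ r : ℝ,
    (∀ i, |Y' i - Y i| ≤ r) → |f Y' - f Y - ∑ i, g Y i * (Y' i - Y i) -
      (∑ i, ∑ j, h Y i j * (Y' i - Y i) * (Y' j - Y j)) / 2| ≤ C₁ * r ^ 3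
  tg : ∀ Y Y' : Fin k → ℝ, (∀ i, |Y i| ≤ 3) → (∀ i, |Y' i| ≤ 3) → ∀ r : ℝ,
    (∀ i, |Y' i - Y i| ≤ r) → ∀ i, |g Y' i - g Y i - ∑ j, h Y i j * (Y' j - Y j)| ≤ C₁ * r ^ 2
  th : ∀ Y Y' : Fin k → ℝ, (∀ i, |Y i| ≤ 3) → (∀ i, |Y' i| ≤ 3) → ∀ r : ℝ,
    (∀ i, |Y' i - Y i| ≤ r) → ∀ i j, |h Y' i j - h Y i j| ≤ C₁ * r

variable {k : ℕ} {C₁ : ℝ}

/-- The bilinear form. -/
def qf (β : Fin k → Fin k → ℝ) (u v : Fin k → ℝ) : ℝ := ∑ i, ∑ j, β i j * u i * v j

/-- The scalar product. -/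
def dt (α u : Fin k → ℝ) : ℝ := ∑ i, α i * u i

theorem dt_le {α u : Fin k → ℝ} {A U : ℝ} (h1 : ∀ i, |α i| ≤ A) (h2 : ∀ i, |u i| ≤ U) :
    |dt α u| ≤ k * (A * U) := by
  unfold dt
  refine (Finset.abs_sum_le_sum_abs _ _).trans ?_
  have : ∑ i : Fin k, |α i * u i| ≤ ∑ _i : Fin k, A * U :=
    Finset.sum_le_sum fun i _ => abs_mul_le (h1 i) (h2 i)
  refine this.trans (le_of_eq ?_)
  rw [Finset.sum_const, Finset.card_univ, Fintype.card_fin, nsmul_eq_mul]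

theorem qf_eq (β : Fin k → Fin k → ℝ) (u v : Fin k → ℝ) :
    qf β u v = dt u (fun i => dt (β i) v) := by
  unfold qf dt
  refine Finset.sum_congr rfl fun i _ => ?_
  rw [Finset.mul_sum]
  exact Finset.sum_congr rfl fun j _ => by ring

theorem qf_le {β : Fin k → Fin k → ℝ} {u v : Fin k → ℝ} {B U V : ℝ} (h1 : ∀ i j, |β i j| ≤ B)
    (h2 : ∀ i, |u i| ≤ U) (h3 : ∀ i, |v i| ≤ V) : |qf β u v| ≤ k * (U * (k * (B * V))) := by
  rw [qf_eq]
  exact dt_le h2 fun i => dt_le (h1 i) h3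

theorem dt_sub (α u v : Fin k → ℝ) : dt α (fun i => u i - v i) = dt α u - dt α v := by
  unfold dt
  rw [← Finset.sum_sub_distrib]
  exact Finset.sum_congr rfl fun i _ => by ring

theorem dt_lin (α u v : Fin k → ℝ) (c z : ℝ) :
    dt α (fun i => c * (z * u i + v i)) = c * (z * dt α u + dt α v) := by
  unfold dt
  rw [Finset.mul_sum (f := fun i => α i * u i), ← Finset.sum_add_distrib, Finset.mul_sum]
  exact Finset.sum_congr rfl fun i _ => by ring

theorem qf_lin (β : Fin k → Fin k → ℝ) (u v : Fin k → ℝ) (c z : ℝ) :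
    qf β (fun i => c * (z * u i + v i)) (fun i => c * (z * u i + v i)) =
      c ^ 2 * (z ^ 2 * qf β u u + z * qf β u v + z * qf β v u + qf β v v) := by
  have e1 : ∀ w w' : Fin k → ℝ, qf β w w' = ∑ q : Fin k × Fin k, β q.1 q.2 * w q.1 * w' q.2 := by
    intro w w'
    unfold qf
    rw [Fintype.sum_prod_type]
  rw [e1, e1, e1, e1, e1, Finset.mul_sum, Finset.mul_sum, Finset.mul_sum, ← Finset.sum_add_distrib,
    ← Finset.sum_add_distrib, ← Finset.sum_add_distrib, Finset.mul_sum]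
  exact Finset.sum_congr rfl fun q _ => by ring

/-! ## The difference of two leaves -/

theorem dif_f (L L' : Lf k C₁) {y Y : Fin k → ℝ} (hy : ∀ i, |y i| ≤ 3) (hY : ∀ i, |Y i| ≤ 3)
    {r : ℝ} (hr : ∀ i, |Y i - y i| ≤ r) : |(L.f Y - L'.f Y) - (L.f y - L'.f y) -
      dt (fun i => L.g y i - L'.g y i) (fun i => Y i - y i) -
      qf (fun i j => L.h y i j - L'.h y i j) (fun i => Y i - y i) (fun i => Y i - y i) / 2| ≤
      2 * C₁ * r ^ 3 := by
  have h1 := L.tf y Y hy hY r hr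
  have h2 := L'.tf y Y hy hY r hr
  have e1 : dt (fun i => L.g y i - L'.g y i) (fun i => Y i - y i) =
      ∑ i, L.g y i * (Y i - y i) - ∑ i, L'.g y i * (Y i - y i) := by
    unfold dt
    rw [← Finset.sum_sub_distrib]
    exact Finset.sum_congr rfl fun i _ => by ring
  have e2 : qf (fun i j => L.h y i j - L'.h y i j) (fun i => Y i - y i) (fun i => Y i - y i) =
      (∑ i, ∑ j, L.h y i j * (Y i - y i) * (Y j - y j)) -
        ∑ i, ∑ j, L'.h y i j * (Y i - y i) * (Y j - y j) := by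
    unfold qf
    rw [← Finset.sum_sub_distrib]
    refine Finset.sum_congr rfl fun i _ => ?_
    rw [← Finset.sum_sub_distrib]
    exact Finset.sum_congr rfl fun j _ => by ring
  rw [e1, e2]
  have e3 : ∀ a a' b b' c c' d d' : ℝ, (a - a') - (b - b') - (c - c') - (d - d') / 2 =
      (a - b - c - d / 2) - (a' - b' - c' - d' / 2) := by
    intro a a' b b' c c' d d'
    ring
  rw [e3]
  refine (abs_sub _ _).trans ?_
  linarith

theorem dif_g (L L' : Lf k C₁) {y Y : Fin k → ℝ} (hy : ∀ i, |y i| ≤ 3) (hY : ∀ i, |Y i| ≤ 3)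
    {r : ℝ} (hr : ∀ i, |Y i - y i| ≤ r) (i : Fin k) : |(L.g Y i - L'.g Y i) -
      (L.g y i - L'.g y i) - dt (fun j => L.h y i j - L'.h y i j) (fun j => Y j - y j)| ≤
      2 * C₁ * r ^ 2 := by
  have h1 := L.tg y Y hy hY r hr i
  have h2 := L'.tg y Y hy hY r hr i
  have e1 : dt (fun j => L.h y i j - L'.h y i j) (fun j => Y j - y j) =
      ∑ j, L.h y i j * (Y j - y j) - ∑ j, L'.h y i j * (Y j - y j) := by
    unfold dt
    rw [← Finset.sum_sub_distrib]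
    exact Finset.sum_congr rfl fun i _ => by ring
  rw [e1]
  have e3 : ∀ a a' b b' c c' : ℝ, (a - a') - (b - b') - (c - c') =
      (a - b - c) - (a' - b' - c') := by
    intro a a' b b' c c'
    ring
  rw [e3]
  refine (abs_sub _ _).trans ?_
  linarith

theorem dif_hb (L L' : Lf k C₁) {y : Fin k → ℝ} (hy : ∀ i, |y i| ≤ 3) (i j : Fin k) :
    |L.h y i j - L'.h y i j| ≤ 2 * C₁ := by
  refine (abs_sub _ _).trans ?_
  linarith [L.hb y hy i j, L'.hb y hy i j]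

/-- The constant. -/
noncomputable def Kc (k : ℕ) (C₁ : ℝ) : ℝ := 200 * ((k : ℝ) + 1) ^ 2 * C₁

/-- The difference near the point. -/
theorem near_f (hC : 1 ≤ C₁) (L L' : Lf k C₁) {y Y : Fin k → ℝ} (hy : ∀ i, |y i| ≤ 3)
    (hY : ∀ i, |Y i| ≤ 3) {h κ m : ℝ} (h1 : h ≤ 1) (hr : ∀ i, |Y i - y i| ≤ h) (hκ0 : 0 ≤ κ)
    (h0 : 0 ≤ h) (hm : h ≤ m) (hκ : κ ≤ m) (d0 : |L.f y - L'.f y| ≤ h * m)
    (dg : ∀ i, |L.g y i - L'.g y i| ≤ κ) :
    |L.f Y - L'.f Y| ≤ Kc k C₁ * (h * m) ∧ ∀ i, |L.g Y i - L'.g Y i| ≤ Kc k C₁ * m := by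
  have hk : (0 : ℝ) ≤ k := Nat.cast_nonneg k
  have hm0 : 0 ≤ m := h0.trans hm
  have hC0 : 0 ≤ C₁ := by linarith
  obtain ⟨K, hK⟩ : ∃ K : ℝ, K = ((k : ℝ) + 1) ^ 2 * C₁ := ⟨_, rfl⟩
  have hKc : Kc k C₁ = 200 * K := by
    rw [hK]
    unfold Kc
    ring
  have K1 : 1 ≤ K := by
    rw [hK]
    nlinarith
  have Kk : (k : ℝ) ≤ K := by
    rw [hK]
    nlinarith [mul_nonneg hk hC0]
  have KC : C₁ ≤ K := by
    rw [hK]
    nlinarith [mul_nonneg hk hC0, mul_nonneg (mul_nonneg hk hk) hC0]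
  have KkC : k * C₁ ≤ K := by
    rw [hK]
    nlinarith [mul_nonneg hk hC0, mul_nonneg (mul_nonneg hk hk) hC0]
  have KkkC : k * (k * C₁) ≤ K := by
    rw [hK]
    nlinarith [mul_nonneg hk hC0, mul_nonneg (mul_nonneg hk hk) hC0]
  have hhm : 0 ≤ h * m := mul_nonneg h0 hm0
  constructor
  · have a1 := dif_f L L' hy hY hr
    have a2 := dt_le (α := fun i => L.g y i - L'.g y i) dg hr
    have a3 := qf_le (β := fun i j => L.h y i j - L'.h y i j) (dif_hb L L' hy) hr hr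
    obtain ⟨P, hP⟩ : ∃ P, P = dt (fun i => L.g y i - L'.g y i) (fun i => Y i - y i) := ⟨_, rfl⟩
    obtain ⟨Q, hQ⟩ : ∃ Q, Q = qf (fun i j => L.h y i j - L'.h y i j) (fun i => Y i - y i)
      (fun i => Y i - y i) := ⟨_, rfl⟩
    rw [← hP] at a1 a2
    rw [← hQ] at a1 a3
    have e : L.f Y - L'.f Y = ((L.f Y - L'.f Y) - (L.f y - L'.f y) - P - Q / 2) +
        (L.f y - L'.f y) + P + Q / 2 := by ring
    have b1 : |Q / 2| ≤ k * (k * C₁) * (h * h) := by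
      rw [abs_div, abs_of_pos (by norm_num : (0 : ℝ) < 2), div_le_iff₀ (by norm_num)]
      refine a3.trans (le_of_eq ?_)
      ring
    have b2 : h * h ≤ h * m := mul_le_mul_of_nonneg_left hm h0
    have b3 : h ^ 3 ≤ h * m := by
      have : h ^ 3 = h * h * h := by ring
      rw [this]
      nlinarith [mul_nonneg h0 h0]
    have b4 : κ * h ≤ h * m := by
      rw [mul_comm]
      exact mul_le_mul_of_nonneg_left hκ h0
    have c1 : k * (κ * h) ≤ K * (h * m) := mul_le_mul Kk b4 (mul_nonneg hκ0 h0) (by linarith)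
    have c2 : k * (k * C₁) * (h * h) ≤ K * (h * m) :=
      mul_le_mul KkkC b2 (mul_nonneg h0 h0) (by linarith)
    have c3 : C₁ * h ^ 3 ≤ K * (h * m) := mul_le_mul KC b3 (by positivity) (by linarith)
    have c4 : h * m ≤ K * (h * m) := le_mul_of_one_le_left hhm K1
    rw [e]
    refine (abs_add_le _ _).trans ?_
    have g1 := abs_add_le ((L.f Y - L'.f Y) - (L.f y - L'.f y) - P - Q / 2 +
        (L.f y - L'.f y)) P
    have g2 := abs_add_le ((L.f Y - L'.f Y) - (L.f y - L'.f y) - P - Q / 2) (L.f y - L'.f y)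
    rw [hKc]
    have c5 : 0 ≤ K * (h * m) := mul_nonneg (by linarith) hhm
    linarith
  · intro i
    have a1 := dif_g L L' hy hY hr i
    have a2 := dt_le (α := fun j => L.h y i j - L'.h y i j) (dif_hb L L' hy i) hr
    obtain ⟨P, hP⟩ : ∃ P, P = dt (fun j => L.h y i j - L'.h y i j) (fun j => Y j - y j) := ⟨_, rfl⟩
    rw [← hP] at a1 a2
    have e : L.g Y i - L'.g Y i = ((L.g Y i - L'.g Y i) - (L.g y i - L'.g y i) - P) +
        (L.g y i - L'.g y i) + P := by ring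
    have b1 : k * (2 * C₁ * h) ≤ 2 * (K * m) := by
      have : k * (2 * C₁ * h) = 2 * (k * C₁ * h) := by ring
      rw [this]
      have := mul_le_mul KkC hm h0 (by linarith : 0 ≤ K)
      linarith
    have b2 : 2 * C₁ * h ^ 2 ≤ 2 * (K * m) := by
      have b3 : h ^ 2 ≤ m := by nlinarith
      have := mul_le_mul KC b3 (by positivity) (by linarith : 0 ≤ K)
      linarith
    have b4 : m ≤ K * m := le_mul_of_one_le_left hm0 K1
    rw [e]
    refine (abs_add_le _ _).trans ?_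
    have g1 := abs_add_le ((L.g Y i - L'.g Y i) - (L.g y i - L'.g y i) - P) (L.g y i - L'.g y i)
    have g2 := dg i
    rw [hKc]
    have c5 : 0 ≤ K * m := mul_nonneg (by linarith) hm0
    linarith

/-- The block: the point `Y` is `y - h (z e + ρ)`. -/
theorem blk_pt {y Y e ρ : Fin k → ℝ} {h z ε : ℝ} (h0 : 0 ≤ h) (hz0 : 0 ≤ z) (hz1 : z ≤ 1)
    (hε : ε ≤ 1) (he : ∀ i, |e i| ≤ 1) (hρ : ∀ i, |ρ i| ≤ 2 * ε)
    (hY : ∀ i, Y i - y i = -h * (z * e i + ρ i)) (i : Fin k) : |Y i - y i| ≤ 3 * h := by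
  rw [hY i, abs_mul, abs_neg, abs_of_nonneg h0]
  have h1 : |z * e i + ρ i| ≤ 3 := by
    refine (abs_add_le _ _).trans ?_
    have g1 : |z * e i| ≤ 1 * 1 := abs_mul_le (by rw [abs_of_nonneg hz0]; exact hz1) (he i)
    linarith [hρ i]
  nlinarith

/-- **Order two**: the height. -/
theorem rel2_f (hC : 1 ≤ C₁) (L L' : Lf k C₁) {y Y e ρ : Fin k → ℝ} (hy : ∀ i, |y i| ≤ 3)
    (hYb : ∀ i, |Y i| ≤ 3) {h z ε κ : ℝ} (h0 : 0 ≤ h) (hz0 : 0 ≤ z) (hz1 : z ≤ 1) (hε0 : 0 ≤ ε)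
    (hε : ε ≤ 1) (he : ∀ i, |e i| ≤ 1) (hρ : ∀ i, |ρ i| ≤ 2 * ε)
    (hY : ∀ i, Y i - y i = -h * (z * e i + ρ i)) (hh : h ≤ ε) (hκ0 : 0 ≤ κ) (hκ : κ ≤ h * ε)
    (d0 : |L.f y - L'.f y| ≤ h * h * ε) (dg : ∀ i, |L.g y i - L'.g y i| ≤ κ) :
    |(L.f Y - L'.f Y) - h * h * (qf (fun i j => L.h y i j - L'.h y i j) e e / 2 * z ^ 2)| ≤
      Kc k C₁ * (h * h * ε) ∧
    |dt e (fun i => L.g Y i - L'.g Y i) +
      h * (2 * (qf (fun i j => L.h y i j - L'.h y i j) e e / 2) * z)| ≤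
      Kc k C₁ * (h * ε) := by
  have hk : (0 : ℝ) ≤ k := Nat.cast_nonneg k
  have hC0 : 0 ≤ C₁ := by linarith
  have h1 : h ≤ 1 := hh.trans hε
  obtain ⟨K, hK⟩ : ∃ K : ℝ, K = ((k : ℝ) + 1) ^ 2 * C₁ := ⟨_, rfl⟩
  have hKc : Kc k C₁ = 200 * K := by
    rw [hK]
    unfold Kc
    ring
  have K1 : 1 ≤ K := by
    rw [hK]
    nlinarith
  have Kk : (k : ℝ) ≤ K := by
    rw [hK]
    nlinarith [mul_nonneg hk hC0]
  have KC : C₁ ≤ K := by
    rw [hK]
    nlinarith [mul_nonneg hk hC0, mul_nonneg (mul_nonneg hk hk) hC0]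
  have KkC : k * C₁ ≤ K := by
    rw [hK]
    nlinarith [mul_nonneg hk hC0, mul_nonneg (mul_nonneg hk hk) hC0]
  have KkkC : k * (k * C₁) ≤ K := by
    rw [hK]
    nlinarith [mul_nonneg hk hC0, mul_nonneg (mul_nonneg hk hk) hC0]
  have hr := blk_pt h0 hz0 hz1 hε he hρ hY
  have hδ : (fun i => Y i - y i) = fun i => -h * (z * e i + ρ i) := funext hY
  obtain ⟨β, hβ⟩ : ∃ β : Fin k → Fin k → ℝ, β = fun i j => L.h y i j - L'.h y i j := ⟨_, rfl⟩
  have hβb : ∀ i j, |β i j| ≤ 2 * C₁ := fun i j => by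
    rw [hβ]
    exact dif_hb L L' hy i j
  -- the mixed terms
  have qb : ∀ {u v : Fin k → ℝ} {U V : ℝ}, (∀ i, |u i| ≤ U) → (∀ i, |v i| ≤ V) → 0 ≤ U → 0 ≤ V →
      |qf β u v| ≤ 2 * (K * (U * V)) := by
    intro u v U V hu hv hU hV
    refine (qf_le hβb hu hv).trans ?_
    have e1 : (k : ℝ) * (U * (k * (2 * C₁ * V))) = 2 * (k * (k * C₁) * (U * V)) := by ring
    rw [e1]
    have := mul_le_mul_of_nonneg_right KkkC (mul_nonneg hU hV)
    linarith
  have q1 := qb he hρ (by norm_num) (by linarith)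
  have q2 := qb hρ he (by linarith) (by norm_num)
  have q3 := qb hρ hρ (by linarith) (by linarith)
  have q0 := qb he he (by norm_num) (by norm_num)
  constructor
  · have a1 := dif_f L L' hy hYb hr
    rw [hδ, ← hβ, dt_lin, qf_lin] at a1
    have a2 := dt_le (α := fun i => L.g y i - L'.g y i) dg he
    have a3 := dt_le (α := fun i => L.g y i - L'.g y i) dg hρ
    rw [← hβ]
    obtain ⟨P, hP⟩ : ∃ P, P = dt (fun i => L.g y i - L'.g y i) e := ⟨_, rfl⟩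
    obtain ⟨P', hP'⟩ : ∃ P, P = dt (fun i => L.g y i - L'.g y i) ρ := ⟨_, rfl⟩
    rw [← hP, ← hP'] at a1
    rw [← hP] at a2
    rw [← hP'] at a3
    obtain ⟨Q, hQ⟩ : ∃ Q, Q = z * qf β e ρ + z * qf β ρ e + qf β ρ ρ := ⟨_, rfl⟩
    have e1 : (-h) ^ 2 * (z ^ 2 * qf β e e + z * qf β e ρ + z * qf β ρ e + qf β ρ ρ) =
        h * h * (z ^ 2 * qf β e e) + h * h * Q := by
      rw [hQ]
      ring
    rw [e1] at a1
    -- the bounds
    have zb : |z| ≤ 1 := by rw [abs_of_nonneg hz0]; exact hz1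
    have Qb : |Q| ≤ 16 * (K * ε) := by
      rw [hQ]
      have g1 : |z * qf β e ρ| ≤ 1 * (2 * (K * (1 * (2 * ε)))) := abs_mul_le zb q1
      have g2 : |z * qf β ρ e| ≤ 1 * (2 * (K * (2 * ε * 1))) := abs_mul_le zb q2
      have g3 := abs_add_le (z * qf β e ρ + z * qf β ρ e) (qf β ρ ρ)
      have g4 := abs_add_le (z * qf β e ρ) (z * qf β ρ e)
      have g5 : K * (2 * ε * (2 * ε)) ≤ 4 * (K * ε) := by
        have : K * (2 * ε * (2 * ε)) = 4 * (K * ε) * ε := by ring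
        rw [this]
        exact mul_le_of_le_one_right (by positivity) hε
      linarith
    have hhh : 0 ≤ h * h := mul_nonneg h0 h0
    have b1 : |h * h * Q / 2| ≤ 8 * (K * (h * h * ε)) := by
      rw [abs_div, abs_of_pos (by norm_num : (0 : ℝ) < 2), abs_mul, abs_of_nonneg hhh,
        div_le_iff₀ (by norm_num)]
      have := mul_le_mul_of_nonneg_left Qb hhh
      refine this.trans (le_of_eq ?_)
      ring
    have b2 : |-h * (z * P + P')| ≤ 3 * (K * (h * h * ε)) := by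
      rw [abs_mul, abs_neg, abs_of_nonneg h0]
      have g1 : |z * P| ≤ 1 * (k * (κ * 1)) := abs_mul_le zb a2
      have g2 := abs_add_le (z * P) P'
      have g3 : k * (κ * (2 * ε)) ≤ 2 * (k * κ) := by
        have : k * (κ * (2 * ε)) = 2 * (k * κ) * ε := by ring
        rw [this]
        exact mul_le_of_le_one_right (by positivity) hε
      have g4 : k * κ ≤ K * (h * ε) := mul_le_mul Kk hκ hκ0 (by linarith)
      have g5 : |z * P + P'| ≤ 3 * (K * (h * ε)) := by linarith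
      have := mul_le_mul_of_nonneg_left g5 h0
      refine this.trans (le_of_eq ?_)
      ring
    have b3 : 2 * C₁ * (3 * h) ^ 3 ≤ 54 * (K * (h * h * ε)) := by
      have e2 : 2 * C₁ * (3 * h) ^ 3 = 54 * (C₁ * (h * h * h)) := by ring
      rw [e2]
      have g1 : h * h * h ≤ h * h * ε := mul_le_mul_of_nonneg_left hh hhh
      have := mul_le_mul KC g1 (by positivity) (by linarith : 0 ≤ K)
      linarith
    have b4 : h * h * ε ≤ K * (h * h * ε) := le_mul_of_one_le_left (by positivity) K1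
    have e3 : (L.f Y - L'.f Y) - h * h * (qf β e e / 2 * z ^ 2) =
        ((L.f Y - L'.f Y) - (L.f y - L'.f y) - -h * (z * P + P') -
          (h * h * (z ^ 2 * qf β e e) + h * h * Q) / 2) + (L.f y - L'.f y) +
          -h * (z * P + P') + h * h * Q / 2 := by ring
    rw [e3]
    refine (abs_add_le _ _).trans ?_
    obtain ⟨R, hR⟩ : ∃ R, R = (L.f Y - L'.f Y) - (L.f y - L'.f y) - -h * (z * P + P') -
          (h * h * (z ^ 2 * qf β e e) + h * h * Q) / 2 := ⟨_, rfl⟩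
    rw [← hR] at a1 ⊢
    have g1 := abs_add_le (R + (L.f y - L'.f y)) (-h * (z * P + P'))
    have g2 := abs_add_le R (L.f y - L'.f y)
    rw [hKc]
    have c5 : 0 ≤ K * (h * h * ε) := by positivity
    linarith
  · -- the derivative
    have a1 : ∀ i, |(L.g Y i - L'.g Y i) - (L.g y i - L'.g y i) - -h * (z * dt (β i) e +
        dt (β i) ρ)| ≤ 18 * (C₁ * (h * ε)) := by
      intro i
      have := dif_g L L' hy hYb hr i
      rw [hδ, dt_lin] at this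
      have e1 : (fun j => L.h y i j - L'.h y i j) = β i := by rw [hβ]
      rw [e1] at this
      refine this.trans ?_
      have e2 : 2 * C₁ * (3 * h) ^ 2 = 18 * (C₁ * (h * h)) := by ring
      rw [e2]
      have g1 : h * h ≤ h * ε := mul_le_mul_of_nonneg_left hh h0
      have := mul_le_mul_of_nonneg_left g1 hC0
      linarith
    rw [← hβ]
    obtain ⟨R, hR⟩ : ∃ R : Fin k → ℝ, R = fun i => (L.g Y i - L'.g Y i) -
      (L.g y i - L'.g y i) - -h * (z * dt (β i) e + dt (β i) ρ) := ⟨_, rfl⟩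
    have hRb : ∀ i, |R i| ≤ 18 * (C₁ * (h * ε)) := fun i => by
      rw [hR]
      exact a1 i
    have e1 : dt e (fun i => L.g Y i - L'.g Y i) = dt e R + dt e (fun i => L.g y i - L'.g y i) +
        -h * (z * qf β e e + qf β e ρ) := by
      rw [qf_eq, qf_eq, hR]
      unfold dt
      have e2 : z * ∑ i, e i * ∑ j, β i j * e j + ∑ i, e i * ∑ j, β i j * ρ j =
          ∑ i, (z * (e i * ∑ j, β i j * e j) + e i * ∑ j, β i j * ρ j) := by
        rw [Finset.sum_add_distrib, Finset.mul_sum (a := z)]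
      rw [e2, Finset.mul_sum (a := -h), ← Finset.sum_add_distrib, ← Finset.sum_add_distrib]
      exact Finset.sum_congr rfl fun i _ => by ring
    have a2 := dt_le he hRb
    have a3 := dt_le he dg
    have c1 : (k : ℝ) * (1 * (18 * (C₁ * (h * ε)))) ≤ 18 * (K * (h * ε)) := by
      have e2 : (k : ℝ) * (1 * (18 * (C₁ * (h * ε)))) = 18 * (k * C₁ * (h * ε)) := by ring
      rw [e2]
      have := mul_le_mul_of_nonneg_right KkC (show 0 ≤ h * ε by positivity)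
      linarith
    have c2 : (k : ℝ) * (1 * κ) ≤ K * (h * ε) := by
      rw [one_mul]
      exact mul_le_mul Kk hκ hκ0 (by linarith)
    have c3 : |-h * qf β e ρ| ≤ 4 * (K * (h * ε)) := by
      rw [abs_mul, abs_neg, abs_of_nonneg h0]
      have := mul_le_mul_of_nonneg_left q1 h0
      refine this.trans (le_of_eq ?_)
      ring
    have e3 : dt e (fun i => L.g Y i - L'.g Y i) + h * (2 * (qf β e e / 2) * z) =
        dt e R + dt e (fun i => L.g y i - L'.g y i) + -h * qf β e ρ := by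
      rw [e1]
      ring
    rw [e3]
    refine (abs_add_le _ _).trans ?_
    have g1 := abs_add_le (dt e R) (dt e (fun i => L.g y i - L'.g y i))
    rw [hKc]
    have c5 : 0 ≤ K * (h * ε) := by positivity
    linarith

/-- **Order one**. -/
theorem rel1_f (hC : 1 ≤ C₁) (L L' : Lf k C₁) {y Y e ρ : Fin k → ℝ} (hy : ∀ i, |y i| ≤ 3)
    (hYb : ∀ i, |Y i| ≤ 3) {h z ε κ : ℝ} (h0 : 0 ≤ h) (hz0 : 0 ≤ z) (hz1 : z ≤ 1) (hε0 : 0 ≤ ε)
    (hε : ε ≤ 1) (he : ∀ i, |e i| ≤ 1) (hρ : ∀ i, |ρ i| ≤ 2 * ε)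
    (hY : ∀ i, Y i - y i = -h * (z * e i + ρ i)) (hκ0 : 0 ≤ κ) (hκ1 : κ ≤ 1) (hh : h ≤ κ * ε)
    (d0 : |L.f y - L'.f y| ≤ κ * h * ε) (dg : ∀ i, |L.g y i - L'.g y i| ≤ κ) :
    |(L.f Y - L'.f Y) + h * (dt (fun i => L.g y i - L'.g y i) e * z)| ≤
      Kc k C₁ * (κ * h * ε) := by
  have hk : (0 : ℝ) ≤ k := Nat.cast_nonneg k
  have hC0 : 0 ≤ C₁ := by linarith
  have h1 : h ≤ 1 := hh.trans (by nlinarith)
  obtain ⟨K, hK⟩ : ∃ K : ℝ, K = ((k : ℝ) + 1) ^ 2 * C₁ := ⟨_, rfl⟩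
  have hKc : Kc k C₁ = 200 * K := by
    rw [hK]
    unfold Kc
    ring
  have K1 : 1 ≤ K := by
    rw [hK]
    nlinarith
  have Kk : (k : ℝ) ≤ K := by
    rw [hK]
    nlinarith [mul_nonneg hk hC0]
  have KC : C₁ ≤ K := by
    rw [hK]
    nlinarith [mul_nonneg hk hC0, mul_nonneg (mul_nonneg hk hk) hC0]
  have KkkC : k * (k * C₁) ≤ K := by
    rw [hK]
    nlinarith [mul_nonneg hk hC0, mul_nonneg (mul_nonneg hk hk) hC0]
  have hr := blk_pt h0 hz0 hz1 hε he hρ hY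
  have hδ : (fun i => Y i - y i) = fun i => -h * (z * e i + ρ i) := funext hY
  have a1 := dif_f L L' hy hYb hr
  have a4 := qf_le (dif_hb L L' hy) hr hr
  obtain ⟨Q, hQ⟩ : ∃ Q, Q = qf (fun i j => L.h y i j - L'.h y i j) (fun i => Y i - y i)
    (fun i => Y i - y i) := ⟨_, rfl⟩
  rw [← hQ] at a1 a4
  rw [hδ, dt_lin] at a1
  have a3 := dt_le (α := fun i => L.g y i - L'.g y i) dg hρ
  obtain ⟨P, hP⟩ : ∃ P, P = dt (fun i => L.g y i - L'.g y i) e := ⟨_, rfl⟩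
  obtain ⟨P', hP'⟩ : ∃ P, P = dt (fun i => L.g y i - L'.g y i) ρ := ⟨_, rfl⟩
  rw [← hP, ← hP'] at a1
  rw [← hP'] at a3
  rw [← hP]
  have hT : 0 ≤ κ * h * ε := by positivity
  have hhk : h * h ≤ κ * h * ε := by
    have := mul_le_mul_of_nonneg_left hh h0
    linarith
  have b1 : |Q / 2| ≤ 9 * (K * (κ * h * ε)) := by
    rw [abs_div, abs_of_pos (by norm_num : (0 : ℝ) < 2), div_le_iff₀ (by norm_num)]
    refine a4.trans ?_
    have e1 : (k : ℝ) * (3 * h * (k * (2 * C₁ * (3 * h)))) = 18 * (k * (k * C₁) * (h * h)) := by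
      ring
    rw [e1]
    have := mul_le_mul KkkC hhk (mul_nonneg h0 h0) (by linarith : 0 ≤ K)
    linarith
  have b2 : |-h * P'| ≤ 2 * (K * (κ * h * ε)) := by
    rw [abs_mul, abs_neg, abs_of_nonneg h0]
    have g1 := mul_le_mul_of_nonneg_left a3 h0
    refine g1.trans ?_
    have e1 : h * (k * (κ * (2 * ε))) = 2 * (k * (κ * h * ε)) := by ring
    rw [e1]
    have := mul_le_mul_of_nonneg_right Kk hT
    linarith
  have b3 : 2 * C₁ * (3 * h) ^ 3 ≤ 54 * (K * (κ * h * ε)) := by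
    have e2 : 2 * C₁ * (3 * h) ^ 3 = 54 * (C₁ * (h * h * h)) := by ring
    rw [e2]
    have g1 : h * h * h ≤ κ * h * ε := by
      have : h * h * h ≤ h * h * 1 := mul_le_mul_of_nonneg_left h1 (mul_nonneg h0 h0)
      linarith
    have := mul_le_mul KC g1 (by positivity) (by linarith : 0 ≤ K)
    linarith
  have b4 : κ * h * ε ≤ K * (κ * h * ε) := le_mul_of_one_le_left hT K1
  have e3 : (L.f Y - L'.f Y) + h * (P * z) =
      ((L.f Y - L'.f Y) - (L.f y - L'.f y) - -h * (z * P + P') - Q / 2) + (L.f y - L'.f y) +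
        -h * P' + Q / 2 := by ring
  rw [e3]
  refine (abs_add_le _ _).trans ?_
  obtain ⟨R, hR⟩ : ∃ R, R = (L.f Y - L'.f Y) - (L.f y - L'.f y) - -h * (z * P + P') - Q / 2 :=
    ⟨_, rfl⟩
  rw [← hR] at a1 ⊢
  have g1 := abs_add_le (R + (L.f y - L'.f y)) (-h * P')
  have g2 := abs_add_le R (L.f y - L'.f y)
  rw [hKc]
  have c5 : 0 ≤ K * (κ * h * ε) := by positivity
  linarith

/-- **Leaves with the same data at the corner**: the corner is `Yc`, the point of comparison `Y`. -/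
theorem same_f (hC : 1 ≤ C₁) (L L' : Lf k C₁) {y y' Yc Y : Fin k → ℝ} (hy : ∀ i, |y i| ≤ 3)
    (hy' : ∀ i, |y' i| ≤ 3) (hYc : ∀ i, |Yc i| ≤ 3) (hYb : ∀ i, |Y i| ≤ 3) {h D f0 g0 h0' : ℝ}
    (h0 : 0 ≤ h) (h1 : h ≤ 1) (hD0 : 0 ≤ D)
    (hr : ∀ i, |Yc i - y i| ≤ D) (hr' : ∀ i, |Yc i - y' i| ≤ D)
    (hδ : ∀ i, |Y i - Yc i| ≤ 4 * h)
    (df : |L.f Yc - L'.f Yc| ≤ f0) (dg : ∀ i, |L.g Yc i - L'.g Yc i| ≤ g0)
    (dh : ∀ i j, |L.h y i j - L'.h y' i j| ≤ h0') :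
    |L.f Y - L'.f Y| ≤ f0 + 4 * k * (g0 * h) + 8 * (k * k) * (h0' + 2 * (C₁ * D)) * (h * h) +
      128 * C₁ * (h * h * h) ∧
    ∀ i, |L.g Y i - L'.g Y i| ≤ g0 + 4 * k * (h0' + 2 * (C₁ * D)) * h +
      32 * C₁ * (h * h) := by
  have hk : (0 : ℝ) ≤ k := Nat.cast_nonneg k
  have hC0 : 0 ≤ C₁ := by linarith
  have dh2 : ∀ i j, |L.h Yc i j - L'.h Yc i j| ≤ h0' + 2 * (C₁ * D) := by
    intro i j
    have g1 := L.th y Yc hy hYc D hr i j
    have g2 := L'.th y' Yc hy' hYc D hr' i j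
    have g3 := dh i j
    have e : L.h Yc i j - L'.h Yc i j = (L.h Yc i j - L.h y i j) + (L.h y i j - L'.h y' i j) -
        (L'.h Yc i j - L'.h y' i j) := by ring
    rw [e]
    refine (abs_sub _ _).trans ?_
    have g4 := abs_add_le (L.h Yc i j - L.h y i j) (L.h y i j - L'.h y' i j)
    linarith
  constructor
  · have a1 := dif_f L L' hYc hYb hδ
    have a2 := dt_le (α := fun i => L.g Yc i - L'.g Yc i) dg hδ
    have a3 := qf_le dh2 hδ hδ
    obtain ⟨P, hP⟩ : ∃ P, P = dt (fun i => L.g Yc i - L'.g Yc i) (fun i => Y i - Yc i) := ⟨_, rfl⟩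
    obtain ⟨Q, hQ⟩ : ∃ Q, Q = qf (fun i j => L.h Yc i j - L'.h Yc i j) (fun i => Y i - Yc i)
      (fun i => Y i - Yc i) := ⟨_, rfl⟩
    rw [← hP] at a1 a2
    rw [← hQ] at a1 a3
    have b1 : |Q / 2| ≤ 8 * (k * k) * (h0' + 2 * (C₁ * D)) * (h * h) := by
      rw [abs_div, abs_of_pos (by norm_num : (0 : ℝ) < 2), div_le_iff₀ (by norm_num)]
      refine a3.trans (le_of_eq ?_)
      ring
    have e : L.f Y - L'.f Y = ((L.f Y - L'.f Y) - (L.f Yc - L'.f Yc) - P - Q / 2) +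
        (L.f Yc - L'.f Yc) + P + Q / 2 := by ring
    rw [e]
    refine (abs_add_le _ _).trans ?_
    have g1 := abs_add_le ((L.f Y - L'.f Y) - (L.f Yc - L'.f Yc) - P - Q / 2 +
        (L.f Yc - L'.f Yc)) P
    have g2 := abs_add_le ((L.f Y - L'.f Y) - (L.f Yc - L'.f Yc) - P - Q / 2)
      (L.f Yc - L'.f Yc)
    have e2 : 2 * C₁ * (4 * h) ^ 3 = 128 * C₁ * (h * h * h) := by ring
    have e3 : (k : ℝ) * (g0 * (4 * h)) = 4 * k * (g0 * h) := by ring
    linarith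
  · intro i
    have a1 := dif_g L L' hYc hYb hδ i
    have a2 := dt_le (dh2 i) hδ
    obtain ⟨P, hP⟩ : ∃ P, P = dt (fun j => L.h Yc i j - L'.h Yc i j) (fun j => Y j - Yc j) :=
      ⟨_, rfl⟩
    rw [← hP] at a1 a2
    have e : L.g Y i - L'.g Y i = ((L.g Y i - L'.g Y i) - (L.g Yc i - L'.g Yc i) - P) +
        (L.g Yc i - L'.g Yc i) + P := by ring
    rw [e]
    refine (abs_add_le _ _).trans ?_
    have g1 := abs_add_le ((L.g Y i - L'.g Y i) - (L.g Yc i - L'.g Yc i) - P)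
      (L.g Yc i - L'.g Yc i)
    have g2 := dg i
    have e2 : 2 * C₁ * (4 * h) ^ 2 = 32 * C₁ * (h * h) := by ring
    have e3 : (k : ℝ) * ((h0' + 2 * (C₁ * D)) * (4 * h)) = 4 * k * (h0' + 2 * (C₁ * D)) * h := by
      ring
    linarith

end Pool.XBG
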