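import Pool.Agent.H81.XBG.Main

/-!
# Lemma X for curved leaves over a base: the theorem
-/

set_option autoImplicit false

namespace Pool.XBG

open Finset Real Pool.XF Pool.LU
open Pool.Agent.H49.Ent Pool.Agent.H32.Dense Pool.STK Pool.KA Pool.KSAT Pool.K2S Pool.PC

/-- Positions at most `2`. -/
theorem CH_cel {Ω T : Type} [Fintype Ω] {p : Ω → ℝ} (hp : IsLaw p) {k : ℕ} (X s : ℕ)
    {y : Ω → Fin k → ℝ} (y0 : ∀ ω i, 0 ≤ y ω i) (y2 : ∀ ω i, y ω i < 2) (V : Ω → T) :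
    CH p (cel X y s) V ≤ k * (s * (X * Real.log 2)) + k * Real.log 9 := by
  have hk : (0 : ℝ) ≤ k := Nat.cast_nonneg k
  have hP : (1 : ℝ) ≤ 2 ^ (s * X) := one_le_pow₀ (by norm_num)
  have h1 := CH_bI hp (cel X y s) V (2 * 2 ^ (s * X)) (by positivity) fun ω ω' _ _ _ i => by
    have bd : ∀ ω, 0 ≤ ((cel X y s ω i : ℤ) : ℝ) ∧
        ((cel X y s ω i : ℤ) : ℝ) ≤ 2 * 2 ^ (s * X) := by
      intro ω
      have h2 : (0 : ℤ) ≤ cel X y s ω i :=
        Int.floor_nonneg.mpr (mul_nonneg (by positivity) (y0 ω i))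
      refine ⟨by exact_mod_cast h2, ?_⟩
      have h3 : ((cel X y s ω i : ℤ) : ℝ) ≤ 2 ^ (s * X) * y ω i := Int.floor_le _
      have h4 : (2 : ℝ) ^ (s * X) * y ω i ≤ 2 ^ (s * X) * 2 :=
        mul_le_mul_of_nonneg_left (y2 ω i).le (by positivity)
      linarith only [h3, h4]
    obtain ⟨b1, b2⟩ := bd ω
    obtain ⟨b3, b4⟩ := bd ω'
    push_cast
    rw [abs_le]
    constructor <;> linarith
  rw [Fintype.card_fin] at h1
  refine h1.trans ?_
  have h2 : 2 * (2 * (2 : ℝ) ^ (s * X)) + 1 ≤ 2 ^ (s * X) * 9 := by linarith only [hP]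
  have h3 := Real.log_le_log (by positivity) h2
  rw [Real.log_mul (by positivity) (by positivity), Real.log_pow] at h3
  push_cast at h3
  have := mul_le_mul_of_nonneg_left h3 hk
  linarith

/-- **Lemma X for curved leaves over a base.** -/
theorem xbg (k : ℕ) (hk : 1 ≤ k) (C₁ : ℝ) (hC1 : 1 ≤ C₁) : ∃ C : ℝ, 0 ≤ C ∧
    ∀ {Ω α β τ : Type} [Fintype Ω] {p : Ω → ℝ}, IsLaw p → ∀ (X S j D x0 : ℕ) (A : Ω → α)
    (B : Ω → β) (W : Ω → τ) (y : Ω → Fin k → ℝ) (a b : Ω → Lf k C₁) (θ p0 : ℝ),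
    Dat p X S j D A B W y a b → 0 ≤ θ → 0 ≤ p0 →
    (2 * X ≤ j → Pe p (fun ω => ∀ i l,
      |(a ω).h (y ω) i l - (b ω).h (y ω) i l| < 1 / 2 ^ x0) ≤ p0) →
    (j + X < S * X → Pe p (fun ω => ∀ i,
      |(a ω).g (y ω) i - (b ω).g (y ω) i| < 1 / 2 ^ (j + x0)) ≤ p0) →
    k * (S * (X * Real.log 2)) - θ ≤ CH p (cel X y S) (fun ω => (A ω, W ω)) →
    k * (S * (X * Real.log 2)) - θ ≤ CH p (cel X y S) (fun ω => (B ω, W ω)) →
    ((S : ℝ) * X + min ((S : ℝ) * X) j) * Real.log 2 ≤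
      CH p A W + C * (θ + X + (S + 1) ^ 2) + 2 * (S * (x0 + 3 + p0 * X)) := by
  obtain ⟨C, hC0, hC⟩ := Pool.XB.xb_chain 2
  obtain ⟨b0, b1, b2, b3⟩ := Cb_nonneg (k := k) hC1
  have hCg := (Cg_nonneg (k := k) hC1).2
  obtain ⟨E, hE⟩ : ∃ E : ℕ, E = ⌈Kc k C₁ + 3⌉₊ := ⟨_, rfl⟩
  have hE1 : 1 ≤ E := by
    have h1 : (1 : ℝ) ≤ E := by
      rw [hE]
      refine le_trans ?_ (Nat.le_ceil _)
      linarith only [hC1, (Kc_ge (k := k) hC1).1]
    exact_mod_cast h1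
  have hlE : 0 ≤ Real.log E := Real.log_nonneg (by exact_mod_cast hE1)
  refine ⟨C * (2 + Cg k C₁ + 2 * Cb k C₁ + Real.log E) + 5, by positivity, ?_⟩
  intro Ω α β τ _ p hp X S j D x0 A B W y a b θ p0 h hθ hp0 hβ hα hA hB
  have hn := hp.nonneg
  have hlog2 : 0 ≤ Real.log 2 := Real.log_nonneg (by norm_num)
  have hlog2' : Real.log 2 ≤ 1 := by
    have := Real.log_two_lt_d9
    linarith only [this]
  have hk0 : (0 : ℝ) ≤ k := Nat.cast_nonneg k
  have hX0 : (0 : ℝ) ≤ X := Nat.cast_nonneg X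
  have hS0 : (0 : ℝ) ≤ S := Nat.cast_nonneg S
  have l9 : 0 ≤ Real.log 9 := Real.log_nonneg (by norm_num)
  have l5 : 0 ≤ Real.log 5 := Real.log_nonneg (by norm_num)
  have hC9 : k * Real.log 9 ≤ Cb k C₁ := by
    have t1 : 0 ≤ ((k : ℝ) + 1) * Real.log (2 * (2 * Kc k C₁ + 1) + 1) := by positivity
    have t2 : 0 ≤ k * Real.log (2 * (K5 k C₁ + 2) + 1) := by positivity
    unfold Cb
    linarith only [b3, l5, t1, t2]
  obtain ⟨dd, d1, d2, d3⟩ := exists_dd hk y a b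
  obtain ⟨i1, i2⟩ := exists_i1 hk y a b
  obtain ⟨C0, hC0'⟩ : ∃ C0 : ℝ, C0 = Cb k C₁ * (S + 2) := ⟨_, rfl⟩
  have hCC : Cb k C₁ ≤ C0 := by
    rw [hC0']
    nlinarith only [b0]
  have hC00 : 0 ≤ C0 := b0.trans hCC
  have chn := h.chn hp d1 d2 (i1 := i1)
  rw [← hE, ← hC0'] at chn
  -- the entropies of the position
  have pos : ∀ {γ : Type} (G : Ω → γ), k * (S * (X * Real.log 2)) - θ ≤
      CH p (cel X y S) (fun ω => (G ω, W ω)) →
      k * (S * (X * Real.log 2)) - (θ + Cg k C₁ * (X + 1)) ≤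
        CH p (cel X y S) (fun ω => (G ω, (W ω, gam X j y a b dd i1 ω))) := by
    intro γ G hG
    have g1 := CH_le_add hn (cel X y S) (gam X j y a b dd i1) (fun ω => (G ω, W ω))
    have g2 := h.gam_le hp d2 (i1 := i1) (fun ω => (G ω, W ω))
    have g3 : CH p (cel X y S) (fun ω => (gam X j y a b dd i1 ω, (G ω, W ω))) ≤
        CH p (cel X y S) (fun ω => (G ω, (W ω, gam X j y a b dd i1 ω))) := by
      refine CH_mono_cond hn fun ω ω' _ _ hh => ?_
      simp only [Prod.mk.injEq] at hh ⊢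
      exact ⟨hh.2.1, hh.2.2, hh.1⟩
    linarith only [hG, g1, g2, g3]
  have key := hC hp X k E S C0 A B (fun ω => (W ω, gam X j y a b dd i1 ω)) (fun s => cel X y s)
    (fun s => rcd X j y a s) (ordr X j) (fun s => etas X y (dirs X j dd i1 s) s)
    (fun s => zets X y (dirs X j dd i1 s) s) (fun s => tls X j y a b dd i1 s)
    (fun s => cfs X j y a b dd i1 s) _ _ (θ + Cg k C₁ * (X + 1)) hE1 hC00 (by positivity) chn
    (by
      have := CH_cel hp X 0 h.y0 h.y2 (fun ω => (W ω, gam X j y a b dd i1 ω))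
      push_cast at this
      linarith only [hC9, hCC, this])
    (by
      have := CH_cel hp X S h.y0 h.y2 (fun ω => (A ω, (W ω, gam X j y a b dd i1 ω)))
      have t : C0 ≤ C0 * (S + 1) := by nlinarith only [b0, hCC]
      linarith only [hC9, hCC, this, t])
    (pos A hA) (pos B hB)
  -- the orders
  have o1 : ((S : ℝ) * X + min ((S : ℝ) * X) j) ≤
      (∑ s ∈ range S, (ordr X j s : ℝ)) * X + 5 * X := by
    have := ord_sum X j S
    have h2 : ((S * X + min (S * X) j : ℕ) : ℝ) ≤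
        ((X * ∑ s ∈ range S, ordr X j s + 5 * X : ℕ) : ℝ) := by exact_mod_cast this
    push_cast at h2
    linarith only [h2]
  -- the tails
  have o2 : ∑ s ∈ range S, Ex p (fun ω => ((tls X j y a b dd i1 s ω : ℕ) : ℝ)) ≤
      S * (x0 + 3 + p0 * X) := by
    have hX1 : 1 ≤ X := by
      have := h.hX
      omega
    refine (Finset.sum_le_sum fun s hs => tls_le hp d3 i2 hp0 hβ hα (Finset.mem_range.1 hs)
      hX1).trans (le_of_eq ?_)
    rw [Finset.sum_const, Finset.card_range, nsmul_eq_mul]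
  have o3 : CH p A (fun ω => (W ω, gam X j y a b dd i1 ω)) ≤ CH p A W :=
    CH_mono_cond hn fun _ _ _ _ hh => (Prod.ext_iff.mp hh).1
  have q1 := mul_le_mul_of_nonneg_right o1 hlog2
  have q2 : 5 * (X : ℝ) * Real.log 2 ≤ 5 * X := mul_le_of_le_one_right (by positivity) hlog2'
  have q3 : (2 : ℝ) * Real.log 2 * ∑ s ∈ range S,
      Ex p (fun ω => ((tls X j y a b dd i1 s ω : ℕ) : ℝ)) ≤ 2 * (S * (x0 + 3 + p0 * X)) := by
    have hs0 : 0 ≤ ∑ s ∈ range S, Ex p (fun ω => ((tls X j y a b dd i1 s ω : ℕ) : ℝ)) :=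
      Finset.sum_nonneg fun s _ => Ex_nonneg hn fun _ _ => Nat.cast_nonneg _
    have t1 : (2 : ℝ) * Real.log 2 * ∑ s ∈ range S,
        Ex p (fun ω => ((tls X j y a b dd i1 s ω : ℕ) : ℝ)) ≤ 2 * ∑ s ∈ range S,
        Ex p (fun ω => ((tls X j y a b dd i1 s ω : ℕ) : ℝ)) := by nlinarith only [hlog2', hs0]
    linarith only [o2, t1]
  have q4 : C * (θ + Cg k C₁ * (X + 1) + (S + 1) * (1 + C0 + Real.log E)) ≤
      C * (2 + Cg k C₁ + 2 * Cb k C₁ + Real.log E) * (θ + X + (S + 1) ^ 2) := by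
    rw [mul_assoc]
    refine mul_le_mul_of_nonneg_left ?_ hC0
    obtain ⟨N, hN⟩ : ∃ N : ℝ, N = ((S : ℝ) + 1) ^ 2 := ⟨_, rfl⟩
    have hN1 : 1 ≤ N := by rw [hN]; nlinarith
    have hN2 : (S : ℝ) + 1 ≤ N := by rw [hN]; nlinarith only [hN, hN1]
    have t1 : ((S : ℝ) + 1) * (1 + C0 + Real.log E) ≤ N * (1 + 2 * Cb k C₁ + Real.log E) := by
      have e1 : ((S : ℝ) + 1) * (1 + C0 + Real.log E) =
          (S + 1) * (1 + Real.log E) + Cb k C₁ * ((S + 1) * (S + 2)) := by rw [hC0']; ring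
      have e2 : N * (1 + 2 * Cb k C₁ + Real.log E) =
          N * (1 + Real.log E) + Cb k C₁ * (2 * N) := by ring
      rw [e1, e2]
      have f1 : ((S : ℝ) + 1) * (1 + Real.log E) ≤ N * (1 + Real.log E) :=
        mul_le_mul_of_nonneg_right hN2 (by linarith only [hlE])
      have f2 : ((S : ℝ) + 1) * (S + 2) ≤ 2 * N := by rw [hN]; nlinarith only [hN, hN2]
      have f3 := mul_le_mul_of_nonneg_left f2 b0
      linarith only [f1, f3]
    rw [← hN]
    have t2 : Cg k C₁ * (X + 1) ≤ Cg k C₁ * (θ + X + N) :=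
      mul_le_mul_of_nonneg_left (by linarith only [hθ, hN1]) hCg
    have t3 : θ ≤ 1 * (θ + X + N) := by linarith only [hN1]
    have t4 : N * (1 + 2 * Cb k C₁ + Real.log E) ≤
        (1 + 2 * Cb k C₁ + Real.log E) * (θ + X + N) := by
      rw [mul_comm]
      exact mul_le_mul_of_nonneg_left (by linarith only [hθ]) (by positivity)
    have e3 : (2 + Cg k C₁ + 2 * Cb k C₁ + Real.log E) * (θ + X + N) =
        Cg k C₁ * (θ + X + N) + 1 * (θ + X + N) +
          (1 + 2 * Cb k C₁ + Real.log E) * (θ + X + N) := by ring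
    rw [e3]
    linarith only [hN1, t1, t2, t4]
  have q5 : (5 : ℝ) * X ≤ 5 * (θ + X + (S + 1) ^ 2) := by nlinarith only [hθ]
  have q6 : (C * (2 + Cg k C₁ + 2 * Cb k C₁ + Real.log E) + 5) * (θ + X + (S + 1) ^ 2) =
      C * (2 + Cg k C₁ + 2 * Cb k C₁ + Real.log E) * (θ + X + (S + 1) ^ 2) +
      5 * (θ + X + (S + 1) ^ 2) := by ring
  have q7 : (∑ s ∈ range S, (ordr X j s : ℝ)) * (X * Real.log 2) =
      (∑ s ∈ range S, (ordr X j s : ℝ)) * X * Real.log 2 := by ring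
  push_cast at key
  rw [q6]
  rw [q7] at key
  linarith only [key, o3, q1, q2, q3, q4, q5]

end Pool.XBG
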